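import Mathlib

open FirstOrder FirstOrder.Language Cardinal

namespace Pool.Agent.WeakOrth

universe u v w

section Syntax

theorem mem_varFinset_relabel {L : FirstOrder.Language.{u, v}} {α β : Type*} [DecidableEq α]
    [DecidableEq β] (g : α → β) (t : L.Term α)
    (y : β) : y ∈ (t.relabel g).varFinset ↔ ∃ x ∈ t.varFinset, g x = y := by
  induction t with
  | var x => simp [Term.relabel, Term.varFinset, eq_comm]
  | func f ts ih =>
    simp only [Term.relabel, Term.varFinset, Finset.mem_biUnion, Finset.mem_univ, true_and, ih]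
    constructor
    · rintro ⟨i, x, hx, rfl⟩; exact ⟨x, ⟨i, hx⟩, rfl⟩
    · rintro ⟨x, ⟨i, hx⟩, rfl⟩; exact ⟨i, x, hx, rfl⟩

theorem mem_varFinsetLeft {L : FirstOrder.Language.{u, v}} {α β : Type*} [DecidableEq α]
    [DecidableEq β] (t : L.Term (α ⊕ β))
    (y : α) : y ∈ t.varFinsetLeft ↔ Sum.inl y ∈ t.varFinset := by
  induction t with
  | var x => cases x <;> simp [Term.varFinsetLeft, Term.varFinset]
  | func f ts ih =>
    simp only [Term.varFinsetLeft, Term.varFinset, Finset.mem_biUnion, Finset.mem_univ, true_and,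
      ih]

theorem mem_freeVarFinset_castLE {L : FirstOrder.Language.{u, v}} {α : Type*} [DecidableEq α]
    {m n : ℕ}
    (h : m ≤ n) (φ : L.BoundedFormula α m) (y : α) :
    y ∈ (φ.castLE h).freeVarFinset ↔ y ∈ φ.freeVarFinset := by
  induction φ generalizing n with
  | falsum => simp
  | equal t₁ t₂ =>
    simp [mem_varFinsetLeft, mem_varFinset_relabel]
  | rel R ts =>
    simp [mem_varFinsetLeft, mem_varFinset_relabel]
  | imp f₁ f₂ ih1 ih2 => simp [ih1, ih2]
  | all f ih => simp [ih]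

theorem relabelAux_eq_inl {α β : Type*} {n k : ℕ} (g : α → β ⊕ Fin n) (z : α ⊕ Fin k) (y : β) :
    BoundedFormula.relabelAux g k z = Sum.inl y ↔ ∃ x, z = Sum.inl x ∧ g x = Sum.inl y := by
  rcases z with x | i
  · simp only [BoundedFormula.relabelAux, Function.comp_apply, Sum.map_inl]
    rcases h : g x with b | j <;> simp [h]
  · simp [BoundedFormula.relabelAux]

theorem mem_freeVarFinset_relabel {L : FirstOrder.Language.{u, v}} {α β : Type*} [DecidableEq α]
    [DecidableEq β] {n k : ℕ}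
    (g : α → β ⊕ Fin n) (φ : L.BoundedFormula α k) (y : β) :
    y ∈ (φ.relabel g).freeVarFinset ↔ ∃ x ∈ φ.freeVarFinset, g x = Sum.inl y := by
  induction φ with
  | falsum => simp
  | equal t₁ t₂ =>
    simp only [BoundedFormula.relabel, BoundedFormula.mapTermRel, BoundedFormula.freeVarFinset,
      Finset.mem_union, mem_varFinsetLeft, mem_varFinset_relabel, relabelAux_eq_inl]
    constructor
    · rintro (⟨x, hx, x', rfl, hg⟩ | ⟨x, hx, x', rfl, hg⟩)
      · exact ⟨x', Or.inl hx, hg⟩
      · exact ⟨x', Or.inr hx, hg⟩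
    · rintro ⟨x, hx | hx, hg⟩
      · exact Or.inl ⟨_, hx, x, rfl, hg⟩
      · exact Or.inr ⟨_, hx, x, rfl, hg⟩
  | rel R ts =>
    simp only [BoundedFormula.relabel, BoundedFormula.mapTermRel, BoundedFormula.freeVarFinset,
      Finset.mem_biUnion, Finset.mem_univ, true_and, mem_varFinsetLeft, mem_varFinset_relabel,
      relabelAux_eq_inl, id]
    constructor
    · rintro ⟨i, x, hx, x', rfl, hg⟩
      exact ⟨x', ⟨i, hx⟩, hg⟩
    · rintro ⟨x, ⟨i, hx⟩, hg⟩
      exact ⟨i, _, hx, x, rfl, hg⟩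
  | imp f₁ f₂ ih1 ih2 =>
    simp only [BoundedFormula.relabel_imp, BoundedFormula.freeVarFinset, Finset.mem_union, ih1,
      ih2]
    constructor
    · rintro (⟨x, hx, hg⟩ | ⟨x, hx, hg⟩)
      · exact ⟨x, Or.inl hx, hg⟩
      · exact ⟨x, Or.inr hx, hg⟩
    · rintro ⟨x, hx | hx, hg⟩
      · exact Or.inl ⟨x, hx, hg⟩
      · exact Or.inr ⟨x, hx, hg⟩
  | all f ih =>
    rw [BoundedFormula.relabel_all]
    simp only [BoundedFormula.freeVarFinset, ih]

theorem mem_freeVarFinset_formula_relabel {L : FirstOrder.Language.{u, v}} {α β : Type*}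
    [DecidableEq α] [DecidableEq β] (g : α → β) (φ : L.Formula α) (y : β) :
    y ∈ (φ.relabel g).freeVarFinset ↔ ∃ x ∈ φ.freeVarFinset, g x = y := by
  have := mem_freeVarFinset_relabel (n := 0) (Sum.inl ∘ g) φ y
  simpa [Formula.relabel] using this

theorem realize_congr_freeVarFinset {L : FirstOrder.Language.{u, v}} {M : Type*} [L.Structure M]
    {α : Type*} [DecidableEq α] (φ : L.Formula α) (v v' : α → M)
    (h : ∀ a ∈ φ.freeVarFinset, v a = v' a) : φ.Realize v ↔ φ.Realize v' := by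
  have h1 := BoundedFormula.realize_restrictFreeVar' (φ := φ) (s := ↑φ.freeVarFinset) subset_rfl
    (v := v) (xs := (default : Fin 0 → M))
  have h2 := BoundedFormula.realize_restrictFreeVar' (φ := φ) (s := ↑φ.freeVarFinset) subset_rfl
    (v := v') (xs := (default : Fin 0 → M))
  have h3 : (v ∘ (fun x => x.1) : {x // x ∈ (↑φ.freeVarFinset : Set α)} → M)
      = v' ∘ (fun x => x.1) := by
    funext x; exact h x.1 x.2
  have h4 := h1.symm.trans (Eq.to_iff (congrArg
    (fun w => (φ.restrictFreeVar (Set.inclusion subset_rfl)).Realize w (default : Fin 0 → M)) h3))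
  exact h4.trans h2

end Syntax

section Definitions

variable {L : FirstOrder.Language.{u, v}} {U : Type w} [L.Structure U] {α β γ : Type}

/-- A formula with parameters from `U` in the variables `α` is an `L`-formula with variables
indexed by `U ⊕ α`, where the variable `Sum.inl m` stands for the element `m` of `U`.
`Holds φ a` says that such a formula `φ` is true in `U` at the tuple `a`. -/
def Holds (φ : L.Formula (U ⊕ α)) (a : α → U) : Prop :=
  φ.Realize (Sum.elim id a)

open Classical in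
/-- All parameters occurring in the formula `φ` lie in the set `A`. -/
def Over (A : Set U) (φ : L.Formula (U ⊕ α)) : Prop :=
  ∀ m : U, Sum.inl m ∈ φ.freeVarFinset → m ∈ A

variable (L U) in
/-- `U` is a monster model with respect to the cardinal `κ`: `κ` is uncountable and larger than
the number of symbols of `L`, the structure `U` is `κ`-saturated (every finitely satisfiable set
of formulas in finitely many variables, with parameters from a set of size less than `κ`, is
realised in `U`) and strongly `κ`-homogeneous (two tuples of length less than `κ` that satisfy the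
same formulas are conjugate under an automorphism of `U`). -/
structure IsMonster (κ : Cardinal.{w}) : Prop where
  aleph0_lt : ℵ₀ < κ
  card_lt : Cardinal.lift.{w} L.card < Cardinal.lift.{max u v} κ
  saturated : ∀ (α : Type) [Finite α] (A : Set U), #A < κ → ∀ S : Set (L.Formula (U ⊕ α)),
    (∀ φ ∈ S, Over A φ) →
    (∀ F : Finset (L.Formula (U ⊕ α)), ↑F ⊆ S → ∃ a : α → U, ∀ φ ∈ F, Holds φ a) →
    ∃ a : α → U, ∀ φ ∈ S, Holds φ a
  homogeneous : ∀ I : Type w, #I < κ → ∀ a b : I → U,
    (∀ φ : L.Formula I, φ.Realize a ↔ φ.Realize b) → ∃ σ : U ≃[L] U, ∀ i, σ (a i) = b i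

variable (L U) in
/-- A global type in the variables `α`: a complete type over `U`, that is, a set of formulas with
parameters from `U` that is finitely satisfiable in `U` and contains every such formula or its
negation. -/
structure GlobalType (α : Type) where
  /-- the formulas of the type -/
  carrier : Set (L.Formula (U ⊕ α))
  finitely_satisfiable : ∀ F : Finset (L.Formula (U ⊕ α)), ↑F ⊆ carrier →
    ∃ a : α → U, ∀ φ ∈ F, Holds φ a
  complete : ∀ φ : L.Formula (U ⊕ α), φ ∈ carrier ∨ φ.not ∈ carrier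

/-- `φ ∈ p` means that the formula `φ` belongs to the global type `p`. -/
instance : Membership (L.Formula (U ⊕ α)) (GlobalType L U α) := ⟨fun p φ => φ ∈ p.carrier⟩

/-- The tuple `a` of elements of `U` realises the restriction of the global type `p` to `A`. -/
def GlobalType.RealizesOver (p : GlobalType L U α) (A : Set U) (a : α → U) : Prop :=
  ∀ φ ∈ p, Over A φ → Holds φ a

/-- The global type `p` is fixed by every automorphism of `U` that fixes `A` pointwise. -/
def GlobalType.InvariantOver (p : GlobalType L U α) (A : Set U) : Prop :=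
  ∀ σ : U ≃[L] U, (∀ m ∈ A, σ m = m) →
    ∀ φ : L.Formula (U ⊕ α), φ ∈ p ↔ φ.relabel (Sum.map σ id) ∈ p

/-- The global type `p` is invariant: it is invariant over some small set, that is, over some set
of size less than `κ`. -/
def GlobalType.IsInvariant (κ : Cardinal.{w}) (p : GlobalType L U α) : Prop :=
  ∃ A : Set U, #A < κ ∧ p.InvariantOver A

/-- `p(x)` and `q(y)` are weakly orthogonal: there is exactly one complete type over `U` in the
variables `(x, y)` that contains `p(x)` and `q(y)`. -/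
def WeaklyOrthogonal (p : GlobalType L U α) (q : GlobalType L U β) : Prop :=
  ∃! r : GlobalType L U (α ⊕ β),
    (∀ φ ∈ p, φ.relabel (Sum.map id Sum.inl) ∈ r) ∧ (∀ φ ∈ q, φ.relabel (Sum.map id Sum.inr) ∈ r)

/-- For a formula `φ(x, y)` with parameters from `U`, the formula `φ(x, b)`. -/
def plug (b : β → U) (φ : L.Formula (U ⊕ (α ⊕ β))) : L.Formula (U ⊕ α) :=
  φ.relabel (Sum.elim Sum.inl (Sum.elim Sum.inr (Sum.inl ∘ b)))

/-- The formula `φ(x; y)` has the independence property in the structure `M`: for every `n` there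
are tuples `a₀, …, a_{n-1}` and tuples `b_S`, for `S ⊆ {0, …, n-1}`, such that `φ(a_i; b_S)` holds
if and only if `i ∈ S`. -/
def HasIP (M : Type*) [L.Structure M] {α β : Type} (φ : L.Formula (α ⊕ β)) : Prop :=
  ∀ n : ℕ, ∃ (a : Fin n → α → M) (b : Set (Fin n) → β → M),
    ∀ i S, φ.Realize (Sum.elim (a i) (b S)) ↔ i ∈ S

/-- The theory `T` is NIP: no formula `φ(x; y)`, with finite tuples of variables `x` and `y`, has
the independence property in a model of `T` (in the universe `w`). -/
def IsNIP (T : L.Theory) : Prop :=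
  ∀ (M : Type w) [L.Structure M] [M ⊨ T] (α β : Type) [Finite α] [Finite β]
    (φ : L.Formula (α ⊕ β)), ¬ HasIP M φ

end Definitions

section BasicLemmas

variable {L : FirstOrder.Language.{u, v}} {U : Type w} [L.Structure U] {α β γ : Type}

theorem holds_not {φ : L.Formula (U ⊕ α)} {a : α → U} : Holds φ.not a ↔ ¬ Holds φ a := by
  simp [Holds]

theorem holds_inf {φ ψ : L.Formula (U ⊕ α)} {a : α → U} :
    Holds (φ ⊓ ψ) a ↔ Holds φ a ∧ Holds ψ a := by
  simp [Holds]

theorem holds_imp {φ ψ : L.Formula (U ⊕ α)} {a : α → U} :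
    Holds (φ.imp ψ) a ↔ (Holds φ a → Holds ψ a) := by
  simp [Holds]

theorem holds_plug {b : β → U} {φ : L.Formula (U ⊕ (α ⊕ β))} {a : α → U} :
    Holds (plug b φ) a ↔ Holds φ (Sum.elim a b) := by
  unfold Holds plug
  rw [Formula.realize_relabel]
  have : (Sum.elim id a ∘ Sum.elim Sum.inl (Sum.elim Sum.inr (Sum.inl ∘ b)) : U ⊕ (α ⊕ β) → U)
      = Sum.elim id (Sum.elim a b) := by
    funext x; rcases x with x | x | x <;> rfl
  rw [this]

theorem holds_relabel_inl {φ : L.Formula (U ⊕ α)} {a : α ⊕ β → U} :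
    Holds (φ.relabel (Sum.map id Sum.inl)) a ↔ Holds φ (a ∘ Sum.inl) := by
  unfold Holds
  rw [Formula.realize_relabel]
  have : (Sum.elim id a ∘ Sum.map id Sum.inl : U ⊕ α → U) = Sum.elim id (a ∘ Sum.inl) := by
    funext x; rcases x with x | x <;> rfl
  rw [this]

theorem holds_relabel_inr {φ : L.Formula (U ⊕ β)} {a : α ⊕ β → U} :
    Holds (φ.relabel (Sum.map id Sum.inr)) a ↔ Holds φ (a ∘ Sum.inr) := by
  unfold Holds
  rw [Formula.realize_relabel]
  have : (Sum.elim id a ∘ Sum.map id Sum.inr : U ⊕ β → U) = Sum.elim id (a ∘ Sum.inr) := by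
    funext x; rcases x with x | x <;> rfl
  rw [this]

theorem holds_relabel_map {φ : L.Formula (U ⊕ α)} {σ : U ≃[L] U} {a : α → U} :
    Holds (φ.relabel (Sum.map σ id)) (σ ∘ a) ↔ Holds φ a := by
  unfold Holds
  rw [Formula.realize_relabel]
  have : (Sum.elim id (σ ∘ a) ∘ Sum.map σ id : U ⊕ α → U) = σ ∘ Sum.elim id a := by
    funext x; rcases x with x | x <;> rfl
  rw [this]
  exact StrongHomClass.realize_formula σ φ

omit [L.Structure U] in
theorem Over.mono {A B : Set U} (h : A ⊆ B) {φ : L.Formula (U ⊕ α)} (hφ : Over A φ) : Over B φ :=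
  fun m hm => h (hφ m hm)

omit [L.Structure U] in
theorem over_relabel {A : Set U} {V : Type*} (g : V → U ⊕ α) (φ : L.Formula V)
    (h : ∀ x m, g x = Sum.inl m → m ∈ A) : Over A (φ.relabel g) := by
  classical
  intro m hm
  have hm' : (Sum.inl m : U ⊕ α) ∈ (φ.relabel g).freeVarFinset := by convert hm
  obtain ⟨x, _, hx⟩ := (mem_freeVarFinset_formula_relabel g φ _).1 hm'
  exact h x m hx

omit [L.Structure U] in
theorem over_relabel' {A : Set U} {β : Type} (g : U ⊕ β → U ⊕ α) (φ : L.Formula (U ⊕ β))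
    {B : Set U} (hφ : Over B φ)
    (h1 : ∀ x ∈ B, ∀ m, g (Sum.inl x) = Sum.inl m → m ∈ A)
    (h2 : ∀ x, ∀ m, g (Sum.inr x) = Sum.inl m → m ∈ A) : Over A (φ.relabel g) := by
  classical
  intro m hm
  have hm' : (Sum.inl m : U ⊕ α) ∈ (φ.relabel g).freeVarFinset := by convert hm
  obtain ⟨x, hx1, hx⟩ := (mem_freeVarFinset_formula_relabel g φ _).1 hm'
  rcases x with x | x
  · exact h1 x (hφ x (by convert hx1)) m hx
  · exact h2 x m hx

/-- the set of parameters of a formula -/
def params (φ : L.Formula (U ⊕ α)) : Set U := {m | ∀ A : Set U, Over A φ → m ∈ A}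

omit [L.Structure U] in
theorem over_params (φ : L.Formula (U ⊕ α)) : Over (params φ) φ :=
  fun m hm _ hA => hA m hm

omit [L.Structure U] in
theorem params_finite (φ : L.Formula (U ⊕ α)) : (params φ).Finite := by
  classical
  refine Set.Finite.subset
    (s := {m | Sum.inl m ∈ φ.freeVarFinset}) ?_ ?_
  · exact Set.Finite.preimage (Sum.inl_injective.injOn) (φ.freeVarFinset.finite_toSet)
  · intro m hm
    exact hm _ (fun x hx => by
      change Sum.inl x ∈ φ.freeVarFinset
      convert hx)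

theorem holds_congr_of_over {A : Set U} {φ : L.Formula (U ⊕ α)} (hφ : Over A φ)
    (v v' : U ⊕ α → U) (h1 : ∀ m ∈ A, v (Sum.inl m) = v' (Sum.inl m))
    (h2 : ∀ x, v (Sum.inr x) = v' (Sum.inr x)) : φ.Realize v ↔ φ.Realize v' := by
  classical
  apply realize_congr_freeVarFinset
  intro a ha
  rcases a with m | x
  · exact h1 m (hφ m (by convert ha))
  · exact h2 x

namespace GlobalType

variable {p : GlobalType L U α}

theorem ext' {p q : GlobalType L U α} (h : ∀ φ, φ ∈ p ↔ φ ∈ q) : p = q := by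
  rcases p with ⟨c, h1, h2⟩
  rcases q with ⟨c', h1', h2'⟩
  have : c = c' := Set.ext h
  subst this
  rfl

theorem not_both {φ : L.Formula (U ⊕ α)} (h : φ ∈ p) (h' : φ.not ∈ p) : False := by
  classical
  obtain ⟨a, ha⟩ := p.finitely_satisfiable {φ, φ.not} (by
    intro ψ hψ
    simp only [Finset.coe_insert, Finset.coe_singleton, Set.mem_insert_iff,
      Set.mem_singleton_iff] at hψ
    rcases hψ with rfl | rfl
    · exact h
    · exact h')
  have h1 := ha φ (by simp)
  have h2 := ha φ.not (by simp)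
  exact (holds_not.1 h2) h1

theorem not_mem_iff {φ : L.Formula (U ⊕ α)} : φ.not ∈ p ↔ φ ∉ p := by
  constructor
  · intro h h'; exact not_both h' h
  · intro h; exact (p.complete φ).resolve_left h

theorem mem_of_forall {φ ψ : L.Formula (U ⊕ α)} (h : ∀ a, Holds φ a → Holds ψ a) (hφ : φ ∈ p) :
    ψ ∈ p := by
  classical
  by_contra hψ
  have hψ' := not_mem_iff.2 hψ
  obtain ⟨a, ha⟩ := p.finitely_satisfiable {φ, ψ.not} (by
    intro χ hχ
    simp only [Finset.coe_insert, Finset.coe_singleton, Set.mem_insert_iff,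
      Set.mem_singleton_iff] at hχ
    rcases hχ with rfl | rfl
    · exact hφ
    · exact hψ')
  exact (holds_not.1 (ha ψ.not (by simp))) (h a (ha φ (by simp)))

theorem mem_congr {φ ψ : L.Formula (U ⊕ α)} (h : ∀ a, Holds φ a ↔ Holds ψ a) :
    φ ∈ p ↔ ψ ∈ p :=
  ⟨mem_of_forall fun a => (h a).1, mem_of_forall fun a => (h a).2⟩

theorem inf_mem {φ ψ : L.Formula (U ⊕ α)} (h : φ ∈ p) (h' : ψ ∈ p) : φ ⊓ ψ ∈ p := by
  classical
  by_contra hψ
  have hψ' := not_mem_iff.2 hψ
  obtain ⟨a, ha⟩ := p.finitely_satisfiable {φ, ψ, Formula.not (φ ⊓ ψ)} (by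
    intro χ hχ
    simp only [Finset.coe_insert, Finset.coe_singleton, Set.mem_insert_iff,
      Set.mem_singleton_iff] at hχ
    rcases hχ with rfl | rfl | rfl
    · exact h
    · exact h'
    · exact hψ')
  exact (holds_not.1 (ha _ (by simp))) (holds_inf.2 ⟨ha φ (by simp), ha ψ (by simp)⟩)

theorem RealizesOver.mono {A B : Set U} (h : A ⊆ B) {a : α → U} (ha : p.RealizesOver B a) :
    p.RealizesOver A a :=
  fun φ hφ hA => ha φ hφ (hA.mono h)

theorem RealizesOver.mem_iff {A : Set U} {a : α → U} (ha : p.RealizesOver A a)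
    {φ : L.Formula (U ⊕ α)} (hφ : Over A φ) : φ ∈ p ↔ Holds φ a := by
  constructor
  · intro h; exact ha φ h hφ
  · intro h
    by_contra h'
    have h2 := ha _ (not_mem_iff.2 h') (by
      intro m hm
      exact hφ m (by simpa [Formula.not] using hm))
    exact (holds_not.1 h2) h

end GlobalType

end BasicLemmas

section Monster

variable {L : FirstOrder.Language.{u, v}} {U : Type w} [L.Structure U] {α β γ : Type}
  {κ : Cardinal.{w}}

theorem IsMonster.small_union (hU : IsMonster L U κ) {A B : Set U} (hA : #A < κ) (hB : #B < κ) :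
    #(A ∪ B : Set U) < κ :=
  (mk_union_le A B).trans_lt (add_lt_of_lt hU.aleph0_lt.le hA hB)

theorem IsMonster.small_finite (hU : IsMonster L U κ) {A : Set U} (hA : A.Finite) : #A < κ :=
  (lt_aleph0_iff_set_finite.2 hA).trans hU.aleph0_lt

theorem IsMonster.small_range (hU : IsMonster L U κ) [Finite α] (a : α → U) :
    #(Set.range a) < κ :=
  hU.small_finite (Set.finite_range a)

theorem IsMonster.exists_realizesOver (hU : IsMonster L U κ) [Finite α] (p : GlobalType L U α)
    {A : Set U} (hA : #A < κ) : ∃ a, p.RealizesOver A a := by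
  obtain ⟨a, ha⟩ := hU.saturated α A hA {φ | φ ∈ p ∧ Over A φ} (fun φ hφ => hφ.2)
    (fun F hF => p.finitely_satisfiable F (fun φ hφ => (hF hφ).1))
  exact ⟨a, fun φ hφ hA => ha φ ⟨hφ, hA⟩⟩

/-- Tuples with the same complete type over a small set are conjugate. -/
theorem IsMonster.conj_of_holds_iff (hU : IsMonster L U κ) [Finite α]
    {A : Set U} (hA : #A < κ) {a b : α → U}
    (h : ∀ φ : L.Formula (U ⊕ α), Over A φ → (Holds φ a ↔ Holds φ b)) :
    ∃ σ : U ≃[L] U, (∀ m ∈ A, σ m = m) ∧ ∀ i, σ (a i) = b i := by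
  have hcard : #(A ⊕ α) < κ := by
    rw [mk_sum]
    refine add_lt_of_lt hU.aleph0_lt.le ?_ ?_
    · simpa using hA
    · exact (lift_lt_aleph0.2 (lt_aleph0_of_finite α)).trans hU.aleph0_lt
  obtain ⟨σ, hσ⟩ := hU.homogeneous (A ⊕ α) hcard (Sum.elim (fun m => m.1) a)
    (Sum.elim (fun m => m.1) b) (by
      intro φ
      have h1 := h (φ.relabel (Sum.map (fun m : A => m.1) id)) (over_relabel _ _ (by
        intro x m hx
        rcases x with x | x
        · simp only [Sum.map_inl, Sum.inl.injEq] at hx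
          exact hx ▸ x.2
        · simp at hx))
      unfold Holds at h1
      rw [Formula.realize_relabel, Formula.realize_relabel] at h1
      have e : ∀ c : α → U, (Sum.elim id c ∘ Sum.map (fun m : A => m.1) id : A ⊕ α → U)
          = Sum.elim (fun m => m.1) c := by
        intro c; funext x; rcases x with x | x <;> rfl
      rwa [e, e] at h1)
  exact ⟨σ, fun m hm => hσ (Sum.inl ⟨m, hm⟩), fun i => hσ (Sum.inr i)⟩

theorem IsMonster.conj (hU : IsMonster L U κ) [Finite α] {p : GlobalType L U α}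
    {A : Set U} (hA : #A < κ) {a b : α → U}
    (ha : p.RealizesOver A a) (hb : p.RealizesOver A b) :
    ∃ σ : U ≃[L] U, (∀ m ∈ A, σ m = m) ∧ ∀ i, σ (a i) = b i :=
  hU.conj_of_holds_iff hA fun _ hφ => (ha.mem_iff hφ).symm.trans (hb.mem_iff hφ)

theorem holds_iff_of_fix {A : Set U} {σ : U ≃[L] U} (hσ : ∀ m ∈ A, σ m = m)
    {φ : L.Formula (U ⊕ α)} (hφ : Over A φ) {a : α → U} :
    Holds φ (σ ∘ a) ↔ Holds φ a := by
  unfold Holds
  rw [← StrongHomClass.realize_formula σ φ (v := Sum.elim id a)]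
  exact holds_congr_of_over hφ _ _ (fun m hm => by simp [hσ m hm]) (fun x => by simp)

theorem mem_plug_iff {p : GlobalType L U α} {A : Set U}
    (hp : p.InvariantOver A) {φ : L.Formula (U ⊕ (α ⊕ β))} (hφ : Over A φ)
    {σ : U ≃[L] U} (hσ : ∀ m ∈ A, σ m = m) {b b' : β → U} (hb : ∀ i, σ (b i) = b' i) :
    plug b φ ∈ p ↔ plug b' φ ∈ p := by
  rw [hp σ hσ]
  apply GlobalType.mem_congr
  intro a
  rw [holds_plug]
  unfold Holds plug
  rw [Formula.realize_relabel, Formula.realize_relabel]
  refine holds_congr_of_over hφ _ _ (fun m hm => ?_) (fun x => ?_)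
  · simp [hσ m hm]
  · rcases x with x | x <;> simp [hb]

/-- The formulas of the tensor product. -/
def tensorCarrier (κ : Cardinal.{w}) (p : GlobalType L U α) (q : GlobalType L U β) :
    Set (L.Formula (U ⊕ (α ⊕ β))) :=
  {φ | ∃ A : Set U, #A < κ ∧ p.InvariantOver A ∧ Over A φ ∧
    ∃ b : β → U, q.RealizesOver A b ∧ plug b φ ∈ p}

theorem mem_tensorCarrier_iff (hU : IsMonster L U κ) [Finite β] {p : GlobalType L U α}
    {q : GlobalType L U β} {A : Set U} (hA : #A < κ) (hp : p.InvariantOver A)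
    {φ : L.Formula (U ⊕ (α ⊕ β))} (hφ : Over A φ) {b : β → U} (hb : q.RealizesOver A b) :
    φ ∈ tensorCarrier κ p q ↔ plug b φ ∈ p := by
  constructor
  · rintro ⟨A', hA', hp', hφ', b', hb', hm⟩
    obtain ⟨c, hc⟩ := hU.exists_realizesOver q (hU.small_union hA hA')
    obtain ⟨σ, hσ, hσb⟩ := hU.conj hA (hc.mono Set.subset_union_left) hb
    obtain ⟨τ, hτ, hτb⟩ := hU.conj hA' (hc.mono Set.subset_union_right) hb'
    rw [← mem_plug_iff hp hφ hσ hσb]
    rwa [mem_plug_iff hp' hφ' hτ hτb]
  · intro h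
    exact ⟨A, hA, hp, hφ, b, hb, h⟩

theorem GlobalType.InvariantOver.mono {p : GlobalType L U α} {A B : Set U} (h : A ⊆ B)
    (hp : p.InvariantOver A) : p.InvariantOver B :=
  fun σ hσ => hp σ fun m hm => hσ m (h hm)

theorem exists_small_over (hU : IsMonster L U κ) (F : Finset (L.Formula (U ⊕ α))) :
    ∃ A : Set U, #A < κ ∧ ∀ φ ∈ F, Over A φ := by
  classical
  refine ⟨⋃ φ ∈ F, params φ, hU.small_finite ?_, ?_⟩
  · exact Set.Finite.biUnion F.finite_toSet fun φ _ => params_finite φ
  · intro φ hφ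
    exact (over_params φ).mono (Set.subset_biUnion_of_mem (u := fun φ => params φ) hφ)

/-- The tensor product `p ⊗ q` of an invariant global type `p(x)` and a global type `q(y)`:
a formula `φ(x, y)` with parameters in a small set `A` such that `p` is invariant over `A` belongs
to `p ⊗ q` if and only if `φ(x, b) ∈ p` for some (equivalently, every) tuple `b` in `U`
realising the restriction of `q` to `A`. -/
noncomputable def tensor (hU : IsMonster L U κ) [Finite β] (p : GlobalType L U α)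
    (hp : p.IsInvariant κ) (q : GlobalType L U β) : GlobalType L U (α ⊕ β) where
  carrier := {φ | ∃ A : Set U, #A < κ ∧ p.InvariantOver A ∧ Over A φ ∧
    ∃ b : β → U, q.RealizesOver A b ∧ plug b φ ∈ p}
  finitely_satisfiable := by
    classical
    intro F hF
    obtain ⟨A₀, hA₀, hp₀⟩ := hp
    obtain ⟨A₁, hA₁, hF₁⟩ := exists_small_over hU F
    have hA := hU.small_union hA₀ hA₁
    obtain ⟨b, hb⟩ := hU.exists_realizesOver q hA
    have hmem : ∀ φ ∈ F, plug b φ ∈ p := by
      intro φ hφ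
      exact (mem_tensorCarrier_iff hU hA (hp₀.mono Set.subset_union_left)
        ((hF₁ φ hφ).mono Set.subset_union_right) hb).1 (hF hφ)
    obtain ⟨a, ha⟩ := p.finitely_satisfiable (F.image (plug b)) (by
      intro φ hφ
      simp only [Finset.coe_image, Set.mem_image] at hφ
      obtain ⟨ψ, hψ, rfl⟩ := hφ
      exact hmem ψ hψ)
    refine ⟨Sum.elim a b, fun φ hφ => ?_⟩
    rw [← holds_plug]
    exact ha _ (Finset.mem_image_of_mem _ hφ)
  complete := by
    classical
    intro φ
    obtain ⟨A₀, hA₀, hp₀⟩ := hp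
    obtain ⟨A₁, hA₁, hF₁⟩ := exists_small_over hU {φ, φ.not}
    have hA := hU.small_union hA₀ hA₁
    obtain ⟨b, hb⟩ := hU.exists_realizesOver q hA
    have h1 := mem_tensorCarrier_iff hU hA (hp₀.mono Set.subset_union_left)
        ((hF₁ φ (by simp)).mono Set.subset_union_right) hb
    have h2 := mem_tensorCarrier_iff hU hA (hp₀.mono Set.subset_union_left)
        ((hF₁ φ.not (by simp)).mono Set.subset_union_right) hb
    have h3 : plug b φ.not ∈ p ↔ (plug b φ).not ∈ p := by
      apply GlobalType.mem_congr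
      intro a
      rw [holds_plug, holds_not, holds_not, holds_plug]
    rcases p.complete (plug b φ) with h | h
    · left; exact h1.2 h
    · right; exact h2.2 (h3.2 h)

end Monster

section Extend

variable {L : FirstOrder.Language.{u, v}} {U : Type w} [L.Structure U] {α β γ : Type}

/-- Every finitely satisfiable set of formulas with parameters extends to a global type. -/
theorem exists_globalType (S : Set (L.Formula (U ⊕ α)))
    (hS : ∀ F : Finset (L.Formula (U ⊕ α)), ↑F ⊆ S → ∃ a : α → U, ∀ φ ∈ F, Holds φ a) :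
    ∃ r : GlobalType L U α, ∀ φ ∈ S, φ ∈ r := by
  classical
  obtain ⟨F, hF⟩ := Ultrafilter.exists_ultrafilter_of_finite_inter_nonempty
    ((fun φ => {a : α → U | Holds φ a}) '' S) (by
      intro T hT
      obtain ⟨T', hT'S, rfl⟩ := Finset.subset_set_image_iff.1 hT
      obtain ⟨a, ha⟩ := hS T' hT'S
      refine ⟨a, ?_⟩
      simp only [Finset.coe_image, Set.sInter_image, Set.mem_iInter]
      intro φ hφ
      exact ha φ hφ)
  refine ⟨⟨{φ | {a | Holds φ a} ∈ F}, ?_, ?_⟩, ?_⟩
  · intro G hG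
    have : (⋂ φ ∈ G, {a : α → U | Holds φ a}) ∈ F := (Filter.biInter_finset_mem G).2 fun φ hφ =>
      hG hφ
    obtain ⟨a, ha⟩ := F.nonempty_of_mem this
    refine ⟨a, fun φ hφ => ?_⟩
    simp only [Set.mem_iInter] at ha
    exact ha φ hφ
  · intro φ
    rcases F.mem_or_compl_mem {a | Holds φ a} with h | h
    · exact Or.inl h
    · right
      change {a | Holds φ.not a} ∈ F
      have : {a | Holds φ.not a} = {a | Holds φ a}ᶜ := by
        ext a
        exact holds_not
      rw [this]
      exact h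
  · intro φ hφ
    exact hF ⟨φ, hφ, rfl⟩

theorem exists_finset_split {p : GlobalType L U α} {q : GlobalType L U β}
    (F : Finset (L.Formula (U ⊕ (α ⊕ β))))
    (hF : ∀ φ ∈ F, (∃ ψ ∈ p, ψ.relabel (Sum.map id Sum.inl) = φ) ∨
      (∃ ψ ∈ q, ψ.relabel (Sum.map id Sum.inr) = φ)) :
    ∃ θ ∈ p, ∃ ψ ∈ q, ∀ a b, Holds θ a → Holds ψ b → ∀ φ ∈ F, Holds φ (Sum.elim a b) := by
  classical
  induction F using Finset.induction_on with
  | empty =>
    refine ⟨⊤, ?_, ⊤, ?_, by simp⟩
    · rcases p.complete ⊤ with h | h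
      · exact h
      · exact GlobalType.mem_of_forall (fun a _ => by simp [Holds]) h
    · rcases q.complete ⊤ with h | h
      · exact h
      · exact GlobalType.mem_of_forall (fun a _ => by simp [Holds]) h
  | insert φ F hφF ih =>
    obtain ⟨θ, hθ, ψ, hψ, h⟩ := ih fun φ hφ => hF φ (Finset.mem_insert_of_mem hφ)
    rcases hF φ (Finset.mem_insert_self _ _) with ⟨χ, hχ, rfl⟩ | ⟨χ, hχ, rfl⟩
    · refine ⟨θ ⊓ χ, GlobalType.inf_mem hθ hχ, ψ, hψ, fun a b ha hb φ hφ => ?_⟩
      rcases Finset.mem_insert.1 hφ with rfl | hφ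
      · rw [holds_relabel_inl]
        exact (holds_inf.1 ha).2
      · exact h a b (holds_inf.1 ha).1 hb φ hφ
    · refine ⟨θ, hθ, ψ ⊓ χ, GlobalType.inf_mem hψ hχ, fun a b ha hb φ hφ => ?_⟩
      rcases Finset.mem_insert.1 hφ with rfl | hφ
      · rw [holds_relabel_inr]
        exact (holds_inf.1 hb).2
      · exact h a b ha (holds_inf.1 hb).1 φ hφ

theorem exists_holds {p : GlobalType L U α} {φ : L.Formula (U ⊕ α)} (hφ : φ ∈ p) :
    ∃ a, Holds φ a := by
  obtain ⟨a, ha⟩ := p.finitely_satisfiable {φ} (by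
    intro ψ hψ
    rw [Finset.coe_singleton, Set.mem_singleton_iff] at hψ
    subst hψ
    exact hφ)
  exact ⟨a, ha φ (by simp)⟩

/-- If `φ(x, y)` is consistent with `p(x) ∪ q(y)`, there is a completion containing it. -/
theorem exists_completion {p : GlobalType L U α} {q : GlobalType L U β}
    (φ : L.Formula (U ⊕ (α ⊕ β)))
    (h : ∀ θ ∈ p, ∀ ψ ∈ q, ∃ a b, Holds θ a ∧ Holds ψ b ∧ Holds φ (Sum.elim a b)) :
    ∃ r : GlobalType L U (α ⊕ β), φ ∈ r ∧
      (∀ φ ∈ p, φ.relabel (Sum.map id Sum.inl) ∈ r) ∧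
      (∀ φ ∈ q, φ.relabel (Sum.map id Sum.inr) ∈ r) := by
  classical
  obtain ⟨r, hr⟩ := exists_globalType ({φ} ∪ ((fun ψ : L.Formula (U ⊕ α) =>
      (ψ.relabel (Sum.map id Sum.inl) : L.Formula (U ⊕ (α ⊕ β)))) '' p.carrier ∪
      (fun ψ : L.Formula (U ⊕ β) =>
        (ψ.relabel (Sum.map id Sum.inr) : L.Formula (U ⊕ (α ⊕ β)))) '' q.carrier)) (by
    intro F hF
    obtain ⟨θ, hθ, ψ, hψ, h1⟩ := exists_finset_split (p := p) (q := q) (F.filter (· ≠ φ)) (by
      intro χ hχ
      rw [Finset.mem_filter] at hχ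
      rcases hF hχ.1 with h | ⟨χ', h, rfl⟩ | ⟨χ', h, rfl⟩
      · exact absurd h hχ.2
      · exact Or.inl ⟨χ', h, rfl⟩
      · exact Or.inr ⟨χ', h, rfl⟩)
    obtain ⟨a, b, ha, hb, hab⟩ := h θ hθ ψ hψ
    refine ⟨Sum.elim a b, fun χ hχ => ?_⟩
    by_cases hc : χ = φ
    · rw [hc]; exact hab
    · exact h1 a b ha hb χ (Finset.mem_filter.2 ⟨hχ, hc⟩))
  refine ⟨r, hr φ (Or.inl rfl), fun ψ hψ => hr _ (Or.inr (Or.inl ⟨ψ, hψ, rfl⟩)),
    fun ψ hψ => hr _ (Or.inr (Or.inr ⟨ψ, hψ, rfl⟩))⟩

/-- Weak orthogonality in terms of formulas: `p(x) ∪ q(y)` decides every formula `φ(x, y)`. -/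
theorem weaklyOrthogonal_iff {p : GlobalType L U α} {q : GlobalType L U β} :
    WeaklyOrthogonal p q ↔ ∀ φ : L.Formula (U ⊕ (α ⊕ β)),
      (∃ θ ∈ p, ∃ ψ ∈ q, ∀ a b, Holds θ a → Holds ψ b → Holds φ (Sum.elim a b)) ∨
      (∃ θ ∈ p, ∃ ψ ∈ q, ∀ a b, Holds θ a → Holds ψ b → ¬ Holds φ (Sum.elim a b)) := by
  constructor
  · intro h φ
    by_contra hcon
    push Not at hcon
    obtain ⟨h1, h2⟩ := hcon
    obtain ⟨r, hr, hrp, hrq⟩ := exists_completion (p := p) (q := q) φ.not (by
      intro θ hθ ψ hψ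
      obtain ⟨a, b, ha, hb, hab⟩ := h1 θ hθ ψ hψ
      exact ⟨a, b, ha, hb, holds_not.2 hab⟩)
    obtain ⟨r', hr', hrp', hrq'⟩ := exists_completion (p := p) (q := q) φ (by
      intro θ hθ ψ hψ
      obtain ⟨a, b, ha, hb, hab⟩ := h2 θ hθ ψ hψ
      exact ⟨a, b, ha, hb, hab⟩)
    have : r = r' := h.unique ⟨hrp, hrq⟩ ⟨hrp', hrq'⟩
    subst this
    exact GlobalType.not_both hr' hr
  · intro h
    obtain ⟨r, -, hrp, hrq⟩ := exists_completion (p := p) (q := q) ⊤ (by
      intro θ hθ ψ hψ
      obtain ⟨a, ha⟩ := exists_holds hθ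
      obtain ⟨b, hb⟩ := exists_holds hψ
      exact ⟨a, b, ha, hb, by simp [Holds]⟩)
    have key : ∀ r : GlobalType L U (α ⊕ β), (∀ φ ∈ p, φ.relabel (Sum.map id Sum.inl) ∈ r) →
        (∀ φ ∈ q, φ.relabel (Sum.map id Sum.inr) ∈ r) → ∀ φ, (φ ∈ r ↔
          ∃ θ ∈ p, ∃ ψ ∈ q, ∀ a b, Holds θ a → Holds ψ b → Holds φ (Sum.elim a b)) := by
      intro r hrp hrq φ
      have hsplit : ∀ x : α ⊕ β → U, Sum.elim (x ∘ Sum.inl) (x ∘ Sum.inr) = x := by
        intro x; funext i; rcases i with i | i <;> rfl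
      constructor
      · intro hφ
        refine (h φ).resolve_right ?_
        rintro ⟨θ, hθ, ψ, hψ, h'⟩
        have h3 := GlobalType.inf_mem (GlobalType.inf_mem (hrp θ hθ) (hrq ψ hψ)) hφ
        obtain ⟨x, hx⟩ := exists_holds h3
        rw [holds_inf, holds_inf, holds_relabel_inl, holds_relabel_inr] at hx
        have := h' _ _ hx.1.1 hx.1.2
        rw [hsplit] at this
        exact this hx.2
      · rintro ⟨θ, hθ, ψ, hψ, h'⟩
        refine GlobalType.mem_of_forall (fun x hx => ?_)
          (GlobalType.inf_mem (hrp θ hθ) (hrq ψ hψ))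
        rw [holds_inf, holds_relabel_inl, holds_relabel_inr] at hx
        have := h' _ _ hx.1 hx.2
        rwa [hsplit] at this
    refine ⟨r, ⟨hrp, hrq⟩, fun r' hr' => ?_⟩
    refine GlobalType.ext' fun φ => ?_
    rw [key r hrp hrq, key r' hr'.1 hr'.2]

end Extend

end Pool.Agent.WeakOrth
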