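import Pool.Agent.WeakOrth.Ord

open Cardinal

namespace Pool.Agent.WeakOrth

section

variable {c : Ordinal.{0} → Code}

/-- A set of pairs is a partial isomorphism of the generic structure. -/
structure PIso (s : Set (GU c × GU c)) : Prop where
  inj : ∀ x ∈ s, ∀ y ∈ s, (x.1 = y.1 ↔ x.2 = y.2)
  sort : ∀ x ∈ s, (gstr c).s x.1 = (gstr c).s x.2
  edge : ∀ x ∈ s, ∀ y ∈ s, ((gstr c).R x.1 y.1 ↔ (gstr c).R x.2 y.2)
  hyp : ∀ x ∈ s, ∀ y ∈ s, ∀ z ∈ s, ((gstr c).H x.1 y.1 z.1 ↔ (gstr c).H x.2 y.2 z.2)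

/-- A set of pairs is bounded. -/
def Bdd (s : Set (GU c × GU c)) : Prop := ∃ β : Ordinal.{0}, ∀ x ∈ s, x.1.1 < β ∧ x.2.1 < β

theorem PIso.swap {s : Set (GU c × GU c)} (h : PIso s) : PIso (Prod.swap '' s) where
  inj := by
    rintro _ ⟨x, hx, rfl⟩ _ ⟨y, hy, rfl⟩
    exact (h.inj x hx y hy).symm
  sort := by
    rintro _ ⟨x, hx, rfl⟩
    exact (h.sort x hx).symm
  edge := by
    rintro _ ⟨x, hx, rfl⟩ _ ⟨y, hy, rfl⟩
    exact (h.edge x hx y hy).symm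
  hyp := by
    rintro _ ⟨x, hx, rfl⟩ _ ⟨y, hy, rfl⟩ _ ⟨z, hz, rfl⟩
    exact (h.hyp x hx y hy z hz).symm

theorem Bdd.swap {s : Set (GU c × GU c)} (h : Bdd s) : Bdd (Prod.swap '' s) := by
  obtain ⟨β, hβ⟩ := h
  refine ⟨β, ?_⟩
  rintro _ ⟨x, hx, rfl⟩
  exact (hβ x hx).symm

theorem Bdd.insert {s : Set (GU c × GU c)} (h : Bdd s) (x : GU c × GU c) : Bdd (insert x s) := by
  obtain ⟨β, hβ⟩ := h
  refine ⟨max β (max (Order.succ x.1.1) (Order.succ x.2.1)), ?_⟩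
  rintro y (rfl | hy)
  · exact ⟨(Order.lt_succ _).trans_le ((le_max_left _ _).trans (le_max_right _ _)),
      (Order.lt_succ _).trans_le ((le_max_right _ _).trans (le_max_right _ _))⟩
  · exact ⟨(hβ y hy).1.trans_le (le_max_left _ _), (hβ y hy).2.trans_le (le_max_left _ _)⟩

theorem PIso.ext (hc : ∀ (x : Code) (δ : Ordinal.{0}), ∃ α, δ ≤ α ∧ c α = x)
    {s : Set (GU c × GU c)} (h : PIso s) (hb : Bdd s) (u : GU c) :
    ∃ v, PIso (insert (u, v) s) := by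
  by_cases hu : ∃ x ∈ s, x.1 = u
  · obtain ⟨x, hx, rfl⟩ := hu
    refine ⟨x.2, ?_⟩
    rw [show ((x.1, x.2) : GU c × GU c) = x from rfl, Set.insert_eq_of_mem hx]
    exact h
  · push Not at hu
    obtain ⟨β, hβ⟩ := hb
    let B : Set (GU c) := Prod.snd '' s
    have hpre : ∀ b : B, ∃ x ∈ s, x.2 = b.1 := fun b => b.2
    choose g hg hg' using hpre
    let f : Option B → GU c := fun o => o.elim u (fun b => (g b).1)
    obtain ⟨v, hv, hag⟩ := ep c hc B ⟨β, by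
      rintro _ ⟨x, hx, rfl⟩
      exact (hβ x hx).2⟩ ((gstr c).comap f) ((gstr_ax c).comap f) (by
        refine ⟨fun b => ?_, fun b b' => ?_, fun b b' b'' => ?_⟩
        · change (gstr c).s (g b).1 = (gstr c).s b.1
          rw [h.sort _ (hg b), hg']
        · change (gstr c).R (g b).1 (g b').1 ↔ (gstr c).R b.1 b'.1
          rw [h.edge _ (hg b) _ (hg b'), hg', hg']
        · change (gstr c).H (g b).1 (g b').1 (g b'').1 ↔ (gstr c).H b.1 b'.1 b''.1
          rw [h.hyp _ (hg b) _ (hg b') _ (hg b''), hg', hg', hg'])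
    refine ⟨v, ?_⟩
    -- every pair in the new set is of the form `(f o, ev B v o)`
    have key : ∀ x ∈ insert (u, v) s, ∃ o, x.1 = f o ∧ x.2 = ev B v o := by
      rintro x (rfl | hx)
      · exact ⟨none, rfl, rfl⟩
      · refine ⟨some ⟨x.2, x, hx, rfl⟩, ?_, rfl⟩
        change x.1 = (g _).1
        exact (h.inj _ hx _ (hg _)).2 (hg' ⟨x.2, x, hx, rfl⟩).symm
    refine ⟨?_, ?_, ?_, ?_⟩
    · rintro x (rfl | hx) y (rfl | hy)
      · exact ⟨fun _ => rfl, fun _ => rfl⟩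
      · constructor
        · intro he; exact absurd he.symm (hu y hy)
        · intro he; exact absurd ⟨y, hy, he.symm⟩ hv
      · constructor
        · intro he; exact absurd he (hu x hx)
        · intro he; exact absurd ⟨x, hx, he⟩ hv
      · exact h.inj x hx y hy
    · intro x hx
      obtain ⟨o, h1, h2⟩ := key x hx
      rw [h1, h2]
      exact hag.1 o
    · intro x hx y hy
      obtain ⟨o, h1, h2⟩ := key x hx
      obtain ⟨o', h1', h2'⟩ := key y hy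
      rw [h1, h2, h1', h2']
      exact hag.2.1 o o'
    · intro x hx y hy z hz
      obtain ⟨o, h1, h2⟩ := key x hx
      obtain ⟨o', h1', h2'⟩ := key y hy
      obtain ⟨o'', h1'', h2''⟩ := key z hz
      rw [h1, h2, h1', h2', h1'', h2'']
      exact hag.2.2 o o' o''

theorem PIso.ext' (hc : ∀ (x : Code) (δ : Ordinal.{0}), ∃ α, δ ≤ α ∧ c α = x)
    {s : Set (GU c × GU c)} (h : PIso s) (hb : Bdd s) (u : GU c) :
    ∃ v, PIso (insert (v, u) s) := by
  obtain ⟨v, hv⟩ := h.swap.ext hc hb.swap u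
  refine ⟨v, ?_⟩
  have := hv.swap
  rwa [Set.image_insert_eq, ← Set.image_comp, Prod.swap_swap_eq, Set.image_id] at this

theorem PIso.step (hc : ∀ (x : Code) (δ : Ordinal.{0}), ∃ α, δ ≤ α ∧ c α = x)
    {s : Set (GU c × GU c)} (h : PIso s) (hb : Bdd s) (u : GU c) :
    ∃ s', s ⊆ s' ∧ PIso s' ∧ Bdd s' ∧ (∃ v, (u, v) ∈ s') ∧ (∃ v, (v, u) ∈ s') := by
  obtain ⟨v, hv⟩ := h.ext hc hb u
  obtain ⟨w, hw⟩ := hv.ext' hc (hb.insert _) u
  exact ⟨_, (Set.subset_insert _ _).trans (Set.subset_insert _ _), hw, (hb.insert _).insert _,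
    ⟨v, Or.inr (Or.inl rfl)⟩, ⟨w, Or.inl rfl⟩⟩

/-- Union of a chain of partial isomorphisms. -/
theorem PIso.union {ι : Type*} [Nonempty ι] (F : ι → Set (GU c × GU c))
    (hdir : ∀ i j, F i ⊆ F j ∨ F j ⊆ F i) (hF : ∀ i, PIso (F i)) : PIso (⋃ i, F i) := by
  have h2 : ∀ i j, ∃ k, F i ⊆ F k ∧ F j ⊆ F k := by
    intro i j
    rcases hdir i j with h | h
    · exact ⟨j, h, subset_rfl⟩
    · exact ⟨i, subset_rfl, h⟩
  refine ⟨?_, ?_, ?_, ?_⟩
  · intro x hx y hy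
    obtain ⟨i, hi⟩ := Set.mem_iUnion.1 hx
    obtain ⟨j, hj⟩ := Set.mem_iUnion.1 hy
    obtain ⟨k, hik, hjk⟩ := h2 i j
    exact (hF k).inj x (hik hi) y (hjk hj)
  · intro x hx
    obtain ⟨i, hi⟩ := Set.mem_iUnion.1 hx
    exact (hF i).sort x hi
  · intro x hx y hy
    obtain ⟨i, hi⟩ := Set.mem_iUnion.1 hx
    obtain ⟨j, hj⟩ := Set.mem_iUnion.1 hy
    obtain ⟨k, hik, hjk⟩ := h2 i j
    exact (hF k).edge x (hik hi) y (hjk hj)
  · intro x hx y hy z hz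
    obtain ⟨i, hi⟩ := Set.mem_iUnion.1 hx
    obtain ⟨j, hj⟩ := Set.mem_iUnion.1 hy
    obtain ⟨l, hl⟩ := Set.mem_iUnion.1 hz
    obtain ⟨k, hik, hjk⟩ := h2 i j
    obtain ⟨m, hkm, hlm⟩ := h2 k l
    exact (hF m).hyp x (hkm (hik hi)) y (hkm (hjk hj)) z (hlm hl)

open Classical in
/-- One step of the back and forth construction. -/
noncomputable def stepF (hc : ∀ (x : Code) (δ : Ordinal.{0}), ∃ α, δ ≤ α ∧ c α = x)
    (s : Set (GU c × GU c)) (i : Ordinal.{0}) : Set (GU c × GU c) :=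
  if h : PIso s ∧ Bdd s ∧ Valid c i then
    (PIso.step hc h.1 h.2.1 ⟨i, h.2.2⟩).choose
  else s

theorem stepF_spec (hc : ∀ (x : Code) (δ : Ordinal.{0}), ∃ α, δ ≤ α ∧ c α = x)
    {s : Set (GU c × GU c)} (h : PIso s) (hb : Bdd s) (i : Ordinal.{0}) :
    s ⊆ stepF hc s i ∧ PIso (stepF hc s i) ∧ Bdd (stepF hc s i) ∧
      ∀ hi : Valid c i, (∃ v, ((⟨i, hi⟩ : GU c), v) ∈ stepF hc s i) ∧
        (∃ v, (v, (⟨i, hi⟩ : GU c)) ∈ stepF hc s i) := by
  unfold stepF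
  split_ifs with hif
  · have := (PIso.step hc hif.1 hif.2.1 ⟨i, hif.2.2⟩).choose_spec
    exact ⟨this.1, this.2.1, this.2.2.1, fun _ => ⟨this.2.2.2.1, this.2.2.2.2⟩⟩
  · exact ⟨subset_rfl, h, hb, fun hi => absurd ⟨h, hb, hi⟩ hif⟩

/-- The stages of the back and forth construction. -/
noncomputable def stage (hc : ∀ (x : Code) (δ : Ordinal.{0}), ∃ α, δ ≤ α ∧ c α = x)
    (s₀ : Set (GU c × GU c)) : Ordinal.{0} → Set (GU c × GU c) :=
  WellFounded.fix (C := fun _ => Set (GU c × GU c))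
    (r := ((· < ·) : Ordinal.{0} → Ordinal.{0} → Prop)) wellFounded_lt
    fun i ih => stepF hc (s₀ ∪ ⋃ j : Set.Iio i, ih j.1 j.2) i

theorem stage_eq (hc : ∀ (x : Code) (δ : Ordinal.{0}), ∃ α, δ ≤ α ∧ c α = x)
    (s₀ : Set (GU c × GU c)) (i : Ordinal.{0}) :
    stage hc s₀ i = stepF hc (s₀ ∪ ⋃ j : Set.Iio i, stage hc s₀ j.1) i := by
  unfold stage
  rw [WellFounded.fix_eq]

theorem stage_spec (hc : ∀ (x : Code) (δ : Ordinal.{0}), ∃ α, δ ≤ α ∧ c α = x)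
    {s₀ : Set (GU c × GU c)} (h₀ : PIso s₀) (hb₀ : Bdd s₀) (i : Ordinal.{0}) :
    PIso (stage hc s₀ i) ∧ Bdd (stage hc s₀ i) ∧ s₀ ⊆ stage hc s₀ i ∧
      (∀ j < i, stage hc s₀ j ⊆ stage hc s₀ i) ∧
      ∀ hi : Valid c i, (∃ v, ((⟨i, hi⟩ : GU c), v) ∈ stage hc s₀ i) ∧
        (∃ v, (v, (⟨i, hi⟩ : GU c)) ∈ stage hc s₀ i) := by
  induction i using WellFoundedLT.induction with
  | ind i ih =>
    obtain ⟨t, ht⟩ : ∃ t, t = s₀ ∪ ⋃ j : Set.Iio i, stage hc s₀ j.1 := ⟨_, rfl⟩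
    have hPt : PIso t := by
      let G : Option (Set.Iio i) → Set (GU c × GU c) := fun o =>
        o.elim s₀ (fun j => stage hc s₀ j.1)
      have hG : t = ⋃ o, G o := by
        rw [ht]
        ext x
        simp only [Set.mem_union, Set.mem_iUnion]
        constructor
        · rintro (h | ⟨j, h⟩)
          · exact ⟨none, h⟩
          · exact ⟨some j, h⟩
        · rintro ⟨_ | j, h⟩
          · exact Or.inl h
          · exact Or.inr ⟨j, h⟩
      rw [hG]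
      refine PIso.union G ?_ ?_
      · rintro (_ | j) (_ | k)
        · exact Or.inl subset_rfl
        · exact Or.inl (ih k.1 k.2).2.2.1
        · exact Or.inr (ih j.1 j.2).2.2.1
        · rcases lt_trichotomy j.1 k.1 with h | h | h
          · exact Or.inl ((ih k.1 k.2).2.2.2.1 _ h)
          · left
            change stage hc s₀ j.1 ⊆ stage hc s₀ k.1
            rw [h]
          · exact Or.inr ((ih j.1 j.2).2.2.2.1 _ h)
      · rintro (_ | j)
        · exact h₀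
        · exact (ih j.1 j.2).1
    have hBt : Bdd t := by
      have hch : ∀ j : Set.Iio i, Bdd (stage hc s₀ j.1) := fun j => (ih j.1 j.2).2.1
      choose β hβ using hch
      obtain ⟨β₀, hβ₀⟩ := hb₀
      have hbdd : BddAbove (Set.range β) := Ordinal.bddAbove_of_small
      refine ⟨max β₀ (⨆ j, β j), ?_⟩
      rw [ht]
      rintro x (hx | hx)
      · exact ⟨(hβ₀ x hx).1.trans_le (le_max_left _ _), (hβ₀ x hx).2.trans_le (le_max_left _ _)⟩
      · obtain ⟨j, hj⟩ := Set.mem_iUnion.1 hx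
        have h1 : β j ≤ ⨆ j, β j := le_ciSup hbdd j
        exact ⟨(hβ j x hj).1.trans_le (h1.trans (le_max_right _ _)),
          (hβ j x hj).2.trans_le (h1.trans (le_max_right _ _))⟩
    have hspec := stepF_spec hc hPt hBt i
    have heq : stage hc s₀ i = stepF hc t i := by
      rw [stage_eq, ht]
    rw [heq]
    refine ⟨hspec.2.1, hspec.2.2.1, ?_, ?_, hspec.2.2.2⟩
    · refine Set.Subset.trans ?_ hspec.1
      rw [ht]
      exact Set.subset_union_left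
    · intro j hj
      refine Set.Subset.trans ?_ hspec.1
      rw [ht]
      refine Set.Subset.trans ?_ Set.subset_union_right
      exact Set.subset_iUnion (fun j : Set.Iio i => stage hc s₀ j.1) ⟨j, hj⟩

/-- Bounded partial isomorphisms extend to automorphisms. -/
theorem exists_auto (hc : ∀ (x : Code) (δ : Ordinal.{0}), ∃ α, δ ≤ α ∧ c α = x)
    {s₀ : Set (GU c × GU c)} (h₀ : PIso s₀) (hb₀ : Bdd s₀) :
    ∃ σ : GU c ≃ GU c, (∀ x ∈ s₀, σ x.1 = x.2) ∧ (∀ x, (gstr c).s (σ x) = (gstr c).s x) ∧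
      (∀ x y, (gstr c).R (σ x) (σ y) ↔ (gstr c).R x y) ∧
      (∀ x y z, (gstr c).H (σ x) (σ y) (σ z) ↔ (gstr c).H x y z) := by
  have hP : PIso (⋃ i, stage hc s₀ i) := by
    refine PIso.union _ ?_ (fun i => (stage_spec hc h₀ hb₀ i).1)
    intro i j
    rcases lt_trichotomy i j with h | h | h
    · exact Or.inl ((stage_spec hc h₀ hb₀ j).2.2.2.1 i h)
    · left; rw [h]
    · exact Or.inr ((stage_spec hc h₀ hb₀ i).2.2.2.1 j h)
  have hdom : ∀ u : GU c, ∃ v, (u, v) ∈ ⋃ i, stage hc s₀ i := by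
    intro u
    obtain ⟨v, hv⟩ := ((stage_spec hc h₀ hb₀ u.1).2.2.2.2 u.2).1
    exact ⟨v, Set.mem_iUnion.2 ⟨u.1, hv⟩⟩
  have hran : ∀ u : GU c, ∃ v, (v, u) ∈ ⋃ i, stage hc s₀ i := by
    intro u
    obtain ⟨v, hv⟩ := ((stage_spec hc h₀ hb₀ u.1).2.2.2.2 u.2).2
    exact ⟨v, Set.mem_iUnion.2 ⟨u.1, hv⟩⟩
  choose f hf using hdom
  choose g hg using hran
  refine ⟨⟨f, g, ?_, ?_⟩, ?_, ?_, ?_, ?_⟩
  · intro u
    exact (hP.inj _ (hg (f u)) _ (hf u)).2 rfl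
  · intro u
    exact (hP.inj _ (hf (g u)) _ (hg u)).1 rfl
  · intro x hx
    have hx' : x ∈ ⋃ i, stage hc s₀ i :=
      Set.mem_iUnion.2 ⟨0, (stage_spec hc h₀ hb₀ 0).2.2.1 hx⟩
    exact (hP.inj _ (hf x.1) _ hx').1 rfl
  · intro x
    exact (hP.sort _ (hf x)).symm
  · intro x y
    exact (hP.edge _ (hf x) _ (hf y)).symm
  · intro x y z
    exact (hP.hyp _ (hf x) _ (hf y) _ (hf z)).symm

end

end Pool.Agent.WeakOrth
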