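import Pool.Agent.WeakOrth.Sat
import Pool.Agent.WeakOrth.Hom

open FirstOrder FirstOrder.Language Cardinal

namespace Pool.Agent.WeakOrth

/-- The relation symbols of the language: four sorts, edges, hyperedges. -/
inductive GRel : ℕ → Type
  | sort (i : Fin 4) : GRel 1
  | edge : GRel 2
  | hyp : GRel 3

/-- The language. -/
def LG : FirstOrder.Language.{0, 0} := ⟨fun _ => Empty, GRel⟩

section

variable {c : Ordinal.{0} → Code}

/-- Interpretation of the relation symbols. -/
def grel : ∀ {n : ℕ}, GRel n → (Fin n → GU c) → Prop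
  | _, .sort i => fun x => (gstr c).s (x 0) = i
  | _, .edge => fun x => (gstr c).R (x 0) (x 1)
  | _, .hyp => fun x => (gstr c).H (x 0) (x 1) (x 2)

instance : LG.Structure (GU c) where
  funMap := fun f => f.elim
  RelMap := fun r => grel r

/-- sort symbols -/
def rsort (i : Fin 4) : LG.Relations 1 := GRel.sort i

/-- edge symbol -/
def redge : LG.Relations 2 := GRel.edge

/-- hyperedge symbol -/
def rhyp : LG.Relations 3 := GRel.hyp

/-- the formula `s(x) = i` -/
def fsort {V : Type*} (i : Fin 4) (x : V) : LG.Formula V :=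
  (rsort i).formula ![Term.var x]

/-- the formula `R(x, y)` -/
def fedge {V : Type*} (x y : V) : LG.Formula V :=
  redge.formula ![Term.var x, Term.var y]

/-- the formula `H(x, y, z)` -/
def fhyp {V : Type*} (x y z : V) : LG.Formula V :=
  rhyp.formula ![Term.var x, Term.var y, Term.var z]

/-- the formula `x = y` -/
def feq {V : Type*} (x y : V) : LG.Formula V := Term.equal (Term.var x) (Term.var y)

theorem realize_fsort {V : Type*} (i : Fin 4) (x : V) (v : V → GU c) :
    (fsort i x).Realize v ↔ (gstr c).s (v x) = i := by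
  exact Formula.realize_rel

theorem realize_fedge {V : Type*} (x y : V) (v : V → GU c) :
    (fedge x y).Realize v ↔ (gstr c).R (v x) (v y) := by
  exact Formula.realize_rel

theorem realize_fhyp {V : Type*} (x y z : V) (v : V → GU c) :
    (fhyp x y z).Realize v ↔ (gstr c).H (v x) (v y) (v z) := by
  exact Formula.realize_rel

theorem realize_feq {V : Type*} (x y : V) (v : V → GU c) :
    (feq x y).Realize v ↔ v x = v y := by
  exact Formula.realize_equal

/-- A bijection preserving the structure is an automorphism. -/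
def mkEquiv (σ : GU c ≃ GU c) (h1 : ∀ x, (gstr c).s (σ x) = (gstr c).s x)
    (h2 : ∀ x y, (gstr c).R (σ x) (σ y) ↔ (gstr c).R x y)
    (h3 : ∀ x y z, (gstr c).H (σ x) (σ y) (σ z) ↔ (gstr c).H x y z) : GU c ≃[LG] GU c where
  toEquiv := σ
  map_fun' := fun f => f.elim
  map_rel' := by
    intro n r x
    cases r with
    | sort i =>
      change (gstr c).s (σ (x 0)) = i ↔ (gstr c).s (x 0) = i
      rw [h1]
    | edge => exact h2 _ _
    | hyp => exact h3 _ _ _

theorem auto_sort (σ : GU c ≃[LG] GU c) (x : GU c) : (gstr c).s (σ x) = (gstr c).s x := by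
  have := StrongHomClass.realize_formula σ (fsort ((gstr c).s x) ()) (v := fun _ : Unit => x)
  rw [realize_fsort, realize_fsort] at this
  exact this.2 rfl

theorem auto_edge (σ : GU c ≃[LG] GU c) (x y : GU c) :
    (gstr c).R (σ x) (σ y) ↔ (gstr c).R x y := by
  have := StrongHomClass.realize_formula σ (fedge (0 : Fin 2) 1) (v := ![x, y])
  rw [realize_fedge, realize_fedge] at this
  exact this

theorem auto_hyp (σ : GU c ≃[LG] GU c) (x y z : GU c) :
    (gstr c).H (σ x) (σ y) (σ z) ↔ (gstr c).H x y z := by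
  have := StrongHomClass.realize_formula σ (fhyp (0 : Fin 3) 1 2) (v := ![x, y, z])
  rw [realize_fhyp, realize_fhyp] at this
  exact this

theorem exists_auto' (hc : ∀ (x : Code) (δ : Ordinal.{0}), ∃ α, δ ≤ α ∧ c α = x)
    {s₀ : Set (GU c × GU c)} (h₀ : PIso s₀) (hb₀ : Bdd s₀) :
    ∃ σ : GU c ≃[LG] GU c, ∀ x ∈ s₀, σ x.1 = x.2 := by
  obtain ⟨σ, h, h1, h2, h3⟩ := exists_auto hc h₀ hb₀
  exact ⟨mkEquiv σ h1 h2 h3, h⟩

theorem bdd_range {I : Type 1} [Small.{0} I] (a b : I → GU c) :
    Bdd (Set.range fun i => (a i, b i)) := by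
  have h1 : BddAbove (Set.range fun i => (a i).1) := Ordinal.bddAbove_of_small
  have h2 : BddAbove (Set.range fun i => (b i).1) := Ordinal.bddAbove_of_small
  obtain ⟨β, hβ⟩ := h1
  obtain ⟨β', hβ'⟩ := h2
  refine ⟨Order.succ (max β β'), ?_⟩
  rintro _ ⟨i, rfl⟩
  exact ⟨Order.lt_succ_of_le ((hβ ⟨i, rfl⟩).trans (le_max_left _ _)),
    Order.lt_succ_of_le ((hβ' ⟨i, rfl⟩).trans (le_max_right _ _))⟩

theorem bdd_set {A : Set (GU c)} (hA : #A < Cardinal.univ.{0, 1}) :
    ∃ β : Ordinal.{0}, ∀ b ∈ A, b.1 < β := by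
  have := small_of_lt_univ hA
  have h1 : BddAbove (Set.range fun i : A => i.1.1) := Ordinal.bddAbove_of_small
  obtain ⟨β, hβ⟩ := h1
  exact ⟨Order.succ β, fun b hb => Order.lt_succ_of_le (hβ ⟨⟨b, hb⟩, rfl⟩)⟩

/-- A family of pairs respecting the structure is a partial isomorphism. -/
theorem piso_range {I : Type*} (f g : I → GU c) (h0 : ∀ i j, f i = f j ↔ g i = g j)
    (h : Agree ((gstr c).comap f) ((gstr c).comap g)) :
    PIso (Set.range fun i => (f i, g i)) where
  inj := by
    rintro _ ⟨i, rfl⟩ _ ⟨j, rfl⟩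
    exact h0 i j
  sort := by
    rintro _ ⟨i, rfl⟩
    exact h.1 i
  edge := by
    rintro _ ⟨i, rfl⟩ _ ⟨j, rfl⟩
    exact h.2.1 i j
  hyp := by
    rintro _ ⟨i, rfl⟩ _ ⟨j, rfl⟩ _ ⟨k, rfl⟩
    exact h.2.2 i j k

theorem homogeneous_GU (hc : ∀ (x : Code) (δ : Ordinal.{0}), ∃ α, δ ≤ α ∧ c α = x)
    (I : Type 1) (hI : #I < Cardinal.univ.{0, 1}) (a b : I → GU c)
    (h : ∀ φ : LG.Formula I, φ.Realize a ↔ φ.Realize b) :
    ∃ σ : GU c ≃[LG] GU c, ∀ i, σ (a i) = b i := by
  have := small_of_lt_univ hI
  obtain ⟨σ, hσ⟩ := exists_auto' hc (s₀ := Set.range fun i => (a i, b i)) (piso_range a b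
    (fun i j => by
      have := h (feq i j)
      rwa [realize_feq, realize_feq] at this)
    ⟨fun i => by
      have := h (fsort ((gstr c).s (a i)) i)
      rw [realize_fsort, realize_fsort] at this
      exact (this.1 rfl).symm,
     fun i j => by
      have := h (fedge i j)
      rwa [realize_fedge, realize_fedge] at this,
     fun i j k => by
      have := h (fhyp i j k)
      rwa [realize_fhyp, realize_fhyp] at this⟩) (bdd_range a b)
  exact ⟨σ, fun i => hσ (a i, b i) ⟨i, rfl⟩⟩

theorem ev_ne {P : Set (GU c)} {x : GU c} (hx : x ∉ P) (b : P) :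
    ev P x none ≠ ev P x (some b) := by
  intro h
  apply hx
  have h' : x = b.1 := h
  rw [h']
  exact b.2

/-- Case analysis for partial isomorphisms fixing a finite set and moving one point. -/
theorem exists_auto_point (hc : ∀ (x : Code) (δ : Ordinal.{0}), ∃ α, δ ≤ α ∧ c α = x)
    {P : Set (GU c)} (hP : ∃ β : Ordinal.{0}, ∀ b ∈ P, b.1 < β) {x v : GU c} (hx : x ∉ P)
    (hv : v ∉ P) (h : Agree ((gstr c).comap (ev P x)) ((gstr c).comap (ev P v))) :
    ∃ σ : GU c ≃[LG] GU c, (∀ m ∈ P, σ m = m) ∧ σ x = v := by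
  obtain ⟨σ, hσ⟩ := exists_auto' hc (s₀ := Set.range fun o => (ev P x o, ev P v o))
    (piso_range _ _ (by
      rintro (_ | a) (_ | b)
      · exact ⟨fun _ => rfl, fun _ => rfl⟩
      · exact ⟨fun h => absurd h (ev_ne hx b), fun h => absurd h (ev_ne hv b)⟩
      · exact ⟨fun h => absurd h.symm (ev_ne hx a), fun h => absurd h.symm (ev_ne hv a)⟩
      · exact Iff.rfl) h) (by
    obtain ⟨β, hβ⟩ := hP
    refine ⟨max β (max (Order.succ x.1) (Order.succ v.1)), ?_⟩
    rintro _ ⟨_ | a, rfl⟩
    · exact ⟨(Order.lt_succ _).trans_le ((le_max_left _ _).trans (le_max_right _ _)),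
        (Order.lt_succ _).trans_le ((le_max_right _ _).trans (le_max_right _ _))⟩
    · exact ⟨(hβ a.1 a.2).trans_le (le_max_left _ _), (hβ a.1 a.2).trans_le (le_max_left _ _)⟩)
  exact ⟨σ, fun m hm => hσ (m, m) ⟨some ⟨m, hm⟩, rfl⟩, hσ (x, v) ⟨none, rfl⟩⟩

/-- The variable or parameter attached to an element of `Option A`. -/
def vr (A : Set (GU c)) : Option A → GU c ⊕ Unit
  | none => Sum.inr ()
  | some a => Sum.inl a.1

theorem holds_fsort (i : Fin 4) (x : GU c ⊕ Unit) (b : Unit → GU c) :
    Holds (fsort i x) b ↔ (gstr c).s (Sum.elim id b x) = i := realize_fsort _ _ _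

theorem elim_vr (A : Set (GU c)) (o : Option A) (b : Unit → GU c) :
    Sum.elim id b (vr A o) = ev A (b ()) o := by
  rcases o with _ | a <;> rfl

theorem saturated_one_GU (hc : ∀ (x : Code) (δ : Ordinal.{0}), ∃ α, δ ≤ α ∧ c α = x)
    (r : GlobalType LG (GU c) Unit) (A : Set (GU c)) (hA : #A < Cardinal.univ.{0, 1}) :
    ∃ a, r.RealizesOver A a := by
  classical
  by_cases hreal : ∃ a ∈ A, (feq (Sum.inr ()) (Sum.inl a) : LG.Formula (GU c ⊕ Unit)) ∈ r
  · obtain ⟨a, haA, ha⟩ := hreal
    refine ⟨fun _ => a, fun φ hφ _ => ?_⟩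
    obtain ⟨x, hx⟩ := exists_holds (GlobalType.inf_mem hφ ha)
    rw [holds_inf] at hx
    have h2 := (realize_feq _ _ _).1 hx.2
    simp only [Sum.elim_inr, Sum.elim_inl, id] at h2
    have : x = fun _ => a := by
      funext i; exact h2
    rw [← this]
    exact hx.1
  · push Not at hreal
    -- the sort of the variable
    obtain ⟨i₀, hi₀⟩ : ∃ i₀, (fsort i₀ (Sum.inr ()) : LG.Formula (GU c ⊕ Unit)) ∈ r := by
      obtain ⟨x, -, hx⟩ := exists_holds_family (top_mem r)
        (fun i : Fin 4 => (fsort i (Sum.inr ()) : LG.Formula (GU c ⊕ Unit)))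
      exact ⟨_, (hx ((gstr c).s (x ()))).1 ((holds_fsort _ _ _).2 rfl)⟩
    let S : GStr (Option A) :=
      { s := fun o => o.elim i₀ (fun a => (gstr c).s a.1)
        R := fun o o' => (fedge (vr A o) (vr A o') : LG.Formula (GU c ⊕ Unit)) ∈ r
        H := fun o o' o'' =>
          (fhyp (vr A o) (vr A o') (vr A o'') : LG.Formula (GU c ⊕ Unit)) ∈ r }
    have hSs : ∀ o, (fsort (S.s o) (vr A o) : LG.Formula (GU c ⊕ Unit)) ∈ r := by
      rintro (_ | a)
      · exact hi₀
      · refine GlobalType.mem_of_forall (fun b _ => ?_) (top_mem r)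
        rw [holds_fsort]
        rfl
    have hR : ∀ o o' (b : Unit → GU c),
        Holds (fedge (vr A o) (vr A o') : LG.Formula (GU c ⊕ Unit)) b ↔
          (gstr c).R (ev A (b ()) o) (ev A (b ()) o') := by
      intro o o' b
      unfold Holds
      rw [realize_fedge, elim_vr, elim_vr]
    have hH : ∀ o o' o'' (b : Unit → GU c),
        Holds (fhyp (vr A o) (vr A o') (vr A o'') : LG.Formula (GU c ⊕ Unit)) b ↔
          (gstr c).H (ev A (b ()) o) (ev A (b ()) o') (ev A (b ()) o'') := by
      intro o o' o'' b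
      unfold Holds
      rw [realize_fhyp, elim_vr, elim_vr, elim_vr]
    have hs : ∀ o i (b : Unit → GU c),
        Holds (fsort i (vr A o) : LG.Formula (GU c ⊕ Unit)) b ↔
          (gstr c).s (ev A (b ()) o) = i := by
      intro o i b
      rw [holds_fsort, elim_vr]
    have hSax : S.Ax := by
      refine ⟨?_, ?_, ?_, ?_⟩
      · intro x y h
        refine GlobalType.mem_of_forall (fun b hb => ?_) h
        rw [hR] at *
        exact (gstr_ax c).symm _ _ hb
      · intro x y h
        obtain ⟨b, hb⟩ := exists_holds (GlobalType.inf_mem h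
          (GlobalType.inf_mem (hSs x) (hSs y)))
        rw [holds_inf, holds_inf, hR, hs, hs] at hb
        have := (gstr_ax c).allowed _ _ hb.1
        rwa [hb.2.1, hb.2.2] at this
      · intro x y z h
        obtain ⟨b, hb⟩ := exists_holds (GlobalType.inf_mem h
          (GlobalType.inf_mem (hSs x) (GlobalType.inf_mem (hSs y) (hSs z))))
        rw [holds_inf, holds_inf, holds_inf, hH, hs, hs, hs] at hb
        obtain ⟨h0, h1, h2, h3⟩ := (gstr_ax c).hyp _ _ _ hb.1
        refine ⟨hb.2.1.symm.trans h0, hb.2.2.1.symm.trans h1, hb.2.2.2.symm.trans h2, ?_⟩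
        refine GlobalType.mem_of_forall (fun b hb => ?_) h
        rw [hH] at hb
        rw [hR]
        exact ((gstr_ax c).hyp _ _ _ hb).2.2.2
      · intro x y z d h h1 h2 h3
        obtain ⟨b, hb⟩ := exists_holds (GlobalType.inf_mem h
          (GlobalType.inf_mem h1 (GlobalType.inf_mem h2 h3)))
        rw [holds_inf, holds_inf, holds_inf, hH, hR, hR, hR] at hb
        exact (gstr_ax c).free _ _ _ _ hb.1 hb.2.1 hb.2.2.1 hb.2.2.2
    have hsub : Agree (S.comap some) ((gstr c).comap (fun b : A => b.1)) := by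
      have hsent : ∀ (φ : LG.Formula (GU c ⊕ Unit)) (p : Prop), (∀ b, Holds φ b ↔ p) →
          (φ ∈ r ↔ p) := by
        intro φ p h
        constructor
        · intro hφ
          obtain ⟨b, hb⟩ := exists_holds hφ
          exact (h b).1 hb
        · intro hp
          exact GlobalType.mem_of_forall (fun b _ => (h b).2 hp) (top_mem r)
      exact ⟨fun _ => rfl, fun a a' => hsent _ _ (fun b => hR (some a) (some a') b),
        fun a a' a'' => hsent _ _ (fun b => hH (some a) (some a') (some a'') b)⟩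
    obtain ⟨v, hvA, hag⟩ := ep c hc A (bdd_set hA) S hSax hsub
    refine ⟨fun _ => v, fun φ hφ hφo => ?_⟩
    -- the finite set of parameters of `φ`
    have hPA : params φ ⊆ A := fun m hm => hm A hφo
    have hPfin := (params_finite φ).to_subtype
    let inc : Option (params φ) → Option A := Option.map (fun a => ⟨a.1, hPA a.2⟩)
    have hinc : ∀ o x, ev (params φ) x o = ev A x (inc o) := by
      intro o x
      rcases o with _ | a <;> rfl
    obtain ⟨x, hx, hfam⟩ := exists_holds_family hφ
      (Sum.elim (fun i : Fin 4 => (fsort i (Sum.inr ()) : LG.Formula (GU c ⊕ Unit)))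
        (Sum.elim (fun a : params φ => (feq (Sum.inr ()) (Sum.inl a.1)))
        (Sum.elim (fun o : Option (params φ) × Option (params φ) =>
            (fedge (vr A (inc o.1)) (vr A (inc o.2)) : LG.Formula (GU c ⊕ Unit)))
          (fun o : Option (params φ) × Option (params φ) × Option (params φ) =>
            (fhyp (vr A (inc o.1)) (vr A (inc o.2.1)) (vr A (inc o.2.2)) :
              LG.Formula (GU c ⊕ Unit))))))
    have hx1 : (gstr c).s (x ()) = i₀ := (holds_fsort _ _ _).1 ((hfam (Sum.inl i₀)).2 hi₀)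
    have hx2 : x () ∉ params φ := by
      intro hmem
      have h1 := (hfam (Sum.inr (Sum.inl ⟨x (), hmem⟩))).1 ((realize_feq _ _ _).2 rfl)
      exact hreal _ (hPA hmem) h1
    have hx3 : Agree ((gstr c).comap (ev (params φ) (x ()))) ((gstr c).comap (ev (params φ) v)) := by
      refine ⟨?_, ?_, ?_⟩
      · intro o
        change (gstr c).s (ev (params φ) (x ()) o) = (gstr c).s (ev (params φ) v o)
        rw [hinc o v]
        rw [show (gstr c).s (ev A v (inc o)) = S.s (inc o) from (hag.1 _).symm]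
        rcases o with _ | a
        · exact hx1
        · rfl
      · intro o o'
        change (gstr c).R (ev (params φ) (x ()) o) (ev (params φ) (x ()) o') ↔
          (gstr c).R (ev (params φ) v o) (ev (params φ) v o')
        have h1 := hfam (Sum.inr (Sum.inr (Sum.inl (o, o'))))
        simp only [Sum.elim_inr, Sum.elim_inl] at h1
        rw [hR] at h1
        rw [hinc, hinc, hinc, hinc, h1]
        exact hag.2.1 _ _
      · intro o o' o''
        change (gstr c).H (ev (params φ) (x ()) o) (ev (params φ) (x ()) o')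
          (ev (params φ) (x ()) o'') ↔
          (gstr c).H (ev (params φ) v o) (ev (params φ) v o') (ev (params φ) v o'')
        have h1 := hfam (Sum.inr (Sum.inr (Sum.inr (o, o', o''))))
        simp only [Sum.elim_inr] at h1
        rw [hH] at h1
        rw [hinc, hinc, hinc, hinc, hinc, hinc, h1]
        exact hag.2.2 _ _ _
    obtain ⟨β, hβ⟩ := bdd_set hA
    obtain ⟨σ, hσ, hσx⟩ := exists_auto_point hc ⟨β, fun b hb => hβ b (hPA hb)⟩ hx2
      (fun h => hvA (hPA h)) hx3
    have h4 := (holds_iff_of_fix hσ (over_params φ) (a := x)).2 hx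
    have h5 : (σ ∘ x : Unit → GU c) = fun _ => v := by
      funext i; exact hσx
    rwa [h5] at h4

theorem isMonster_GU (hc : ∀ (x : Code) (δ : Ordinal.{0}), ∃ α, δ ≤ α ∧ c α = x) :
    IsMonster LG (GU c) Cardinal.univ.{0, 1} where
  aleph0_lt := aleph0_lt_univ
  card_lt := by
    have h1 : LG.card ≤ ℵ₀ := by
      have hF : IsEmpty (Σ l, LG.Functions l) := ⟨fun f => f.2.elim⟩
      have hR : Countable (Σ l, LG.Relations l) := by
        let f : Fin 4 ⊕ Bool → Σ l, LG.Relations l := Sum.elim (fun i => ⟨1, rsort i⟩)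
          (fun b => if b then ⟨2, redge⟩ else ⟨3, rhyp⟩)
        have hf : Function.Surjective f := by
          rintro ⟨l, r⟩
          cases r with
          | sort i => exact ⟨Sum.inl i, rfl⟩
          | edge => exact ⟨Sum.inr true, rfl⟩
          | hyp => exact ⟨Sum.inr false, rfl⟩
        exact hf.countable
      have : Countable LG.Symbols := by
        unfold Language.Symbols
        infer_instance
      exact mk_le_aleph0
    have h2 : Cardinal.lift.{1} LG.card ≤ ℵ₀ := by
      rw [lift_le_aleph0]; exact h1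
    refine h2.trans_lt ?_
    rw [lift_univ]
    exact aleph0_lt_univ
  saturated := by
    intro α _ A hA S hS hfin
    obtain ⟨r, hr⟩ := exists_globalType S hfin
    obtain ⟨a, ha⟩ := saturated_of_one aleph0_lt_univ (saturated_one_GU hc) α r A hA
    exact ⟨a, fun φ hφ => ha φ (hr φ hφ) (hS φ hφ)⟩
  homogeneous := homogeneous_GU hc

end

end Pool.Agent.WeakOrth
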