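import Pool.Agent.WeakOrth.Counter

open FirstOrder FirstOrder.Language Cardinal

namespace Pool.Agent.WeakOrth

section General

universe u v w

variable {L : FirstOrder.Language.{u, v}} {U : Type w} [L.Structure U] {α β γ : Type}
  {κ : Cardinal.{w}}

/-- A criterion for weak orthogonality. -/
theorem weaklyOrthogonal_of_base (hU : IsMonster L U κ) [Finite α] [Finite β]
    {p : GlobalType L U α} {q : GlobalType L U β} {A : Set U} (hA : #A < κ)
    (hp : p.InvariantOver A)
    (h : ∀ P : Set U, A ⊆ P → #P < κ → ∃ P' : Set U, #P' < κ ∧ P ⊆ P' ∧ ∀ x y,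
      p.RealizesOver P' x → q.RealizesOver P' y → p.RealizesOver (P ∪ Set.range y) x) :
    WeaklyOrthogonal p q := by
  obtain ⟨r, -, hrp, hrq⟩ := exists_completion (p := p) (q := q) ⊤ (by
    intro θ hθ ψ hψ
    obtain ⟨a, ha⟩ := exists_holds hθ
    obtain ⟨b, hb⟩ := exists_holds hψ
    exact ⟨a, b, ha, hb, by simp [Holds]⟩)
  have key : ∀ r r' : GlobalType L U (α ⊕ β), (∀ φ ∈ p, φ.relabel (Sum.map id Sum.inl) ∈ r) →
      (∀ φ ∈ q, φ.relabel (Sum.map id Sum.inr) ∈ r) →
      (∀ φ ∈ p, φ.relabel (Sum.map id Sum.inl) ∈ r') →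
      (∀ φ ∈ q, φ.relabel (Sum.map id Sum.inr) ∈ r') → ∀ φ ∈ r, φ ∈ r' := by
    intro r r' hrp hrq hrp' hrq' φ hφ
    have hP : #(A ∪ params φ : Set U) < κ :=
      hU.small_union hA (hU.small_finite (params_finite φ))
    obtain ⟨P', hP', hPP', hPr⟩ := h _ Set.subset_union_left hP
    have hres : ∀ r : GlobalType L U (α ⊕ β),
        (∀ φ ∈ p, φ.relabel (Sum.map id Sum.inl) ∈ r) →
        (∀ φ ∈ q, φ.relabel (Sum.map id Sum.inr) ∈ r) → ∃ z, r.RealizesOver P' z ∧
          p.RealizesOver P' (z ∘ Sum.inl) ∧ q.RealizesOver P' (z ∘ Sum.inr) := by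
      intro r hrp hrq
      obtain ⟨z, hz⟩ := hU.exists_realizesOver r hP'
      refine ⟨z, hz, fun χ hχ hχo => ?_, fun χ hχ hχo => ?_⟩
      · have := hz _ (hrp χ hχ) (over_relabel_vars hχo)
        rwa [holds_relabel_inl] at this
      · have := hz _ (hrq χ hχ) (over_relabel_vars hχo)
        rwa [holds_relabel_inr] at this
    obtain ⟨z, hz, hzp, hzq⟩ := hres r hrp hrq
    obtain ⟨z', hz', hzp', hzq'⟩ := hres r' hrp' hrq'
    have h1 := hPr _ _ hzp hzq
    have h1' := hPr _ _ hzp' hzq'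
    obtain ⟨σ, hσ, hσy⟩ := hU.conj hP (hzq.mono hPP') (hzq'.mono hPP')
    have hσA : ∀ m ∈ A, σ m = m := fun m hm => hσ m (Or.inl hm)
    have h2 : p.RealizesOver ((A ∪ params φ) ∪ Set.range (z' ∘ Sum.inr))
        (σ ∘ (z ∘ Sum.inl)) := by
      refine realizesOver_map' hp hσA h1 ?_ (fun i => rfl)
      rintro m (hm | ⟨i, rfl⟩)
      · exact ⟨m, Or.inl hm, hσ m hm⟩
      · exact ⟨z (Sum.inr i), Or.inr ⟨i, rfl⟩, hσy i⟩
    obtain ⟨τ, hτ, hτx⟩ := hU.conj (hU.small_union hP (hU.small_range _)) h2 h1'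
    have h3 : Holds φ z := hz φ hφ ((over_params φ).mono (Set.subset_union_right.trans hPP'))
    have h4 := (holds_iff_of_fix (σ := τ.comp σ) (A := params φ) (by
      intro m hm
      rw [FirstOrder.Language.Equiv.comp_apply, hσ m (Or.inr hm), hτ m (Or.inl (Or.inr hm))])
      (over_params φ) (a := z)).2 h3
    have h5 : ((τ.comp σ) ∘ z : α ⊕ β → U) = z' := by
      funext i
      rcases i with i | i
      · exact hτx i
      · simp only [Function.comp_apply]
        rw [FirstOrder.Language.Equiv.comp_apply]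
        have := hσy i
        simp only [Function.comp_apply] at this
        rw [this]
        exact hτ _ (Or.inr ⟨i, rfl⟩)
    rw [h5] at h4
    by_contra hcon
    have h6 := hz' _ (GlobalType.not_mem_iff.2 hcon)
      (((over_params φ).mono (Set.subset_union_right.trans hPP')).not)
    exact (holds_not.1 h6) h4
  refine ⟨r, ⟨hrp, hrq⟩, fun r' hr' => GlobalType.ext' fun φ => ⟨?_, ?_⟩⟩
  · exact key r' r hr'.1 hr'.2 hrp hrq φ
  · exact key r r' hrp hrq hr'.1 hr'.2 φ

end General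

section

variable {c : Ordinal.{0} → Code}

/-- A one-point extension pattern. -/
def pat (B : Set (GU c)) (i : Fin 4) (E : Set (GU c)) (K : Set (GU c × GU c)) :
    GStr (Option B) where
  s := fun o => o.elim i (fun a => (gstr c).s a.1)
  R := fun o o' =>
    match o, o' with
    | none, none => False
    | none, some a => a.1 ∈ E
    | some a, none => a.1 ∈ E
    | some a, some b => (gstr c).R a.1 b.1
  H := fun o o' o'' =>
    match o, o', o'' with
    | some a, some b, some d => (gstr c).H a.1 b.1 d.1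
    | some a, some b, none => (a.1, b.1) ∈ K
    | _, _, _ => False

theorem pat_ax {B : Set (GU c)} {i : Fin 4} {E : Set (GU c)} {K : Set (GU c × GU c)}
    (h1 : ∀ a ∈ B, a ∈ E → Allowed i ((gstr c).s a))
    (h2 : ∀ a ∈ B, ∀ b ∈ B, (a, b) ∈ K →
      (gstr c).s a = 0 ∧ (gstr c).s b = 1 ∧ i = 2 ∧ (gstr c).R a b)
    (h3 : ∀ a ∈ B, ∀ b ∈ B, (a, b) ∈ K → ∀ d ∈ B, (gstr c).R a d → (gstr c).R b d → d ∉ E)
    (h4 : ∀ a ∈ B, ∀ b ∈ B, ∀ d ∈ B, (gstr c).H a b d → a ∈ E → b ∈ E → d ∈ E → False) :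
    (pat B i E K).Ax where
  symm := by
    rintro (_ | a) (_ | b) h
    · exact h
    · exact h
    · exact h
    · exact (gstr_ax c).symm _ _ h
  allowed := by
    rintro (_ | a) (_ | b) h
    · exact h.elim
    · exact h1 b.1 b.2 h
    · exact (h1 a.1 a.2 h).symm
    · exact (gstr_ax c).allowed _ _ h
  hyp := by
    rintro (_ | a) (_ | b) (_ | d) h
    · exact h.elim
    · exact h.elim
    · exact h.elim
    · exact h.elim
    · exact h.elim
    · exact h.elim
    · obtain ⟨e1, e2, e3, e4⟩ := h2 a.1 a.2 b.1 b.2 h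
      exact ⟨e1, e2, e3, e4⟩
    · exact (gstr_ax c).hyp _ _ _ h
  free := by
    rintro (_ | a) (_ | b) (_ | d) e h r1 r2 r3
    · exact h.elim
    · exact h.elim
    · exact h.elim
    · exact h.elim
    · exact h.elim
    · exact h.elim
    · rcases e with _ | e
      · exact r3.elim
      · exact h3 a.1 a.2 b.1 b.2 h e.1 e.2 r1 r2 r3
    · rcases e with _ | e
      · exact h4 a.1 a.2 b.1 b.2 d.1 d.2 h r1 r2 r3
      · exact (gstr_ax c).free _ _ _ _ h r1 r2 r3

theorem exists_pat (hc : ∀ (x : Code) (δ : Ordinal.{0}), ∃ α, δ ≤ α ∧ c α = x)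
    {B : Set (GU c)} (hB : #B < Cardinal.univ.{0, 1}) {i : Fin 4} {E : Set (GU c)}
    {K : Set (GU c × GU c)}
    (h1 : ∀ a ∈ B, a ∈ E → Allowed i ((gstr c).s a))
    (h2 : ∀ a ∈ B, ∀ b ∈ B, (a, b) ∈ K →
      (gstr c).s a = 0 ∧ (gstr c).s b = 1 ∧ i = 2 ∧ (gstr c).R a b)
    (h3 : ∀ a ∈ B, ∀ b ∈ B, (a, b) ∈ K → ∀ d ∈ B, (gstr c).R a d → (gstr c).R b d → d ∉ E)
    (h4 : ∀ a ∈ B, ∀ b ∈ B, ∀ d ∈ B, (gstr c).H a b d → a ∈ E → b ∈ E → d ∈ E → False) :
    ∃ v, v ∉ B ∧ (gstr c).s v = i ∧ (∀ a ∈ B, ((gstr c).R v a ↔ a ∈ E)) ∧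
      (∀ a ∈ B, ∀ b ∈ B, ((gstr c).H a b v ↔ (a, b) ∈ K)) ∧
      (∀ a ∈ B, ∀ b ∈ B, ¬ (gstr c).H v a b ∧ ¬ (gstr c).H a v b) := by
  obtain ⟨v, hv, hag⟩ := ep c hc B (bdd_set hB) (pat B i E K) (pat_ax h1 h2 h3 h4)
    ⟨fun _ => rfl, fun _ _ => Iff.rfl, fun _ _ _ => Iff.rfl⟩
  refine ⟨v, hv, (hag.1 none).symm, fun a ha => ?_, fun a ha b hb => ?_, fun a ha b hb => ?_⟩
  · exact (hag.2.1 none (some ⟨a, ha⟩)).symm
  · exact (hag.2.2 (some ⟨a, ha⟩) (some ⟨b, hb⟩) none).symm
  · exact ⟨fun h => ((hag.2.2 none (some ⟨a, ha⟩) (some ⟨b, hb⟩)).2 h).elim,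
      fun h => ((hag.2.2 (some ⟨a, ha⟩) none (some ⟨b, hb⟩)).2 h).elim⟩

/-- `v` is a new point of sort `i` over `B`, adjacent exactly to the points of `B` whose sort
lies in `T`, and on no hyperedge with points of `B`. -/
structure Gen (i : Fin 4) (T : Set (Fin 4)) (B : Set (GU c)) (v : GU c) : Prop where
  not_mem : v ∉ B
  sort : (gstr c).s v = i
  edge : ∀ a ∈ B, ((gstr c).R v a ↔ (gstr c).s a ∈ T)
  hyp₁ : ∀ a ∈ B, ∀ b ∈ B, ¬ (gstr c).H a b v
  hyp₂ : ∀ a ∈ B, ∀ b ∈ B, ¬ (gstr c).H v a b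
  hyp₃ : ∀ a ∈ B, ∀ b ∈ B, ¬ (gstr c).H a v b

/-- The admissible pairs `(i, T)`. -/
def Good (i : Fin 4) (T : Set (Fin 4)) : Prop :=
  (∀ j ∈ T, Allowed i j) ∧ ¬ ((0 : Fin 4) ∈ T ∧ (1 : Fin 4) ∈ T ∧ (2 : Fin 4) ∈ T)

theorem exists_gen (hc : ∀ (x : Code) (δ : Ordinal.{0}), ∃ α, δ ≤ α ∧ c α = x)
    {i : Fin 4} {T : Set (Fin 4)} (hT : Good i T) {B : Set (GU c)}
    (hB : #B < Cardinal.univ.{0, 1}) : ∃ v, Gen i T B v := by
  obtain ⟨v, h1, h2, h3, h4, h5⟩ := exists_pat hc hB (i := i) (E := {a | (gstr c).s a ∈ T})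
    (K := ∅) (fun a _ ha => hT.1 _ ha) (fun a _ b _ h => h.elim) (fun a _ b _ h => h.elim)
    (fun a _ b _ d _ h ha hb hd => by
      obtain ⟨e1, e2, e3, -⟩ := (gstr_ax c).hyp _ _ _ h
      refine hT.2 ⟨?_, ?_, ?_⟩
      · rw [← e1]; exact ha
      · rw [← e2]; exact hb
      · rw [← e3]; exact hd)
  exact ⟨v, h1, h2, h3, fun a ha b hb h => ((h4 a ha b hb).1 h).elim,
    fun a ha b hb => (h5 a ha b hb).1, fun a ha b hb => (h5 a ha b hb).2⟩

theorem Gen.mono {i : Fin 4} {T : Set (Fin 4)} {B B' : Set (GU c)} (h : B ⊆ B') {v : GU c}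
    (hv : Gen i T B' v) : Gen i T B v where
  not_mem := fun hm => hv.not_mem (h hm)
  sort := hv.sort
  edge := fun a ha => hv.edge a (h ha)
  hyp₁ := fun a ha b hb => hv.hyp₁ a (h ha) b (h hb)
  hyp₂ := fun a ha b hb => hv.hyp₂ a (h ha) b (h hb)
  hyp₃ := fun a ha b hb => hv.hyp₃ a (h ha) b (h hb)

theorem Gen.map {i : Fin 4} {T : Set (Fin 4)} {B : Set (GU c)} {v : GU c}
    (hv : Gen i T B v) (σ : GU c ≃[LG] GU c) : Gen i T (σ '' B) (σ v) where
  not_mem := by
    rintro ⟨b, hb, h⟩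
    exact hv.not_mem (σ.injective h ▸ hb)
  sort := by rw [auto_sort, hv.sort]
  edge := by
    rintro _ ⟨a, ha, rfl⟩
    rw [auto_edge, auto_sort]
    exact hv.edge a ha
  hyp₁ := by
    rintro _ ⟨a, ha, rfl⟩ _ ⟨b, hb, rfl⟩
    rw [auto_hyp]
    exact hv.hyp₁ a ha b hb
  hyp₂ := by
    rintro _ ⟨a, ha, rfl⟩ _ ⟨b, hb, rfl⟩
    rw [auto_hyp]
    exact hv.hyp₂ a ha b hb
  hyp₃ := by
    rintro _ ⟨a, ha, rfl⟩ _ ⟨b, hb, rfl⟩
    rw [auto_hyp]
    exact hv.hyp₃ a ha b hb

theorem Gen.conj (hc : ∀ (x : Code) (δ : Ordinal.{0}), ∃ α, δ ≤ α ∧ c α = x)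
    {i : Fin 4} {T : Set (Fin 4)} {B : Set (GU c)} (hB : #B < Cardinal.univ.{0, 1})
    {v v' : GU c} (hv : Gen i T B v) (hv' : Gen i T B v') :
    ∃ σ : GU c ≃[LG] GU c, (∀ m ∈ B, σ m = m) ∧ σ v = v' := by
  refine exists_auto_point hc (bdd_set hB) hv.not_mem hv'.not_mem ⟨?_, ?_, ?_⟩
  · rintro (_ | a)
    · exact hv.sort.trans hv'.sort.symm
    · rfl
  · rintro (_ | a) (_ | b)
    · constructor
      · intro h; exact absurd ((gstr_ax c).allowed _ _ h) (not_allowed_self _)
      · intro h; exact absurd ((gstr_ax c).allowed _ _ h) (not_allowed_self _)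
    · exact (hv.edge b.1 b.2).trans (hv'.edge b.1 b.2).symm
    · constructor
      · intro h
        exact (gstr_ax c).symm _ _ ((hv'.edge a.1 a.2).2 ((hv.edge a.1 a.2).1
          ((gstr_ax c).symm _ _ h)))
      · intro h
        exact (gstr_ax c).symm _ _ ((hv.edge a.1 a.2).2 ((hv'.edge a.1 a.2).1
          ((gstr_ax c).symm _ _ h)))
    · exact Iff.rfl
  · have key : ∀ {w : GU c}, Gen i T B w → ∀ o o' o'' : Option B,
        (o = none ∨ o' = none ∨ o'' = none) →
        ¬ (gstr c).H (ev B w o) (ev B w o') (ev B w o'') := by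
      intro w hw o o' o'' hn h
      obtain ⟨e1, e2, e3, e4⟩ := (gstr_ax c).hyp _ _ _ h
      rcases o with _ | a <;> rcases o' with _ | b <;> rcases o'' with _ | d
      · exact absurd (e1.symm.trans e2) (by decide)
      · exact absurd (e1.symm.trans e2) (by decide)
      · exact absurd (e1.symm.trans e3) (by decide)
      · exact hw.hyp₂ b.1 b.2 d.1 d.2 h
      · exact absurd (e2.symm.trans e3) (by decide)
      · exact hw.hyp₃ a.1 a.2 d.1 d.2 h
      · exact hw.hyp₁ a.1 a.2 b.1 b.2 h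
      · simp at hn
    intro o o' o''
    by_cases hn : o = none ∨ o' = none ∨ o'' = none
    · exact ⟨fun h => absurd h (key hv o o' o'' hn), fun h => absurd h (key hv' o o' o'' hn)⟩
    · rcases o with _ | a
      · simp at hn
      rcases o' with _ | b
      · simp at hn
      rcases o'' with _ | d
      · simp at hn
      exact Iff.rfl

theorem Over.params_subset {A : Set (GU c)} {α : Type} {φ : LG.Formula (GU c ⊕ α)}
    (h : Over A φ) : params φ ⊆ A := fun _ hm => hm A h

theorem small_fin {A : Set (GU c)} (h : A.Finite) : #A < Cardinal.univ.{0, 1} :=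
  (lt_aleph0_iff_set_finite.2 h).trans aleph0_lt_univ

/-- The global type of a generic point of sort `i` adjacent exactly to the points whose sort lies
in `T`. -/
def genType (hc : ∀ (x : Code) (δ : Ordinal.{0}), ∃ α, δ ≤ α ∧ c α = x)
    {i : Fin 4} {T : Set (Fin 4)} (hT : Good i T) : GlobalType LG (GU c) Unit where
  carrier := {φ | ∃ v, Gen i T (params φ) v ∧ Holds φ (fun _ => v)}
  finitely_satisfiable := by
    intro F hF
    have hfin : (⋃ φ ∈ F, params φ : Set (GU c)).Finite :=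
      Set.Finite.biUnion F.finite_toSet fun φ _ => params_finite φ
    obtain ⟨v, hv⟩ := exists_gen hc hT (small_fin hfin)
    refine ⟨fun _ => v, fun φ hφ => ?_⟩
    obtain ⟨w, hw, hφw⟩ := hF hφ
    have hsub : params φ ⊆ ⋃ φ ∈ F, params φ :=
      Set.subset_biUnion_of_mem (u := fun φ => params φ) hφ
    obtain ⟨σ, hσ, hσw⟩ := Gen.conj hc (small_fin (params_finite φ)) hw (hv.mono hsub)
    have h1 := (holds_iff_of_fix hσ (over_params φ) (a := fun _ => w)).2 hφw
    have h2 : (σ ∘ (fun _ : Unit => w) : Unit → GU c) = fun _ => v := by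
      funext i; exact hσw
    rwa [h2] at h1
  complete := by
    intro φ
    obtain ⟨v, hv⟩ := exists_gen hc hT
      (small_fin ((params_finite φ).union (params_finite φ.not)))
    by_cases h : Holds φ (fun _ => v)
    · exact Or.inl ⟨v, hv.mono Set.subset_union_left, h⟩
    · exact Or.inr ⟨v, hv.mono Set.subset_union_right, holds_not.2 h⟩

theorem genType_realizes (hc : ∀ (x : Code) (δ : Ordinal.{0}), ∃ α, δ ≤ α ∧ c α = x)
    {i : Fin 4} {T : Set (Fin 4)} (hT : Good i T) {B : Set (GU c)} {v : GU c}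
    (hv : Gen i T B v) : (genType hc hT).RealizesOver B (fun _ => v) := by
  rintro φ ⟨w, hw, hφw⟩ hφo
  obtain ⟨σ, hσ, hσw⟩ := Gen.conj hc (small_fin (params_finite φ)) hw
    (hv.mono hφo.params_subset)
  have h1 := (holds_iff_of_fix hσ (over_params φ) (a := fun _ => w)).2 hφw
  have h2 : (σ ∘ (fun _ : Unit => w) : Unit → GU c) = fun _ => v := by
    funext i; exact hσw
  rwa [h2] at h1

theorem gen_of_realizes (hc : ∀ (x : Code) (δ : Ordinal.{0}), ∃ α, δ ≤ α ∧ c α = x)
    {i : Fin 4} {T : Set (Fin 4)} (hT : Good i T) {B : Set (GU c)}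
    (hB : #B < Cardinal.univ.{0, 1}) {v : Unit → GU c}
    (hv : (genType hc hT).RealizesOver B v) : Gen i T B (v ()) := by
  obtain ⟨w, hw⟩ := exists_gen hc hT hB
  obtain ⟨σ, hσ, hσw⟩ := (isMonster_GU hc).conj hB (genType_realizes hc hT hw) hv
  have h1 := hw.map σ
  have h2 : σ '' B = B := by
    ext m
    constructor
    · rintro ⟨b, hb, rfl⟩
      rw [hσ b hb]; exact hb
    · intro hm
      exact ⟨m, hm, hσ m hm⟩
  rw [h2, hσw ()] at h1
  exact h1

theorem genType_invariant (hc : ∀ (x : Code) (δ : Ordinal.{0}), ∃ α, δ ≤ α ∧ c α = x)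
    {i : Fin 4} {T : Set (Fin 4)} (hT : Good i T) : (genType hc hT).InvariantOver ∅ := by
  have key : ∀ (σ : GU c ≃[LG] GU c) (φ : LG.Formula (GU c ⊕ Unit)), φ ∈ genType hc hT →
      φ.relabel (Sum.map σ id) ∈ genType hc hT := by
    rintro σ φ ⟨v, hv, hφ⟩
    refine ⟨σ v, (hv.map σ).mono ?_, ?_⟩
    · refine Over.params_subset (over_relabel' _ _ (over_params φ) ?_ ?_)
      · intro x hx m hm
        simp only [Sum.map_inl, Sum.inl.injEq] at hm
        exact ⟨x, hx, hm⟩
      · intro x m hm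
        simp at hm
    · have h := (holds_relabel_map (φ := φ) (σ := σ) (a := fun _ => v)).2 hφ
      exact h
  intro σ _ φ
  refine ⟨key σ φ, fun h => ?_⟩
  by_contra hcon
  have h1 := key σ _ (GlobalType.not_mem_iff.2 hcon)
  refine GlobalType.not_both h ?_
  refine GlobalType.mem_of_forall (fun a ha => ?_) h1
  rw [holds_not]
  unfold Holds at *
  rw [Formula.realize_relabel] at *
  simpa using ha

end

section Final

theorem good0 : Good 0 {1, 3} := by
  constructor
  · intro j hj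
    simp only [Set.mem_insert_iff, Set.mem_singleton_iff] at hj
    unfold Allowed
    rcases hj with rfl | rfl <;> simp
  · simp

theorem good1 : Good 1 ∅ := by
  constructor
  · intro j hj
    exact hj.elim
  · simp

theorem good2 : Good 2 {3} := by
  constructor
  · intro j hj
    simp only [Set.mem_singleton_iff] at hj
    unfold Allowed
    subst hj
    simp
  · simp

variable {c : Ordinal.{0} → Code}

/-- Every set has guards. -/
theorem exists_guards (hc : ∀ (x : Code) (δ : Ordinal.{0}), ∃ α, δ ≤ α ∧ c α = x)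
    {P : Set (GU c)} (hP : #P < Cardinal.univ.{0, 1}) : ∃ P' : Set (GU c),
      #P' < Cardinal.univ.{0, 1} ∧ P ⊆ P' ∧ ∀ a ∈ P, (gstr c).s a = 1 →
        ∃ d ∈ P', (gstr c).s d = 3 ∧ (gstr c).R a d := by
  have hg : ∀ a : P, ∃ d, (gstr c).s a.1 = 1 → (gstr c).s d = 3 ∧ (gstr c).R a.1 d := by
    intro a
    by_cases ha : (gstr c).s a.1 = 1
    · obtain ⟨d, -, h2, h3, -, -⟩ := exists_pat hc (B := {a.1}) (small_fin (Set.finite_singleton _))
        (i := 3) (E := {a.1}) (K := ∅)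
        (fun b hb _ => by
          rw [Set.mem_singleton_iff] at hb
          rw [hb, ha]
          unfold Allowed
          simp) (fun a _ b _ h => h.elim) (fun a _ b _ h => h.elim)
        (fun x hx y hy z hz h _ _ _ => by
          obtain ⟨e1, e2, -, -⟩ := (gstr_ax c).hyp _ _ _ h
          rw [Set.mem_singleton_iff] at hx hy
          rw [hx] at e1
          rw [hy] at e2
          exact absurd (e1.symm.trans e2) (by decide))
      exact ⟨d, fun _ => ⟨h2, (gstr_ax c).symm _ _ ((h3 a.1 rfl).2 rfl)⟩⟩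
    · exact ⟨a.1, fun h => absurd h ha⟩
  choose g hg using hg
  refine ⟨P ∪ Set.range g, (isMonster_GU hc).small_union hP (mk_range_le.trans_lt hP),
    Set.subset_union_left, fun a ha hs => ?_⟩
  exact ⟨g ⟨a, ha⟩, Or.inr ⟨_, rfl⟩, (hg ⟨a, ha⟩ hs).1, (hg ⟨a, ha⟩ hs).2⟩

/-- `p₀` and `q` are weakly orthogonal. -/
theorem wo0 (hc : ∀ (x : Code) (δ : Ordinal.{0}), ∃ α, δ ≤ α ∧ c α = x) :
    WeaklyOrthogonal (genType hc good0) (genType hc good2) := by
  refine weaklyOrthogonal_of_base (isMonster_GU hc) (A := ∅) (by simp)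
    (genType_invariant hc good0) ?_
  intro P _ hP
  obtain ⟨P', hP', hPP', hg⟩ := exists_guards hc hP
  refine ⟨P', hP', hPP', fun x y hx hy => ?_⟩
  have gx := gen_of_realizes hc good0 hP' hx
  have gy := gen_of_realizes hc good2 hP' hy
  have hxx : x = fun _ => x () := rfl
  rw [hxx]
  apply genType_realizes
  have hyr : ∀ m ∈ Set.range y, m = y () := by
    rintro _ ⟨i, rfl⟩; rfl
  have hsx := gx.sort
  have hsy := gy.sort
  refine ⟨?_, gx.sort, ?_, ?_, ?_, ?_⟩
  · rintro (h | h)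
    · exact gx.not_mem (hPP' h)
    · have := hyr _ h
      rw [this, hsy] at hsx
      exact absurd hsx (by decide)
  · rintro a (ha | ha)
    · exact gx.edge a (hPP' ha)
    · rw [hyr a ha, hsy]
      constructor
      · intro h
        have := (gstr_ax c).allowed _ _ h
        rw [hsx, hsy] at this
        exact absurd this (by unfold Allowed; decide)
      · intro h
        simp at h
  · intro a _ b _ h
    have := ((gstr_ax c).hyp _ _ _ h).2.2.1
    rw [hsx] at this
    exact absurd this (by decide)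
  · rintro a (ha | ha) b (hb | hb) h
    · exact gx.hyp₂ a (hPP' ha) b (hPP' hb) h
    · obtain ⟨e1, e2, e3, e4⟩ := (gstr_ax c).hyp _ _ _ h
      rw [hyr b hb] at h
      obtain ⟨d, hd, hds, hda⟩ := hg a ha e2
      refine (gstr_ax c).free _ _ _ d h ?_ hda ?_
      · rw [gx.edge d hd, hds]; simp
      · rw [gy.edge d hd, hds]; simp
    · have := ((gstr_ax c).hyp _ _ _ h).2.1
      rw [hyr a ha, hsy] at this
      exact absurd this (by decide)
    · have := ((gstr_ax c).hyp _ _ _ h).2.1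
      rw [hyr a ha, hsy] at this
      exact absurd this (by decide)
  · intro a _ b _ h
    have := ((gstr_ax c).hyp _ _ _ h).2.1
    rw [hsx] at this
    exact absurd this (by decide)

/-- `p₁` and `q` are weakly orthogonal. -/
theorem wo1 (hc : ∀ (x : Code) (δ : Ordinal.{0}), ∃ α, δ ≤ α ∧ c α = x) :
    WeaklyOrthogonal (genType hc good1) (genType hc good2) := by
  refine weaklyOrthogonal_of_base (isMonster_GU hc) (A := ∅) (by simp)
    (genType_invariant hc good1) ?_
  intro P _ hP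
  refine ⟨P, hP, subset_rfl, fun x y hx hy => ?_⟩
  have gx := gen_of_realizes hc good1 hP hx
  have gy := gen_of_realizes hc good2 hP hy
  have hxx : x = fun _ => x () := rfl
  rw [hxx]
  apply genType_realizes
  have hyr : ∀ m ∈ Set.range y, m = y () := by
    rintro _ ⟨i, rfl⟩; rfl
  have hsx := gx.sort
  have hsy := gy.sort
  refine ⟨?_, gx.sort, ?_, ?_, ?_, ?_⟩
  · rintro (h | h)
    · exact gx.not_mem h
    · have := hyr _ h
      rw [this, hsy] at hsx
      exact absurd hsx (by decide)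
  · rintro a (ha | ha)
    · exact gx.edge a ha
    · rw [hyr a ha]
      constructor
      · intro h
        have := (gstr_ax c).allowed _ _ h
        rw [hsx, hsy] at this
        exact absurd this (by unfold Allowed; decide)
      · intro h
        exact h.elim
  · intro a _ b _ h
    have := ((gstr_ax c).hyp _ _ _ h).2.2.1
    rw [hsx] at this
    exact absurd this (by decide)
  · intro a _ b _ h
    have := ((gstr_ax c).hyp _ _ _ h).1
    rw [hsx] at this
    exact absurd this (by decide)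
  · rintro a (ha | ha) b hb h
    · obtain ⟨e1, e2, e3, e4⟩ := (gstr_ax c).hyp _ _ _ h
      have := (gx.edge a ha).1 ((gstr_ax c).symm _ _ e4)
      exact this.elim
    · have := ((gstr_ax c).hyp _ _ _ h).1
      rw [hyr a ha, hsy] at this
      exact absurd this (by decide)

/-- `p₀ ⊗ p₁` and `q` are not weakly orthogonal. -/
theorem not_wo (hc : ∀ (x : Code) (δ : Ordinal.{0}), ∃ α, δ ≤ α ∧ c α = x)
    (h₀ : (genType hc good0).IsInvariant Cardinal.univ.{0, 1}) :
    ¬ WeaklyOrthogonal (tensor (isMonster_GU hc) (genType hc good0) h₀ (genType hc good1))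
      (genType hc good2) := by
  intro hwo
  rw [weaklyOrthogonal_iff] at hwo
  have hdec := hwo (fhyp (Sum.inr (Sum.inl (Sum.inl ()))) (Sum.inr (Sum.inl (Sum.inr ())))
    (Sum.inr (Sum.inr ())))
  have hval : ∀ (z : Unit ⊕ Unit → GU c) (w : Unit → GU c),
      Holds (fhyp (Sum.inr (Sum.inl (Sum.inl ()))) (Sum.inr (Sum.inl (Sum.inr ())))
        (Sum.inr (Sum.inr ())) : LG.Formula (GU c ⊕ ((Unit ⊕ Unit) ⊕ Unit))) (Sum.elim z w) ↔
      (gstr c).H (z (Sum.inl ())) (z (Sum.inr ())) (w ()) := by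
    intro z w
    unfold Holds
    rw [realize_fhyp]
    rfl
  -- for all `θ`, `ψ` there are realisations with and without the hyperedge
  have key : ∀ θ ∈ tensor (isMonster_GU hc) (genType hc good0) h₀ (genType hc good1),
      ∀ ψ ∈ genType hc good2, ∃ (z : Unit ⊕ Unit → GU c) (w w' : Unit → GU c),
        Holds θ z ∧ Holds ψ w ∧ Holds ψ w' ∧
        (gstr c).H (z (Sum.inl ())) (z (Sum.inr ())) (w ()) ∧
        ¬ (gstr c).H (z (Sum.inl ())) (z (Sum.inr ())) (w' ()) := by
    intro θ hθ ψ hψ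
    obtain ⟨P, hPdef⟩ : ∃ P : Set (GU c), P = params θ ∪ params ψ := ⟨_, rfl⟩
    have hPfin : P.Finite := by
      rw [hPdef]; exact (params_finite θ).union (params_finite ψ)
    have hP := small_fin hPfin
    obtain ⟨x₁, hx₁⟩ := exists_gen hc good1 hP
    obtain ⟨x₀, hx₀⟩ := exists_gen hc good0 (small_fin (hPfin.union (Set.finite_singleton x₁)))
    have hθz : Holds θ (Sum.elim (fun _ => x₀) (fun _ => x₁)) := by
      refine tensor_realizesOver (isMonster_GU hc) h₀ hP
        ((genType_invariant hc good0).mono (Set.empty_subset _)) (genType_realizes hc good1 hx₁)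
        ?_ θ hθ ((over_params θ).mono (by rw [hPdef]; exact Set.subset_union_left))
      refine genType_realizes hc good0 (hx₀.mono ?_)
      refine Set.union_subset_union_right _ ?_
      rintro _ ⟨i, rfl⟩
      rfl
    have hBfin : (P ∪ {x₀, x₁} : Set (GU c)).Finite := hPfin.union (by simp)
    have hB := small_fin hBfin
    have hR01 : (gstr c).R x₀ x₁ := by
      rw [hx₀.edge x₁ (Or.inr rfl), hx₁.sort]; simp
    obtain ⟨w', hw'⟩ := exists_gen hc good2 hB
    obtain ⟨w, hw1, hw2, hw3, hw4, hw5⟩ := exists_pat hc hB (i := 2)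
      (E := {a | (gstr c).s a = 3}) (K := {(x₀, x₁)})
      (fun a _ ha => by
        have ha' : (gstr c).s a = 3 := ha
        rw [ha']
        unfold Allowed
        simp)
      (fun a _ b _ h => by
        rw [Set.mem_singleton_iff, Prod.mk.injEq] at h
        obtain ⟨rfl, rfl⟩ := h
        exact ⟨hx₀.sort, hx₁.sort, rfl, hR01⟩)
      (fun a _ b _ h d hd hr0 hr1 hdE => by
        rw [Set.mem_singleton_iff, Prod.mk.injEq] at h
        obtain ⟨rfl, rfl⟩ := h
        have hdE' : (gstr c).s d = 3 := hdE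
        rcases hd with hd | rfl | rfl
        · exact (hx₁.edge d hd).1 hr1
        · exact absurd (hx₀.sort.symm.trans hdE') (by decide)
        · exact absurd (hx₁.sort.symm.trans hdE') (by decide))
      (fun a _ b _ d _ h ha _ _ => by
        obtain ⟨e1, -, -, -⟩ := (gstr_ax c).hyp _ _ _ h
        have ha' : (gstr c).s a = 3 := ha
        exact absurd (e1.symm.trans ha') (by decide))
    have hwgen : Gen 2 {3} P w := by
      refine ⟨fun h => hw1 (Or.inl h), hw2, fun a ha => hw3 a (Or.inl ha), ?_, ?_, ?_⟩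
      · intro a ha b hb h
        have := (hw4 a (Or.inl ha) b (Or.inl hb)).1 h
        rw [Set.mem_singleton_iff, Prod.mk.injEq] at this
        obtain ⟨rfl, rfl⟩ := this
        exact hx₁.not_mem hb
      · intro a ha b hb
        exact (hw5 a (Or.inl ha) b (Or.inl hb)).1
      · intro a ha b hb
        exact (hw5 a (Or.inl ha) b (Or.inl hb)).2
    refine ⟨Sum.elim (fun _ => x₀) (fun _ => x₁), fun _ => w, fun _ => w', hθz, ?_, ?_, ?_, ?_⟩
    · exact genType_realizes hc good2 hwgen ψ hψ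
        ((over_params ψ).mono (by rw [hPdef]; exact Set.subset_union_right))
    · exact genType_realizes hc good2 (hw'.mono Set.subset_union_left) ψ hψ
        ((over_params ψ).mono (by rw [hPdef]; exact Set.subset_union_right))
    · exact (hw4 x₀ (Or.inr (Or.inl rfl)) x₁ (Or.inr (Or.inr rfl))).2 rfl
    · exact hw'.hyp₁ x₀ (Or.inr (Or.inl rfl)) x₁ (Or.inr (Or.inr rfl))
  rcases hdec with ⟨θ, hθ, ψ, hψ, h⟩ | ⟨θ, hθ, ψ, hψ, h⟩
  · obtain ⟨z, w, w', h1, h2, h3, h4, h5⟩ := key θ hθ ψ hψ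
    exact h5 ((hval z w').1 (h z w' h1 h3))
  · obtain ⟨z, w, w', h1, h2, h3, h4, h5⟩ := key θ hθ ψ hψ
    exact h z w h1 h2 ((hval z w).2 h4)

end Final

end Pool.Agent.WeakOrth
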