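import Pool.Agent.WeakOrth.Basic

open FirstOrder FirstOrder.Language Cardinal

namespace Pool.Agent.WeakOrth

universe u v w

variable {L : FirstOrder.Language.{u, v}} {U : Type w} [L.Structure U] {α β γ : Type}
  {κ : Cardinal.{w}}

/-- Rewriting the parameters of a formula as values of a tuple. -/
theorem exists_formula_tuple {V : Type*} (e : V → U) {B : Set U} (hB : B ⊆ Set.range e)
    {φ : L.Formula (U ⊕ α)} (hφ : Over B φ) :
    ∃ χ : L.Formula (V ⊕ α), ∀ x : α → U, χ.Realize (Sum.elim e x) ↔ Holds φ x := by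
  classical
  have hch : ∀ a : φ.freeVarFinset, ∃ z : V ⊕ α, ∀ x : α → U, Sum.elim e x z =
      Sum.elim id x a.1 := by
    rintro ⟨m | i, ha⟩
    · obtain ⟨z, hz⟩ := hB (hφ m (by convert ha))
      exact ⟨Sum.inl z, fun x => by simpa using hz⟩
    · exact ⟨Sum.inr i, fun x => rfl⟩
  choose f hf using hch
  refine ⟨φ.restrictFreeVar f, fun x => ?_⟩
  exact BoundedFormula.realize_restrictFreeVar (Sum.elim id x) (fun a => hf a x)

/-- A formula over `B ∪ range y` is an instance of a formula over `B`. -/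
theorem exists_formula_over {B : Set U} (y : γ → U) {φ : L.Formula (U ⊕ α)}
    (hφ : Over (B ∪ Set.range y) φ) :
    ∃ χ : L.Formula (B ⊕ (α ⊕ γ)), ∀ x : α → U,
      Holds (χ.relabel (Sum.map (fun m => m.1) id) : L.Formula (U ⊕ (α ⊕ γ))) (Sum.elim x y) ↔
        Holds φ x := by
  obtain ⟨χ, hχ⟩ := exists_formula_tuple (V := B ⊕ γ) (Sum.elim (fun m => m.1) y)
    (B := B ∪ Set.range y) (by
      rintro m (hm | ⟨j, rfl⟩)
      · exact ⟨Sum.inl ⟨m, hm⟩, rfl⟩
      · exact ⟨Sum.inr j, rfl⟩) hφ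
  refine ⟨χ.relabel (Sum.elim (Sum.elim Sum.inl (fun j => Sum.inr (Sum.inr j)))
    (fun i => Sum.inr (Sum.inl i))), fun x => ?_⟩
  rw [← hχ x]
  unfold Holds
  rw [Formula.realize_relabel, Formula.realize_relabel]
  have : ((Sum.elim id (Sum.elim x y) ∘ Sum.map (fun m => m.1) id) ∘
      (Sum.elim (Sum.elim Sum.inl (fun j => Sum.inr (Sum.inr j)))
        (fun i => Sum.inr (Sum.inl i))) : (B ⊕ γ) ⊕ α → U)
      = Sum.elim (Sum.elim (fun m => m.1) y) x := by
    funext z
    rcases z with (z | z) | z <;> rfl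
  rw [this]

omit [L.Structure U] in
theorem over_relabel_coe {B : Set U} (χ : L.Formula (B ⊕ α)) :
    Over B (χ.relabel (Sum.map (fun m => m.1) id) : L.Formula (U ⊕ α)) := by
  refine over_relabel _ _ ?_
  intro x m hx
  rcases x with x | x
  · simp only [Sum.map_inl, Sum.inl.injEq] at hx
    exact hx ▸ x.2
  · simp at hx

omit [L.Structure U] in
theorem card_formula_lt [Finite α] {B : Set U} (hB : #B < κ) (h0 : ℵ₀ < κ)
    (hL : Cardinal.lift.{w} L.card < Cardinal.lift.{max u v} κ) :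
    #(L.Formula (B ⊕ α)) < Cardinal.lift.{max u v} κ := by
  have h1 : #(L.Formula (B ⊕ α)) ≤ #(Σ n, L.BoundedFormula (B ⊕ α) n) :=
    mk_le_of_injective (f := fun φ => ⟨0, φ⟩) (by
      intro φ ψ h
      simpa using h)
  refine h1.trans_lt (BoundedFormula.card_le.trans_lt ?_)
  have h0' : ℵ₀ < Cardinal.lift.{max u v} κ := by
    rw [← lift_aleph0.{max u v, w}]
    exact lift_lt.2 h0
  refine max_lt h0' (add_lt_of_lt h0'.le ?_ hL)
  refine lift_lt.2 ?_
  rw [mk_sum]
  refine add_lt_of_lt h0.le ?_ ?_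
  · simpa using hB
  · exact (lift_lt_aleph0.2 (lt_aleph0_of_finite α)).trans h0

omit [L.Structure U] in
theorem small_iUnion (_L : FirstOrder.Language.{u, v}) {ι : Type (max u v w)} (h0 : ℵ₀ < κ)
    (hι : #ι < Cardinal.lift.{max u v} κ) (f : ι → Set U) (hf : ∀ i, (f i).Finite) :
    #(⋃ i, f i : Set U) < κ := by
  have h0' : ℵ₀ < Cardinal.lift.{max u v} κ := by
    rw [← lift_aleph0.{max u v, w}]
    exact lift_lt.2 h0
  have h1 := mk_iUnion_le_lift f
  have h2 : Cardinal.lift.{w} #ι * (⨆ i, Cardinal.lift.{max u v w} #(f i)) ≤ #ι * ℵ₀ := by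
    have h3 : Cardinal.lift.{w} #ι = #ι := lift_id'.{w, max u v w} _
    rw [h3]
    refine mul_le_mul_right ?_ _
    refine ciSup_le' fun i => ?_
    rw [lift_le_aleph0]
    exact (lt_aleph0_iff_set_finite.2 (hf i)).le
  have h4 : Cardinal.lift.{max u v w} #(⋃ i, f i : Set U) < Cardinal.lift.{max u v} κ :=
    (h1.trans h2).trans_lt (mul_lt_of_lt h0'.le hι h0')
  have h5 : Cardinal.lift.{max u v w} #(⋃ i, f i : Set U) =
      Cardinal.lift.{max u v} #(⋃ i, f i : Set U) := by
    exact lift_umax.{w, max u v} ▸ rfl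
  rw [h5] at h4
  exact lift_lt.1 h4

/-- If `p` and `q` are weakly orthogonal, then for a small set `B` there is a small set `M ⊇ B`
such that `p|M ∪ q|M` implies the type of `x ⊨ p|(B y)`. -/
theorem exists_base (hU : IsMonster L U κ) [Finite α] [Finite β] {p : GlobalType L U α}
    {q : GlobalType L U β} (h : WeaklyOrthogonal p q) {B : Set U} (hB : #B < κ) :
    ∃ M : Set U, #M < κ ∧ B ⊆ M ∧ ∀ (x : α → U) (y : β → U), p.RealizesOver M x →
      q.RealizesOver M y → p.RealizesOver (B ∪ Set.range y) x := by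
  rw [weaklyOrthogonal_iff] at h
  have h' : ∀ χ : L.Formula (B ⊕ (α ⊕ β)), ∃ θ ∈ p, ∃ ψ ∈ q,
      (∀ a b, Holds θ a → Holds ψ b → Holds (χ.relabel (Sum.map (fun m => m.1) id) :
        L.Formula (U ⊕ (α ⊕ β))) (Sum.elim a b)) ∨
      (∀ a b, Holds θ a → Holds ψ b → ¬ Holds (χ.relabel (Sum.map (fun m => m.1) id) :
        L.Formula (U ⊕ (α ⊕ β))) (Sum.elim a b)) := by
    intro χ
    rcases h (χ.relabel (Sum.map (fun m => m.1) id)) with ⟨θ, hθ, ψ, hψ, h1⟩ | ⟨θ, hθ, ψ, hψ, h1⟩
    · exact ⟨θ, hθ, ψ, hψ, Or.inl h1⟩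
    · exact ⟨θ, hθ, ψ, hψ, Or.inr h1⟩
  choose θ hθ ψ hψ hdec using h'
  refine ⟨B ∪ ⋃ χ : L.Formula (B ⊕ (α ⊕ β)), (params (θ χ) ∪ params (ψ χ)),
    hU.small_union hB (small_iUnion L hU.aleph0_lt
      (card_formula_lt (L := L) (α := α ⊕ β) hB hU.aleph0_lt hU.card_lt) _
      (fun χ => (params_finite _).union (params_finite _))), Set.subset_union_left, ?_⟩
  · intro x y hx hy η hη hηo
    obtain ⟨χ, hχ⟩ := exists_formula_over y hηo
    have hxθ : Holds (θ χ) x := hx _ (hθ χ) ((over_params _).mono (by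
      refine Set.Subset.trans ?_ Set.subset_union_right
      exact Set.subset_iUnion_of_subset χ Set.subset_union_left))
    have hyψ : Holds (ψ χ) y := hy _ (hψ χ) ((over_params _).mono (by
      refine Set.Subset.trans ?_ Set.subset_union_right
      exact Set.subset_iUnion_of_subset χ Set.subset_union_right))
    rcases hdec χ with h1 | h1
    · exact (hχ x).1 (h1 x y hxθ hyψ)
    · exfalso
      obtain ⟨x', hx'⟩ := exists_holds (GlobalType.inf_mem hη (hθ χ))
      rw [holds_inf] at hx'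
      exact h1 x' y hx'.2 hyψ ((hχ x').2 hx'.1)

theorem mem_tensor_iff (hU : IsMonster L U κ) [Finite β] {p : GlobalType L U α}
    (hpi : p.IsInvariant κ) {q : GlobalType L U β} {A : Set U} (hA : #A < κ)
    (hp : p.InvariantOver A)
    {φ : L.Formula (U ⊕ (α ⊕ β))} (hφ : Over A φ) {b : β → U} (hb : q.RealizesOver A b) :
    φ ∈ tensor hU p hpi q ↔ plug b φ ∈ p :=
  mem_tensorCarrier_iff hU hA hp hφ hb

theorem top_mem (p : GlobalType L U α) : (⊤ : L.Formula (U ⊕ α)) ∈ p := by
  rcases p.complete ⊤ with h | h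
  · exact h
  · exact GlobalType.mem_of_forall (fun a _ => by simp [Holds]) h

/-- If `(x, y)` realises `(p ⊗ q)|M` then `y ⊨ q|M` and `x ⊨ p|(M y)`. -/
theorem realizesOver_tensor (hU : IsMonster L U κ) [Finite α] [Finite β] {p : GlobalType L U α}
    (hpi : p.IsInvariant κ) {q : GlobalType L U β} {M : Set U} (hM : #M < κ)
    (hp : p.InvariantOver M) {z : α ⊕ β → U} (hz : (tensor hU p hpi q).RealizesOver M z) :
    q.RealizesOver M (z ∘ Sum.inr) ∧
      p.RealizesOver (M ∪ Set.range (z ∘ Sum.inr)) (z ∘ Sum.inl) := by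
  have hzsplit : Sum.elim (z ∘ Sum.inl) (z ∘ Sum.inr) = z := by
    funext i; rcases i with i | i <;> rfl
  have h1 : q.RealizesOver M (z ∘ Sum.inr) := by
    intro η hη hηo
    obtain ⟨b, hb⟩ := hU.exists_realizesOver q hM
    have hov : Over M (η.relabel (Sum.map id Sum.inr) : L.Formula (U ⊕ (α ⊕ β))) :=
      over_relabel' _ _ hηo (by
        intro x hx m hm
        simp only [Sum.map_inl, id, Sum.inl.injEq] at hm
        exact hm ▸ hx) (by
        intro x m hm
        simp at hm)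
    have := hz (η.relabel (Sum.map id Sum.inr)) (by
      rw [mem_tensor_iff hU hpi hM hp hov hb]
      refine GlobalType.mem_of_forall (fun a _ => ?_) (top_mem p)
      rw [holds_plug, holds_relabel_inr]
      exact hb η hη hηo) hov
    rwa [holds_relabel_inr] at this
  refine ⟨h1, ?_⟩
  intro η hη hηo
  obtain ⟨χ, hχ⟩ := exists_formula_over (z ∘ Sum.inr) hηo
  have hov := over_relabel_coe (U := U) χ
  have := hz _ (by
    rw [mem_tensor_iff hU hpi hM hp hov h1]
    refine GlobalType.mem_of_forall (fun a ha => ?_) hη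
    rw [holds_plug]
    exact (hχ a).2 ha) hov
  rw [← hzsplit] at this
  exact (hχ _).1 this

/-- Conversely, if `y ⊨ q|M` and `x ⊨ p|(M y)` then `(x, y)` realises `(p ⊗ q)|M`. -/
theorem tensor_realizesOver (hU : IsMonster L U κ) [Finite α] [Finite β] {p : GlobalType L U α}
    (hpi : p.IsInvariant κ) {q : GlobalType L U β} {M : Set U} (hM : #M < κ)
    (hp : p.InvariantOver M) {x : α → U} {y : β → U} (hy : q.RealizesOver M y)
    (hx : p.RealizesOver (M ∪ Set.range y) x) :
    (tensor hU p hpi q).RealizesOver M (Sum.elim x y) := by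
  intro φ hφ hφo
  rw [mem_tensor_iff hU hpi hM hp hφo hy] at hφ
  have := hx _ hφ (over_relabel' _ _ hφo (by
    intro a ha m hm
    simp only [Sum.elim_inl, Sum.inl.injEq] at hm
    exact Or.inl (hm ▸ ha)) (by
    intro a m hm
    rcases a with a | a
    · simp at hm
    · simp only [Sum.elim_inr, Function.comp_apply, Sum.inl.injEq] at hm
      exact Or.inr ⟨a, hm⟩))
  rwa [holds_plug] at this

theorem symm_fix {A : Set U} {σ : U ≃[L] U} (hσ : ∀ m ∈ A, σ m = m) : ∀ m ∈ A, σ.symm m = m := by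
  intro m hm
  have h := FirstOrder.Language.Equiv.symm_apply_apply σ m
  rwa [hσ m hm] at h

/-- Realisation is preserved by automorphisms fixing a base of invariance. -/
theorem realizesOver_map {p : GlobalType L U α} {A B : Set U} (hp : p.InvariantOver A)
    {σ : U ≃[L] U} (hσ : ∀ m ∈ A, σ m = m) {x : α → U} (hx : p.RealizesOver B x) :
    p.RealizesOver (σ '' B) (σ ∘ x) := by
  intro φ hφ hφo
  have hσ' : ∀ m ∈ A, σ.symm m = m := fun m hm => symm_fix hσ m hm
  have h1 := (hp σ.symm hσ' φ).1 hφ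
  have h2 := hx _ h1 (over_relabel' _ _ hφo (by
    rintro _ ⟨a, ha, rfl⟩ m hm
    simp only [Sum.map_inl, Sum.inl.injEq] at hm
    rw [← hm, FirstOrder.Language.Equiv.symm_apply_apply]
    exact ha) (by
    intro a m hm
    simp at hm))
  have h3 := holds_relabel_map (φ := φ) (σ := σ.symm) (a := σ ∘ x)
  have h4 : (σ.symm ∘ (σ ∘ x) : α → U) = x := by
    funext i; exact FirstOrder.Language.Equiv.symm_apply_apply σ _
  rw [h4] at h3
  exact h3.1 h2

theorem realizesOver_map' {p : GlobalType L U α} {A B C : Set U} (hp : p.InvariantOver A)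
    {σ : U ≃[L] U} (hσ : ∀ m ∈ A, σ m = m) {x x' : α → U} (hx : p.RealizesOver B x)
    (hC : C ⊆ σ '' B) (hx' : ∀ i, σ (x i) = x' i) : p.RealizesOver C x' := by
  have h : (σ ∘ x : α → U) = x' := funext hx'
  rw [← h]
  exact (realizesOver_map hp hσ hx).mono hC

/-- Weakly orthogonal invariant types commute. -/
theorem realizesOver_comm (hU : IsMonster L U κ) [Finite α] [Finite β] {p : GlobalType L U α}
    {q : GlobalType L U β} (h : WeaklyOrthogonal p q) {A : Set U} (hp : p.InvariantOver A)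
    (hq : q.InvariantOver A) {B : Set U} (hB : #B < κ) (hAB : A ⊆ B) {x : α → U} {y : β → U}
    (hx : p.RealizesOver B x) (hy : q.RealizesOver (B ∪ Set.range x) y) :
    p.RealizesOver (B ∪ Set.range y) x := by
  obtain ⟨M, hM, hBM, hMB⟩ := exists_base hU h hB
  obtain ⟨x', hx'⟩ := hU.exists_realizesOver p hM
  obtain ⟨y', hy'⟩ := hU.exists_realizesOver q (hU.small_union hM (hU.small_range x'))
  have h1 := hMB x' y' hx' (hy'.mono Set.subset_union_left)
  obtain ⟨σ, hσ, hσx⟩ := hU.conj hB (hx'.mono hBM) hx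
  have hσA : ∀ m ∈ A, σ m = m := fun m hm => hσ m (hAB hm)
  have h2 : q.RealizesOver (B ∪ Set.range x) (σ ∘ y') := by
    refine realizesOver_map' hq hσA (hy'.mono (Set.union_subset_union_left _ hBM)) ?_
      (fun i => rfl)
    rintro m (hm | ⟨i, rfl⟩)
    · exact ⟨m, Or.inl hm, hσ m hm⟩
    · exact ⟨x' i, Or.inr ⟨i, rfl⟩, hσx i⟩
  obtain ⟨τ, hτ, hτy⟩ := hU.conj (hU.small_union hB (hU.small_range x)) h2 hy
  refine realizesOver_map' (σ := τ.comp σ) hp ?_ h1 ?_ ?_
  · intro m hm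
    rw [FirstOrder.Language.Equiv.comp_apply, hσA m hm, hτ m (Or.inl (hAB hm))]
  · rintro m (hm | ⟨i, rfl⟩)
    · exact ⟨m, Or.inl hm, by
        rw [FirstOrder.Language.Equiv.comp_apply, hσ m hm, hτ m (Or.inl hm)]⟩
    · exact ⟨y' i, Or.inr ⟨i, rfl⟩, by
        rw [FirstOrder.Language.Equiv.comp_apply]; exact hτy i⟩
  · intro i
    rw [FirstOrder.Language.Equiv.comp_apply, hσx, hτ _ (Or.inr ⟨i, rfl⟩)]

/-- The set `A` together with the entries of the first `i` tuples of a sequence. -/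
def initSet (A : Set U) (c : ℕ → γ → U) (i : ℕ) : Set U := A ∪ ⋃ j < i, Set.range (c j)

omit [L.Structure U] in
theorem small_initSet [Finite γ] {A : Set U} (hA : #A < κ) (h0 : ℵ₀ < κ) (c : ℕ → γ → U)
    (i : ℕ) : #(initSet A c i) < κ := by
  refine (mk_union_le _ _).trans_lt (add_lt_of_lt h0.le hA ?_)
  refine (lt_aleph0_iff_set_finite.2 ?_).trans h0
  exact Set.Finite.biUnion (Set.finite_lt_nat i) fun j _ => Set.finite_range _

theorem initSet_mono_left (A : Set U) (c : ℕ → γ → U) (i : ℕ) : A ⊆ initSet A c i :=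
  Set.subset_union_left

theorem range_subset_initSet (A : Set U) (c : ℕ → γ → U) {i j : ℕ} (h : j < i) :
    Set.range (c j) ⊆ initSet A c i := by
  refine Set.Subset.trans ?_ Set.subset_union_right
  exact Set.subset_biUnion_of_mem (u := fun j => Set.range (c j)) h

theorem initSet_mono (A : Set U) (c : ℕ → γ → U) {i j : ℕ} (h : i ≤ j) :
    initSet A c i ⊆ initSet A c j := by
  refine Set.union_subset_union_right _ ?_
  exact Set.biUnion_subset_biUnion_left fun k hk => lt_of_lt_of_le hk h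

/-- Two Morley sequences of an invariant type of the same finite length are conjugate. -/
theorem morley_conj (hU : IsMonster L U κ) [Finite γ] {q : GlobalType L U γ} {A : Set U}
    (hA : #A < κ) (hq : q.InvariantOver A) (e c : ℕ → γ → U) (k : ℕ)
    (he : ∀ i < k, q.RealizesOver (initSet A e i) (e i))
    (hc : ∀ i < k, q.RealizesOver (initSet A c i) (c i)) :
    ∃ σ : U ≃[L] U, (∀ m ∈ A, σ m = m) ∧ ∀ i < k, ∀ j, σ (e i j) = c i j := by
  induction k with
  | zero => exact ⟨FirstOrder.Language.Equiv.refl L U, fun m _ => rfl, by simp⟩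
  | succ k ih =>
    obtain ⟨σ, hσ, hσe⟩ := ih (fun i hi => he i (hi.trans (Nat.lt_succ_self k)))
      (fun i hi => hc i (hi.trans (Nat.lt_succ_self k)))
    have h1 : q.RealizesOver (initSet A c k) (σ ∘ e k) := by
      refine realizesOver_map' hq hσ (he k (Nat.lt_succ_self k)) ?_ (fun i => rfl)
      rintro m (hm | hm)
      · exact ⟨m, initSet_mono_left _ _ _ hm, hσ m hm⟩
      · simp only [Set.mem_iUnion] at hm
        obtain ⟨j, hj, i, rfl⟩ := hm
        exact ⟨e j i, range_subset_initSet A e hj ⟨i, rfl⟩, hσe j hj i⟩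
    obtain ⟨τ, hτ, hτc⟩ := hU.conj (small_initSet hA hU.aleph0_lt c k) h1
      (hc k (Nat.lt_succ_self k))
    refine ⟨τ.comp σ, fun m hm => ?_, fun i hi j => ?_⟩
    · rw [FirstOrder.Language.Equiv.comp_apply, hσ m hm, hτ m (initSet_mono_left _ _ _ hm)]
    · rw [FirstOrder.Language.Equiv.comp_apply]
      rcases Nat.lt_succ_iff_lt_or_eq.1 hi with hi | rfl
      · rw [hσe i hi j, hτ _ (range_subset_initSet A c hi ⟨j, rfl⟩)]
      · exact hτc j

omit [L.Structure U] in
theorem initSet_congr (A : Set U) {c c' : ℕ → γ → U} {i : ℕ} (h : ∀ j < i, c j = c' j) :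
    initSet A c i = initSet A c' i := by
  unfold initSet
  congr 1
  exact Set.iUnion₂_congr fun j hj => by rw [h j hj]

theorem initSet_succ (A : Set U) (c : ℕ → γ → U) (i : ℕ) :
    initSet A c (i + 1) = initSet A c i ∪ Set.range (c i) := by
  unfold initSet
  rw [Set.union_assoc]
  congr 1
  ext m
  simp only [Set.mem_iUnion, Set.mem_union, Nat.lt_succ_iff_lt_or_eq]
  constructor
  · rintro ⟨j, hj | rfl, h⟩
    · exact Or.inl ⟨j, hj, h⟩
    · exact Or.inr h
  · rintro (⟨j, hj, h⟩ | h)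
    · exact ⟨j, Or.inl hj, h⟩
    · exact ⟨i, Or.inr rfl, h⟩

/-- The configurations used in the proof: a Morley sequence `c₀, d₀, …, c_{k-1}, d_{k-1}` of `q`
over `A` on which a conjugate of `ψ` alternates, together with a conjugate of `b` realising
`p₁` over everything. -/
def Config (A : Set U) (b : β → U) (p₁ : GlobalType L U β) (q : GlobalType L U γ)
    (ψ : L.Formula (U ⊕ γ)) (k : ℕ) : Prop :=
  ∃ (σ : U ≃[L] U) (s : ℕ → γ → U), (∀ m ∈ A, σ m = m) ∧
    (∀ j < 2 * k, q.RealizesOver (initSet A s j) (s j)) ∧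
    (∀ i < k, Holds ψ (σ.symm ∘ s (2 * i)) ∧ ¬ Holds ψ (σ.symm ∘ s (2 * i + 1))) ∧
    p₁.RealizesOver (initSet A s (2 * k)) (σ ∘ b)

theorem config_zero {A : Set U} {b : β → U} {p₁ : GlobalType L U β} {q : GlobalType L U γ}
    {ψ : L.Formula (U ⊕ γ)} (hb : p₁.RealizesOver A b) : Config A b p₁ q ψ 0 := by
  obtain ⟨y, -⟩ := q.finitely_satisfiable ∅ (by simp)
  refine ⟨FirstOrder.Language.Equiv.refl L U, fun _ => y, fun m _ => rfl, by simp, by simp, ?_⟩
  have h1 : initSet A (fun _ => y) (2 * 0) = A := by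
    simp [initSet]
  rw [h1]
  exact hb

/-- A conjugate of a formula of an invariant type is realised by a realisation of the type over
the conjugate parameters. -/
theorem holds_conj {p : GlobalType L U α} {A : Set U} (hp : p.InvariantOver A)
    {σ : U ≃[L] U} (hσ : ∀ m ∈ A, σ m = m) {θ : L.Formula (U ⊕ α)} (hθ : θ ∈ p) {B : Set U}
    (hB : σ '' params θ ⊆ B) {x : α → U} (hx : p.RealizesOver B x) :
    Holds θ (σ.symm ∘ x) := by
  have h1 := (hp σ hσ θ).1 hθ
  have h2 := hx _ h1 (over_relabel' _ _ (over_params θ) (by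
    intro a ha m hm
    simp only [Sum.map_inl, Sum.inl.injEq] at hm
    rw [← hm]
    exact hB ⟨a, ha, rfl⟩) (by
    intro a m hm
    simp at hm))
  have h3 := holds_relabel_map (φ := θ) (σ := σ) (a := σ.symm ∘ x)
  have h4 : (σ ∘ (σ.symm ∘ x) : α → U) = x := by
    funext i; exact FirstOrder.Language.Equiv.apply_symm_apply σ _
  rw [h4] at h3
  exact h3.1 h2

theorem comp_symm_apply (σ τ : U ≃[L] U) (x : U) :
    (τ.comp σ).symm x = σ.symm (τ.symm x) := by
  apply (τ.comp σ).injective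
  rw [FirstOrder.Language.Equiv.apply_symm_apply, FirstOrder.Language.Equiv.comp_apply,
    FirstOrder.Language.Equiv.apply_symm_apply, FirstOrder.Language.Equiv.apply_symm_apply]

theorem config_succ (hU : IsMonster L U κ) [Finite α] [Finite β] [Finite γ]
    {p₀ : GlobalType L U α} {p₁ : GlobalType L U β} {q : GlobalType L U γ}
    (h₀ : p₀.IsInvariant κ) {A : Set U} (hA : #A < κ) (hp₀ : p₀.InvariantOver A)
    (hp₁ : p₁.InvariantOver A) (hq : q.InvariantOver A) (h1q : WeaklyOrthogonal p₁ q)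
    {φ : L.Formula (U ⊕ ((α ⊕ β) ⊕ γ))} (hφ : Over A φ) {b : β → U}
    {θ : L.Formula (U ⊕ α)} (hθ : θ ∈ p₀) {ψ : L.Formula (U ⊕ γ)} (hψ : ψ ∈ q)
    (hdec : ∀ a c, Holds θ a → Holds ψ c → Holds φ (Sum.elim (Sum.elim a b) c))
    {r : GlobalType L U ((α ⊕ β) ⊕ γ)} (hr : φ.not ∈ r)
    (hr₀ : ∀ χ ∈ tensor hU p₀ h₀ p₁, χ.relabel (Sum.map id Sum.inl) ∈ r)
    (hrq : ∀ χ ∈ q, χ.relabel (Sum.map id Sum.inr) ∈ r) {k : ℕ}
    (hk : Config A b p₁ q ψ k) : Config A b p₁ q ψ (k + 1) := by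
  obtain ⟨σ, s, hσ, hs, hψs, hb⟩ := hk
  have hSk := small_initSet hA hU.aleph0_lt s (2 * k)
  -- the next element `c` of the sequence
  obtain ⟨c, hc⟩ := hU.exists_realizesOver q (hU.small_union (hU.small_union hSk
    (hU.small_range (σ ∘ b))) (hU.small_finite ((params_finite ψ).image σ)))
  have hψc : Holds ψ (σ.symm ∘ c) := holds_conj hq hσ hψ Set.subset_union_right hc
  have hbc : p₁.RealizesOver (initSet A s (2 * k) ∪ Set.range c) (σ ∘ b) :=
    realizesOver_comm hU h1q hp₁ hq hSk (initSet_mono_left _ _ _) hb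
      (hc.mono Set.subset_union_left)
  obtain ⟨M, hM, hBM, hMB⟩ := exists_base hU h1q (hU.small_union hSk (hU.small_range c))
  have hAM : A ⊆ M := (initSet_mono_left A s (2 * k)).trans (Set.subset_union_left.trans hBM)
  -- realise the restriction of `r` to `M`
  obtain ⟨z, hz⟩ := hU.exists_realizesOver r hM
  set x₀ : α → U := fun i => z (Sum.inl (Sum.inl i)) with hx₀
  set x₁ : β → U := fun i => z (Sum.inl (Sum.inr i)) with hx₁
  set y : γ → U := fun i => z (Sum.inr i) with hy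
  have hzsplit : Sum.elim (Sum.elim x₀ x₁) y = z := by
    funext i; rcases i with (i | i) | i <;> rfl
  have hφz : ¬ Holds φ (Sum.elim (Sum.elim x₀ x₁) y) := by
    rw [hzsplit, ← holds_not]
    refine hz _ hr ?_
    intro m hm
    exact hAM (hφ m (by simpa [Formula.not] using hm))
  have hten : (tensor hU p₀ h₀ p₁).RealizesOver M (z ∘ Sum.inl) := by
    intro χ hχ hχo
    rw [← holds_relabel_inl]
    exact hz _ (hr₀ χ hχ) (over_relabel' _ _ hχo (by
      intro a ha m hm
      simp only [Sum.map_inl, id, Sum.inl.injEq] at hm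
      exact hm ▸ ha) (by
      intro a m hm
      simp at hm))
  obtain ⟨hx₁M, hx₀M⟩ := realizesOver_tensor hU h₀ hM (hp₀.mono hAM) hten
  have hyM : q.RealizesOver M y := by
    intro χ hχ hχo
    have := hz _ (hrq χ hχ) (over_relabel' _ _ hχo (by
      intro a ha m hm
      simp only [Sum.map_inl, id, Sum.inl.injEq] at hm
      exact hm ▸ ha) (by
      intro a m hm
      simp at hm))
    rwa [holds_relabel_inr] at this
  change p₁.RealizesOver M x₁ at hx₁M
  change p₀.RealizesOver (M ∪ Set.range x₁) x₀ at hx₀M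
  -- move `σ b` to `x₁`
  obtain ⟨τ, hτ, hτb⟩ := hU.conj (hU.small_union hSk (hU.small_range c)) hbc (hx₁M.mono hBM)
  have hτA : ∀ m ∈ A, τ m = m := fun m hm => hτ m (Or.inl (initSet_mono_left _ _ _ hm))
  obtain ⟨x₀', hx₀'⟩ := hU.exists_realizesOver p₀ (hU.small_union (hU.small_union hM
    (hU.small_range x₁)) (hU.small_finite ((params_finite θ).image (τ.comp σ))))
  obtain ⟨ρ, hρ, hρx⟩ := hU.conj (hU.small_union hM (hU.small_range x₁))
    (hx₀'.mono Set.subset_union_left) hx₀M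
  have hρA : ∀ m ∈ A, ρ m = m := fun m hm => hρ m (Or.inl (hAM hm))
  have hθx₀' : Holds θ ((τ.comp σ).symm ∘ x₀') := holds_conj hp₀ (by
    intro m hm
    rw [FirstOrder.Language.Equiv.comp_apply, hσ m hm, hτA m hm]) hθ Set.subset_union_right hx₀'
  set σ' : U ≃[L] U := ρ.comp (τ.comp σ) with hσ'def
  have hσ'A : ∀ m ∈ A, σ' m = m := by
    intro m hm
    rw [hσ'def, FirstOrder.Language.Equiv.comp_apply, FirstOrder.Language.Equiv.comp_apply,
      hσ m hm, hτA m hm, hρA m hm]
  have hσ'symm : ∀ m, σ'.symm m = σ.symm (τ.symm (ρ.symm m)) := by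
    intro m
    rw [hσ'def, comp_symm_apply, comp_symm_apply]
  have hθx₀ : Holds θ (σ'.symm ∘ x₀) := by
    have : (σ'.symm ∘ x₀ : α → U) = (τ.comp σ).symm ∘ x₀' := by
      funext i
      simp only [Function.comp_apply]
      rw [hσ'def, comp_symm_apply, ← hρx i, FirstOrder.Language.Equiv.symm_apply_apply]
    rw [this]
    exact hθx₀'
  have hσ'b : ∀ i, σ' (b i) = x₁ i := by
    intro i
    rw [hσ'def, FirstOrder.Language.Equiv.comp_apply, FirstOrder.Language.Equiv.comp_apply]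
    have := hτb i
    simp only [Function.comp_apply] at this
    rw [this]
    exact hρ _ (Or.inr ⟨i, rfl⟩)
  have hψy : ¬ Holds ψ (σ'.symm ∘ y) := by
    intro h
    apply hφz
    have h1 := hdec _ _ hθx₀ h
    have h2 := (holds_iff_of_fix hσ'A hφ).2 h1
    have h3 : (σ' ∘ Sum.elim (Sum.elim (σ'.symm ∘ x₀) b) (σ'.symm ∘ y) :
        (α ⊕ β) ⊕ γ → U) = Sum.elim (Sum.elim x₀ x₁) y := by
      funext i
      rcases i with (i | i) | i
      · exact FirstOrder.Language.Equiv.apply_symm_apply σ' _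
      · exact hσ'b i
      · exact FirstOrder.Language.Equiv.apply_symm_apply σ' _
    rwa [h3] at h2
  -- elements of `B` are fixed by `ρ` and `τ`
  have hfix : ∀ m ∈ initSet A s (2 * k) ∪ Set.range c, σ'.symm m = σ.symm m := by
    intro m hm
    rw [hσ'symm, symm_fix hρ m (Or.inl (hBM hm)), symm_fix hτ m hm]
  set s' : ℕ → γ → U := Function.update (Function.update s (2 * k) c) (2 * k + 1) y with hs'
  have hs'1 : ∀ j < 2 * k, s' j = s j := by
    intro j hj
    rw [hs', Function.update_of_ne (by omega), Function.update_of_ne (by omega)]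
  have hs'2 : s' (2 * k) = c := by
    rw [hs', Function.update_of_ne (by omega), Function.update_self]
  have hs'3 : s' (2 * k + 1) = y := by
    rw [hs', Function.update_self]
  have hinit : ∀ j ≤ 2 * k, initSet A s' j = initSet A s j := by
    intro j hj
    exact initSet_congr A fun i hi => hs'1 i (lt_of_lt_of_le hi hj)
  have hinit1 : initSet A s' (2 * k + 1) = initSet A s (2 * k) ∪ Set.range c := by
    rw [initSet_succ, hinit _ le_rfl, hs'2]
  refine ⟨σ', s', hσ'A, ?_, ?_, ?_⟩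
  · intro j hj
    rcases lt_trichotomy j (2 * k) with h | h | h
    · rw [hinit j h.le, hs'1 j h]
      exact hs j h
    · subst h
      rw [hinit _ le_rfl, hs'2]
      exact hc.mono (Set.subset_union_left.trans Set.subset_union_left)
    · have : j = 2 * k + 1 := by omega
      subst this
      rw [hinit1, hs'3]
      exact hyM.mono hBM
  · intro i hi
    rcases Nat.lt_succ_iff_lt_or_eq.1 hi with hi | rfl
    · rw [hs'1 _ (by omega), hs'1 _ (by omega)]
      have e1 : (σ'.symm ∘ s (2 * i) : γ → U) = σ.symm ∘ s (2 * i) := by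
        funext j
        exact hfix _ (Or.inl (range_subset_initSet A s (by omega) ⟨j, rfl⟩))
      have e2 : (σ'.symm ∘ s (2 * i + 1) : γ → U) = σ.symm ∘ s (2 * i + 1) := by
        funext j
        exact hfix _ (Or.inl (range_subset_initSet A s (by omega) ⟨j, rfl⟩))
      rw [e1, e2]
      exact hψs i hi
    · rw [hs'2, hs'3]
      have e1 : (σ'.symm ∘ c : γ → U) = σ.symm ∘ c := by
        funext j
        exact hfix _ (Or.inr ⟨j, rfl⟩)
      rw [e1]
      exact ⟨hψc, hψy⟩
  · have h5 : initSet A s' (2 * (k + 1)) = (initSet A s (2 * k) ∪ Set.range c) ∪ Set.range y := by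
      rw [show 2 * (k + 1) = (2 * k + 1) + 1 by ring, initSet_succ, hinit1, hs'3]
    rw [h5]
    have h6 : (σ' ∘ b : β → U) = x₁ := funext hσ'b
    rw [h6]
    exact hMB x₁ y hx₁M hyM

theorem hasIP_of_config (hU : IsMonster L U κ) [Finite γ] {A : Set U} (hA : #A < κ) {b : β → U}
    {p₁ : GlobalType L U β} {q : GlobalType L U γ} (hq : q.InvariantOver A)
    {ψ : L.Formula (U ⊕ γ)} (h : ∀ k, Config A b p₁ q ψ k) :
    ∃ (m : ℕ) (ψ' : L.Formula (γ ⊕ Fin m)), HasIP U ψ' := by
  obtain ⟨m, n, hn⟩ : ∃ (m : ℕ) (n : Fin m → U), Set.range n = params ψ := by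
    have hf := (params_finite ψ).to_subtype
    obtain ⟨m, ⟨e⟩⟩ := Finite.exists_equiv_fin (params ψ)
    refine ⟨m, fun i => (e.symm i).1, ?_⟩
    ext x
    constructor
    · rintro ⟨i, rfl⟩
      exact (e.symm i).2
    · intro hx
      exact ⟨e ⟨x, hx⟩, by simp⟩
  obtain ⟨χ, hχ⟩ := exists_formula_tuple n (B := params ψ) (by rw [hn]) (over_params ψ)
  refine ⟨m, χ.relabel Sum.swap, ?_⟩
  intro k
  obtain ⟨σ, s, hσ, hs, hψs, -⟩ := h k
  have key : ∀ S : Set (Fin k), ∃ ρ : U ≃[L] U, ∀ i : Fin k, (i ∈ S → ∀ j, ρ (s (2 * i) j) =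
      s (2 * i) j) ∧ (i ∉ S → ∀ j, ρ (s (2 * i + 1) j) = s (2 * i) j) := by
    classical
    intro S
    obtain ⟨e, he⟩ : ∃ e : ℕ → γ → U, e = fun i => if h : i < k then
      (if (⟨i, h⟩ : Fin k) ∈ S then s (2 * i) else s (2 * i + 1)) else s (2 * i) := ⟨_, rfl⟩
    have he1 : ∀ i : Fin k, i ∈ S → e i = s (2 * i) := by
      intro i hi; rw [he]; simp [hi]
    have he2 : ∀ i : Fin k, i ∉ S → e i = s (2 * i + 1) := by
      intro i hi; rw [he]; simp [hi]
    have he3 : ∀ i, i < k → initSet A e i ⊆ initSet A s (2 * i) := by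
      intro i hi
      refine Set.union_subset (initSet_mono_left _ _ _) ?_
      refine Set.iUnion₂_subset fun j hj => ?_
      by_cases hjS : (⟨j, hj.trans hi⟩ : Fin k) ∈ S
      · have := he1 ⟨j, hj.trans hi⟩ hjS
        simp only at this
        rw [this]
        exact range_subset_initSet A s (by omega)
      · have := he2 ⟨j, hj.trans hi⟩ hjS
        simp only at this
        rw [this]
        exact range_subset_initSet A s (by omega)
    obtain ⟨ρ, -, hρ⟩ := morley_conj hU hA hq e (fun i => s (2 * i)) k (by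
          intro i hi
          by_cases hiS : (⟨i, hi⟩ : Fin k) ∈ S
          · have := he1 ⟨i, hi⟩ hiS
            simp only at this
            rw [this]
            exact (hs (2 * i) (by omega)).mono (he3 i hi)
          · have := he2 ⟨i, hi⟩ hiS
            simp only at this
            rw [this]
            exact (hs (2 * i + 1) (by omega)).mono ((he3 i hi).trans
              (initSet_mono A s (by omega)))) (by
          intro i hi
          refine (hs (2 * i) (by omega)).mono ?_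
          refine Set.union_subset (initSet_mono_left _ _ _) ?_
          refine Set.iUnion₂_subset fun j hj => ?_
          exact range_subset_initSet A s (by omega))
    refine ⟨ρ, fun i => ⟨fun hi j => ?_, fun hi j => ?_⟩⟩
    · have := hρ i i.2 j
      rwa [he1 i hi] at this
    · have := hρ i i.2 j
      rwa [he2 i hi] at this
  choose ρ hρ using key
  refine ⟨fun i => s (2 * i), fun S => (ρ S).comp σ ∘ n, fun i S => ?_⟩
  rw [Formula.realize_relabel]
  have e1 : (Sum.elim (s (2 * i)) ((ρ S).comp σ ∘ n) ∘ Sum.swap : Fin m ⊕ γ → U) =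
      (ρ S).comp σ ∘ Sum.elim n (((ρ S).comp σ).symm ∘ s (2 * i)) := by
    funext x
    rcases x with x | x
    · rfl
    · exact (FirstOrder.Language.Equiv.apply_symm_apply _ _).symm
  rw [e1, StrongHomClass.realize_formula, hχ]
  by_cases hi : i ∈ S
  · have e2 : (((ρ S).comp σ).symm ∘ s (2 * i) : γ → U) = σ.symm ∘ s (2 * i) := by
      funext j
      simp only [Function.comp_apply]
      rw [comp_symm_apply]
      congr 1
      have := (hρ S i).1 hi j
      rw [← this, FirstOrder.Language.Equiv.symm_apply_apply, this]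
    rw [e2]
    exact ⟨fun _ => hi, fun _ => (hψs i i.2).1⟩
  · have e2 : (((ρ S).comp σ).symm ∘ s (2 * i) : γ → U) = σ.symm ∘ s (2 * i + 1) := by
      funext j
      simp only [Function.comp_apply]
      rw [comp_symm_apply]
      congr 1
      have := (hρ S i).2 hi j
      rw [← this, FirstOrder.Language.Equiv.symm_apply_apply]
    rw [e2]
    exact ⟨fun h => absurd h (hψs i i.2).2, fun h => absurd h hi⟩

theorem main_aux (hU : IsMonster L U κ) (hNIP : ∀ (α β : Type) [Finite α] [Finite β]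
    (φ : L.Formula (α ⊕ β)), ¬ HasIP U φ) [Finite α] [Finite β] [Finite γ]
    {p₀ : GlobalType L U α} {p₁ : GlobalType L U β} {q : GlobalType L U γ}
    (h₀ : p₀.IsInvariant κ) {A : Set U} (hA : #A < κ) (hp₀ : p₀.InvariantOver A)
    (hp₁ : p₁.InvariantOver A) (hq : q.InvariantOver A) (h1q : WeaklyOrthogonal p₁ q)
    {φ : L.Formula (U ⊕ ((α ⊕ β) ⊕ γ))} (hφ : Over A φ) {b : β → U} (hb : p₁.RealizesOver A b)
    {θ : L.Formula (U ⊕ α)} (hθ : θ ∈ p₀) {ψ : L.Formula (U ⊕ γ)} (hψ : ψ ∈ q)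
    (hdec : ∀ a c, Holds θ a → Holds ψ c → Holds φ (Sum.elim (Sum.elim a b) c))
    {r : GlobalType L U ((α ⊕ β) ⊕ γ)}
    (hr₀ : ∀ χ ∈ tensor hU p₀ h₀ p₁, χ.relabel (Sum.map id Sum.inl) ∈ r)
    (hrq : ∀ χ ∈ q, χ.relabel (Sum.map id Sum.inr) ∈ r) : φ ∈ r := by
  by_contra hr
  have hr' : φ.not ∈ r := GlobalType.not_mem_iff.2 hr
  have hk : ∀ k, Config A b p₁ q ψ k := by
    intro k
    induction k with
    | zero => exact config_zero hb
    | succ k ih =>
      exact config_succ hU h₀ hA hp₀ hp₁ hq h1q hφ hθ hψ hdec hr' hr₀ hrq ih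
  obtain ⟨m, ψ', hψ'⟩ := hasIP_of_config hU hA hq hk
  exact hNIP _ _ ψ' hψ'

/-- In a NIP theory weak orthogonality is preserved under tensor products. -/
theorem weaklyOrthogonal_tensor (hU : IsMonster L U κ) (hNIP : ∀ (α β : Type) [Finite α]
    [Finite β] (φ : L.Formula (α ⊕ β)), ¬ HasIP U φ) [Finite α] [Finite β] [Finite γ]
    (p₀ : GlobalType L U α) (p₁ : GlobalType L U β) (q : GlobalType L U γ)
    (h₀ : p₀.IsInvariant κ) (h₁ : p₁.IsInvariant κ) (hq : q.IsInvariant κ)
    (h0q : WeaklyOrthogonal p₀ q) (h1q : WeaklyOrthogonal p₁ q) :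
    WeaklyOrthogonal (tensor hU p₀ h₀ p₁) q := by
  classical
  rw [weaklyOrthogonal_iff]
  intro φ
  by_contra hcon
  push Not at hcon
  obtain ⟨hn1, hn2⟩ := hcon
  obtain ⟨r, hr, hr₀, hrq⟩ := exists_completion (p := tensor hU p₀ h₀ p₁) (q := q) φ.not (by
    intro θ hθ ψ hψ
    obtain ⟨a, b, ha, hb, hab⟩ := hn1 θ hθ ψ hψ
    exact ⟨a, b, ha, hb, holds_not.2 hab⟩)
  obtain ⟨r', hr', hr'₀, hr'q⟩ := exists_completion (p := tensor hU p₀ h₀ p₁) (q := q) φ (by
    intro θ hθ ψ hψ
    obtain ⟨a, b, ha, hb, hab⟩ := hn2 θ hθ ψ hψ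
    exact ⟨a, b, ha, hb, hab⟩)
  obtain ⟨A₀, hA₀, hp₀⟩ := id h₀
  obtain ⟨A₁, hA₁, hp₁⟩ := id h₁
  obtain ⟨A₂, hA₂, hq₂⟩ := id hq
  obtain ⟨A₃, hA₃, hφ₃⟩ := exists_small_over hU {φ, φ.not}
  have hA := hU.small_union (hU.small_union hA₀ hA₁) (hU.small_union hA₂ hA₃)
  obtain ⟨A, hAdef⟩ : ∃ A : Set U, A = (A₀ ∪ A₁) ∪ (A₂ ∪ A₃) := ⟨_, rfl⟩
  rw [← hAdef] at hA
  have hp₀A : p₀.InvariantOver A := hp₀.mono (by rw [hAdef]; intro x hx; simp [hx])
  have hp₁A : p₁.InvariantOver A := hp₁.mono (by rw [hAdef]; intro x hx; simp [hx])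
  have hqA : q.InvariantOver A := hq₂.mono (by rw [hAdef]; intro x hx; simp [hx])
  have hφA : Over A φ := (hφ₃ φ (by simp)).mono (by rw [hAdef]; intro x hx; simp [hx])
  have hφA' : Over A φ.not := (hφ₃ φ.not (by simp)).mono (by rw [hAdef]; intro x hx; simp [hx])
  obtain ⟨b, hb⟩ := hU.exists_realizesOver p₁ hA
  -- the formula `φ(x₀, b, y)`
  let g : U ⊕ ((α ⊕ β) ⊕ γ) → U ⊕ (α ⊕ γ) := Sum.elim Sum.inl
    (Sum.elim (Sum.elim (fun i => Sum.inr (Sum.inl i)) (fun j => Sum.inl (b j)))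
      (fun i => Sum.inr (Sum.inr i)))
  have hg : ∀ a c, Holds (φ.relabel g) (Sum.elim a c) ↔
      Holds φ (Sum.elim (Sum.elim a b) c) := by
    intro a c
    unfold Holds
    rw [Formula.realize_relabel]
    have : (Sum.elim id (Sum.elim a c) ∘ g : U ⊕ ((α ⊕ β) ⊕ γ) → U) =
        Sum.elim id (Sum.elim (Sum.elim a b) c) := by
      funext x
      rcases x with x | (x | x) | x <;> rfl
    rw [this]
  rcases weaklyOrthogonal_iff.1 h0q (φ.relabel g) with ⟨θ, hθ, ψ, hψ, hd⟩ | ⟨θ, hθ, ψ, hψ, hd⟩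
  · have := main_aux hU hNIP h₀ hA hp₀A hp₁A hqA h1q hφA hb hθ hψ
      (fun a c ha hc => (hg a c).1 (hd a c ha hc)) hr₀ hrq
    exact GlobalType.not_both this hr
  · have := main_aux hU hNIP h₀ hA hp₀A hp₁A hqA h1q hφA' hb hθ hψ
      (fun a c ha hc => holds_not.2 fun h => hd a c ha hc ((hg a c).2 h)) hr'₀ hr'q
    exact GlobalType.not_both hr' this

end Pool.Agent.WeakOrth
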