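import Mathlib

open Cardinal

namespace Pool.Agent.WeakOrth

/-- Codes for one-point extensions over an initial segment of the ordinals: a sort, a set of
neighbours and a set of pairs. -/
abbrev Code : Type 1 := Σ β : Ordinal.{0}, Fin 4 × Set (Set.Iio β) × Set (Set.Iio β × Set.Iio β)

theorem small_lt_univ {α : Type 1} [h : Small.{0} α] : #α < Cardinal.univ.{0, 1} := by
  have := small_iff_lift_mk_lt_univ.1 h
  simpa using this

theorem small_of_lt_univ {α : Type 1} (h : #α < Cardinal.univ.{0, 1}) : Small.{0} α := by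
  apply small_iff_lift_mk_lt_univ.2
  simpa using h

theorem mk_code_le : #Code ≤ Cardinal.univ.{0, 1} := by
  rw [mk_sigma]
  refine (sum_le_mk_mul_iSup _).trans ?_
  rw [mk_ordinal]
  have h : (⨆ β : Ordinal.{0}, #(Fin 4 × Set (Set.Iio β) × Set (Set.Iio β × Set.Iio β))) ≤
      Cardinal.univ.{0, 1} := by
    refine ciSup_le' fun β => ?_
    have : Small.{0} (Fin 4 × Set (Set.Iio β) × Set (Set.Iio β × Set.Iio β)) := inferInstance
    exact small_lt_univ.le
  exact (mul_le_mul_right h _).trans (mul_eq_self aleph0_lt_univ.le).le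

theorem exists_enum : ∃ c : Ordinal.{0} → Code, ∀ (x : Code) (δ : Ordinal.{0}),
    ∃ α, δ ≤ α ∧ c α = x := by
  have h1 : #(Code × Ordinal.{0}) ≤ #(Ordinal.{0}) := by
    rw [mk_prod, mk_ordinal]
    simp only [lift_id]
    exact (mul_le_mul_left mk_code_le _).trans (mul_eq_self aleph0_lt_univ.le).le
  obtain ⟨g⟩ := h1
  have hne : Nonempty (Code × Ordinal.{0}) := ⟨⟨0, 0, ∅, ∅⟩, 0⟩
  let f : Ordinal.{0} → Code × Ordinal.{0} := Function.invFun g
  have hf : Function.LeftInverse f g := Function.leftInverse_invFun g.injective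
  refine ⟨fun α => (f α).1, fun x δ => ?_⟩
  by_contra hcon
  push Not at hcon
  -- all preimages of `x` are below `δ`
  have h2 : ∀ ε : Ordinal.{0}, g (x, ε) < δ := by
    intro ε
    by_contra h
    exact hcon (g (x, ε)) (not_lt.1 h) (by simp only [hf (x, ε)])
  have h3 : Function.Injective (fun ε : Ordinal.{0} => (⟨g (x, ε), h2 ε⟩ : Set.Iio δ)) := by
    intro a b hab
    have : g (x, a) = g (x, b) := congrArg Subtype.val hab
    exact (Prod.mk.inj (g.injective this)).2
  have h4 : Small.{0} Ordinal.{0} := small_of_injective h3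
  have h5 := small_lt_univ (α := Ordinal.{0})
  rw [mk_ordinal] at h5
  exact lt_irrefl _ h5

/-- A structure with four sorts, a binary relation `R` and a ternary relation `H`. -/
structure GStr (X : Type*) where
  s : X → Fin 4
  R : X → X → Prop
  H : X → X → X → Prop

/-- The pairs of sorts between which edges are allowed: `01, 03, 13, 23`. -/
def Allowed (i j : Fin 4) : Prop :=
  (i = 0 ∧ j = 1) ∨ (i = 1 ∧ j = 0) ∨ (i = 0 ∧ j = 3) ∨ (i = 3 ∧ j = 0) ∨
  (i = 1 ∧ j = 3) ∨ (i = 3 ∧ j = 1) ∨ (i = 2 ∧ j = 3) ∨ (i = 3 ∧ j = 2)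

theorem Allowed.symm {i j : Fin 4} (h : Allowed i j) : Allowed j i := by
  unfold Allowed at *
  tauto

theorem not_allowed_self (i : Fin 4) : ¬ Allowed i i := by
  unfold Allowed
  revert i
  decide

/-- The axioms of the class. -/
structure GStr.Ax {X : Type*} (S : GStr X) : Prop where
  symm : ∀ x y, S.R x y → S.R y x
  allowed : ∀ x y, S.R x y → Allowed (S.s x) (S.s y)
  hyp : ∀ x y z, S.H x y z → S.s x = 0 ∧ S.s y = 1 ∧ S.s z = 2 ∧ S.R x y
  free : ∀ x y z d, S.H x y z → S.R x d → S.R y d → S.R z d → False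

/-- The structure induced along a map. -/
def GStr.comap {X Y : Type*} (f : X → Y) (S : GStr Y) : GStr X where
  s := fun x => S.s (f x)
  R := fun x y => S.R (f x) (f y)
  H := fun x y z => S.H (f x) (f y) (f z)

theorem GStr.Ax.comap {X Y : Type*} {S : GStr Y} (h : S.Ax) (f : X → Y) : (S.comap f).Ax where
  symm := fun _ _ => h.symm _ _
  allowed := fun _ _ => h.allowed _ _
  hyp := fun _ _ _ => h.hyp _ _ _
  free := fun _ _ _ _ => h.free _ _ _ _

/-- Two structures on the same set agree. -/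
def Agree {X : Type*} (S S' : GStr X) : Prop :=
  (∀ x, S.s x = S'.s x) ∧ (∀ x y, S.R x y ↔ S'.R x y) ∧ (∀ x y z, S.H x y z ↔ S'.H x y z)

theorem Agree.symm {X : Type*} {S S' : GStr X} (h : Agree S S') : Agree S' S :=
  ⟨fun x => (h.1 x).symm, fun x y => (h.2.1 x y).symm, fun x y z => (h.2.2 x y z).symm⟩

theorem Agree.trans {X : Type*} {S S' S'' : GStr X} (h : Agree S S') (h' : Agree S' S'') :
    Agree S S'' :=
  ⟨fun x => (h.1 x).trans (h'.1 x), fun x y => (h.2.1 x y).trans (h'.2.1 x y),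
    fun x y z => (h.2.2 x y z).trans (h'.2.2 x y z)⟩

theorem Agree.comap {X Y : Type*} {S S' : GStr Y} (h : Agree S S') (f : X → Y) :
    Agree (S.comap f) (S'.comap f) :=
  ⟨fun _ => h.1 _, fun _ _ => h.2.1 _ _, fun _ _ _ => h.2.2 _ _ _⟩

section Build

variable (c : Ordinal.{0} → Code)

/-- sort of an ordinal -/
def osort (α : Ordinal.{0}) : Fin 4 := (c α).2.1

/-- raw neighbourhood -/
def onbr (α x : Ordinal.{0}) : Prop := ∃ h : x < (c α).1, (⟨x, h⟩ : Set.Iio (c α).1) ∈ (c α).2.2.1

/-- raw pairs -/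
def opair (α x y : Ordinal.{0}) : Prop :=
  ∃ (h : x < (c α).1) (h' : y < (c α).1),
    ((⟨x, h⟩, ⟨y, h'⟩) : Set.Iio (c α).1 × Set.Iio (c α).1) ∈ (c α).2.2.2

/-- raw edges -/
def oedge (u v : Ordinal.{0}) : Prop :=
  Allowed (osort c u) (osort c v) ∧ ((v < u ∧ onbr c u v) ∨ (u < v ∧ onbr c v u))

/-- raw hyperedges -/
def ohyp (u v w : Ordinal.{0}) : Prop :=
  osort c u = 0 ∧ osort c v = 1 ∧ osort c w = 2 ∧ oedge c u v ∧
  ((v < u ∧ w < u ∧ opair c u v w) ∨ (u < v ∧ w < v ∧ opair c v u w) ∨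
    (u < w ∧ v < w ∧ opair c w u v))

/-- the raw structure on the ordinals -/
def ostr : GStr Ordinal.{0} where
  s := osort c
  R := oedge c
  H := ohyp c

/-- A bad quadruple. -/
def Bad (u v w d : Ordinal.{0}) : Prop := ohyp c u v w ∧ oedge c u d ∧ oedge c v d ∧ oedge c w d

/-- Validity, defined by recursion. -/
def Valid : Ordinal.{0} → Prop :=
  WellFounded.fix (C := fun _ => Prop) (r := ((· < ·) : Ordinal.{0} → Ordinal.{0} → Prop))
    wellFounded_lt fun α ih => ∀ u v w d : Ordinal.{0}, u ≤ α → v ≤ α → w ≤ α → d ≤ α →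
      (∀ h : u < α, ih u h) → (∀ h : v < α, ih v h) → (∀ h : w < α, ih w h) →
      (∀ h : d < α, ih d h) → ¬ Bad c u v w d

theorem valid_iff (α : Ordinal.{0}) : Valid c α ↔
    ∀ u v w d : Ordinal.{0}, u ≤ α → v ≤ α → w ≤ α → d ≤ α →
      (u < α → Valid c u) → (v < α → Valid c v) → (w < α → Valid c w) →
      (d < α → Valid c d) → ¬ Bad c u v w d := by
  unfold Valid
  rw [WellFounded.fix_eq]

/-- The universe of the generic structure. -/
def GU : Type 1 := {α : Ordinal.{0} // Valid c α}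

theorem not_bad {u v w d : Ordinal.{0}} (hu : Valid c u) (hv : Valid c v) (hw : Valid c w)
    (hd : Valid c d) : ¬ Bad c u v w d := by
  rcases le_total u v with h1 | h1 <;> rcases le_total w d with h2 | h2
  · rcases le_total v d with h3 | h3
    · exact (valid_iff c d).1 hd u v w d (h1.trans h3) h3 h2 le_rfl (fun _ => hu) (fun _ => hv)
        (fun _ => hw) (fun _ => hd)
    · exact (valid_iff c v).1 hv u v w d h1 le_rfl (h2.trans h3) h3 (fun _ => hu) (fun _ => hv)
        (fun _ => hw) (fun _ => hd)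
  · rcases le_total v w with h3 | h3
    · exact (valid_iff c w).1 hw u v w d (h1.trans h3) h3 le_rfl h2 (fun _ => hu) (fun _ => hv)
        (fun _ => hw) (fun _ => hd)
    · exact (valid_iff c v).1 hv u v w d h1 le_rfl h3 (h2.trans h3) (fun _ => hu) (fun _ => hv)
        (fun _ => hw) (fun _ => hd)
  · rcases le_total u d with h3 | h3
    · exact (valid_iff c d).1 hd u v w d h3 (h1.trans h3) h2 le_rfl (fun _ => hu) (fun _ => hv)
        (fun _ => hw) (fun _ => hd)
    · exact (valid_iff c u).1 hu u v w d le_rfl h1 (h2.trans h3) h3 (fun _ => hu) (fun _ => hv)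
        (fun _ => hw) (fun _ => hd)
  · rcases le_total u w with h3 | h3
    · exact (valid_iff c w).1 hw u v w d h3 (h1.trans h3) le_rfl h2 (fun _ => hu) (fun _ => hv)
        (fun _ => hw) (fun _ => hd)
    · exact (valid_iff c u).1 hu u v w d le_rfl h1 h3 (h2.trans h3) (fun _ => hu) (fun _ => hv)
        (fun _ => hw) (fun _ => hd)

/-- The generic structure. -/
def gstr : GStr (GU c) := (ostr c).comap (fun x => x.1)

theorem gstr_ax : (gstr c).Ax where
  symm := by
    rintro x y ⟨h1, h2⟩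
    exact ⟨h1.symm, h2.symm⟩
  allowed := fun x y h => h.1
  hyp := fun x y z h => ⟨h.1, h.2.1, h.2.2.1, h.2.2.2.1⟩
  free := fun x y z d h1 h2 h3 h4 => not_bad c x.2 y.2 z.2 d.2 ⟨h1, h2, h3, h4⟩

/-- The evaluation map of a one-point extension. -/
def ev {X : Type*} (B : Set X) (v : X) : Option B → X
  | none => v
  | some b => b.1

theorem ep (hc : ∀ (x : Code) (δ : Ordinal.{0}), ∃ α, δ ≤ α ∧ c α = x) (B : Set (GU c))
    (hB : ∃ β : Ordinal.{0}, ∀ b ∈ B, b.1 < β) (S : GStr (Option B)) (hS : S.Ax)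
    (hsub : Agree (S.comap some) ((gstr c).comap (fun b : B => b.1))) :
    ∃ v : GU c, v ∉ B ∧ Agree S ((gstr c).comap (ev B v)) := by
  obtain ⟨β, hβ⟩ := hB
  obtain ⟨α, hα, hcα⟩ := hc ⟨β, (S.s none,
    {x | ∃ b : B, b.1.1 = x.1 ∧ S.R none (some b)},
    {x | ∃ b b' : B, b.1.1 = x.1.1 ∧ b'.1.1 = x.2.1 ∧ (S.H none (some b) (some b') ∨
      S.H (some b) none (some b') ∨ S.H (some b) (some b') none)})⟩ β
  have hlt : ∀ b : B, b.1.1 < α := fun b => (hβ b.1 b.2).trans_le hα
  have hsα : osort c α = S.s none := by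
    unfold osort; rw [hcα]
  have hnbr : ∀ x, onbr c α x ↔ ∃ b : B, b.1.1 = x ∧ S.R none (some b) := by
    intro x
    unfold onbr
    rw [hcα]
    constructor
    · rintro ⟨h, b, hb, hR⟩
      exact ⟨b, hb, hR⟩
    · rintro ⟨b, rfl, hR⟩
      exact ⟨hβ b.1 b.2, b, rfl, hR⟩
  have hpair : ∀ x y, opair c α x y ↔ ∃ b b' : B, b.1.1 = x ∧ b'.1.1 = y ∧
      (S.H none (some b) (some b') ∨
      S.H (some b) none (some b') ∨ S.H (some b) (some b') none) := by
    intro x y
    unfold opair
    rw [hcα]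
    constructor
    · rintro ⟨h, h', b, b', hb, hb', hH⟩
      exact ⟨b, b', hb, hb', hH⟩
    · rintro ⟨b, b', rfl, rfl, hH⟩
      exact ⟨hβ b.1 b.2, hβ b'.1 b'.2, b, b', rfl, rfl, hH⟩
  have hinj : ∀ b b' : B, b.1.1 = b'.1.1 → b = b' := by
    intro b b' h
    exact Subtype.ext (Subtype.ext h)
  let j : Option B → Ordinal.{0} := fun o => o.elim α (fun b => b.1.1)
  have hjs : ∀ o, osort c (j o) = S.s o := by
    intro o
    rcases o with _ | b
    · exact hsα
    · exact (hsub.1 b).symm
  have hedge : ∀ b : B, oedge c α b.1.1 ↔ S.R none (some b) := by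
    intro b
    constructor
    · rintro ⟨-, ⟨-, h⟩ | ⟨h, -⟩⟩
      · obtain ⟨b', hb', h⟩ := (hnbr _).1 h
        rwa [hinj b' b hb'] at h
      · exact absurd h (hlt b).asymm
    · intro h
      refine ⟨?_, Or.inl ⟨hlt b, (hnbr _).2 ⟨b, rfl, h⟩⟩⟩
      have := hS.allowed _ _ h
      rw [← hjs, ← hjs] at this
      exact this
  have hoedge_symm : ∀ x y, oedge c x y → oedge c y x := by
    rintro x y ⟨h1, h2⟩
    exact ⟨h1.symm, h2.symm⟩
  have hR : ∀ o o', oedge c (j o) (j o') ↔ S.R o o' := by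
    intro o o'
    rcases o with _ | b <;> rcases o' with _ | b'
    · constructor
      · intro h; exact absurd h.1 (not_allowed_self _)
      · intro h; exact absurd (hS.allowed _ _ h) (not_allowed_self _)
    · exact hedge b'
    · constructor
      · intro h; exact hS.symm _ _ ((hedge b).1 (hoedge_symm _ _ h))
      · intro h; exact hoedge_symm _ _ ((hedge b).2 (hS.symm _ _ h))
    · exact (hsub.2.1 b b').symm
  have hH : ∀ o o' o'', ohyp c (j o) (j o') (j o'') ↔ S.H o o' o'' := by
    have sor : ∀ {x y z : Option B}, S.H x y z → S.s x = 0 ∧ S.s y = 1 ∧ S.s z = 2 := by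
      intro x y z h
      have := hS.hyp _ _ _ h
      exact ⟨this.1, this.2.1, this.2.2.1⟩
    intro o o' o''
    unfold ohyp
    rw [hjs, hjs, hjs, hR]
    constructor
    · rintro ⟨h0, h1, h2, he, hcases⟩
      rcases hcases with ⟨hl1, hl2, hp⟩ | ⟨hl1, hl2, hp⟩ | ⟨hl1, hl2, hp⟩
      · rcases o with _ | b
        · obtain ⟨b, b', hb, hb', hH⟩ := (hpair _ _).1 hp
          rcases o' with _ | a
          · exact absurd hl1 (lt_irrefl _)
          rcases o'' with _ | a'
          · exact absurd hl2 (lt_irrefl _)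
          have e1 := hinj b a hb
          have e2 := hinj b' a' hb'
          subst e1; subst e2
          rcases hH with h | h | h
          · exact h
          · exact absurd ((sor h).2.1.symm.trans h0) (by decide)
          · exact absurd ((sor h).2.2.symm.trans h0) (by decide)
        · rcases o' with _ | a
          · exact absurd hl1 (hlt b).asymm
          rcases o'' with _ | a'
          · exact absurd hl2 (hlt b).asymm
          refine (hsub.2.2 b a a').2 ⟨?_, ?_, ?_, ?_, Or.inl ⟨hl1, hl2, hp⟩⟩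
          · rw [← h0]; exact (hsub.1 b).symm
          · rw [← h1]; exact (hsub.1 a).symm
          · rw [← h2]; exact (hsub.1 a').symm
          · exact (hsub.2.1 b a).1 he
      · rcases o' with _ | b
        · obtain ⟨b, b', hb, hb', hH⟩ := (hpair _ _).1 hp
          rcases o with _ | a
          · exact absurd hl1 (lt_irrefl _)
          rcases o'' with _ | a'
          · exact absurd hl2 (lt_irrefl _)
          have e1 := hinj b a hb
          have e2 := hinj b' a' hb'
          subst e1; subst e2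
          rcases hH with h | h | h
          · exact absurd ((sor h).1.symm.trans h1) (by decide)
          · exact h
          · exact absurd ((sor h).2.2.symm.trans h1) (by decide)
        · rcases o with _ | a
          · exact absurd hl1 (hlt b).asymm
          rcases o'' with _ | a'
          · exact absurd hl2 (hlt b).asymm
          refine (hsub.2.2 a b a').2 ⟨?_, ?_, ?_, ?_, Or.inr (Or.inl ⟨hl1, hl2, hp⟩)⟩
          · rw [← h0]; exact (hsub.1 a).symm
          · rw [← h1]; exact (hsub.1 b).symm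
          · rw [← h2]; exact (hsub.1 a').symm
          · exact (hsub.2.1 a b).1 he
      · rcases o'' with _ | b
        · obtain ⟨b, b', hb, hb', hH⟩ := (hpair _ _).1 hp
          rcases o with _ | a
          · exact absurd hl1 (lt_irrefl _)
          rcases o' with _ | a'
          · exact absurd hl2 (lt_irrefl _)
          have e1 := hinj b a hb
          have e2 := hinj b' a' hb'
          subst e1; subst e2
          rcases hH with h | h | h
          · exact absurd ((sor h).1.symm.trans h2) (by decide)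
          · exact absurd ((sor h).2.1.symm.trans h2) (by decide)
          · exact h
        · rcases o with _ | a
          · exact absurd hl1 (hlt b).asymm
          rcases o' with _ | a'
          · exact absurd hl2 (hlt b).asymm
          refine (hsub.2.2 a a' b).2 ⟨?_, ?_, ?_, ?_, Or.inr (Or.inr ⟨hl1, hl2, hp⟩)⟩
          · rw [← h0]; exact (hsub.1 a).symm
          · rw [← h1]; exact (hsub.1 a').symm
          · rw [← h2]; exact (hsub.1 b).symm
          · exact (hsub.2.1 a a').1 he
    · intro h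
      obtain ⟨h0, h1, h2, he⟩ := hS.hyp _ _ _ h
      refine ⟨h0, h1, h2, he, ?_⟩
      rcases o with _ | a
      · rcases o' with _ | b
        · exact absurd (h0.symm.trans h1) (by decide)
        rcases o'' with _ | b'
        · exact absurd (h0.symm.trans h2) (by decide)
        exact Or.inl ⟨hlt b, hlt b', (hpair _ _).2 ⟨b, b', rfl, rfl, Or.inl h⟩⟩
      · rcases o' with _ | b
        · rcases o'' with _ | b'
          · exact absurd (h1.symm.trans h2) (by decide)
          exact Or.inr (Or.inl ⟨hlt a, hlt b', (hpair _ _).2 ⟨a, b', rfl, rfl, Or.inr (Or.inl h)⟩⟩)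
        · rcases o'' with _ | b'
          · exact Or.inr (Or.inr ⟨hlt a, hlt b,
              (hpair _ _).2 ⟨a, b, rfl, rfl, Or.inr (Or.inr h)⟩⟩)
          · exact ((hsub.2.2 a b b').1 h).2.2.2.2
  have hvalid : Valid c α := by
    rw [valid_iff]
    intro u v w d hu hv hw hd hu' hv' hw' hd' hbad
    obtain ⟨hh, he1, he2, he3⟩ := hbad
    have F1 : ∀ x, x ≤ α → oedge c α x → ∃ o, j o = x := by
      rintro x hx ⟨-, ⟨-, h⟩ | ⟨h, -⟩⟩
      · obtain ⟨b, hb, -⟩ := (hnbr _).1 h
        exact ⟨some b, hb⟩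
      · exact absurd hx (not_le.2 h)
    have F1' : ∀ x, x ≤ α → oedge c x α → ∃ o, j o = x := fun x hx h =>
      F1 x hx (hoedge_symm _ _ h)
    have F2 : ∀ x y, opair c α x y → (∃ o, j o = x) ∧ (∃ o, j o = y) := by
      intro x y h
      obtain ⟨b, b', hb, hb', -⟩ := (hpair _ _).1 h
      exact ⟨⟨some b, hb⟩, ⟨some b', hb'⟩⟩
    have Jα : ∃ o, j o = α := ⟨none, rfl⟩
    have conclude : (∃ o, j o = u) → (∃ o, j o = v) → (∃ o, j o = w) → (∃ o, j o = d) →
        False := by
      rintro ⟨a, rfl⟩ ⟨b, rfl⟩ ⟨e, rfl⟩ ⟨f, rfl⟩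
      exact hS.free _ _ _ _ ((hH _ _ _).1 hh) ((hR _ _).1 he1) ((hR _ _).1 he2)
        ((hR _ _).1 he3)
    rcases hd.eq_or_lt with rfl | hdlt
    · exact conclude (F1' _ hu he1) (F1' _ hv he2) (F1' _ hw he3) Jα
    rcases hu.eq_or_lt with rfl | hult
    · have hd'' := F1 _ hd he1
      rcases hh.2.2.2.2 with ⟨-, -, hp⟩ | ⟨h, -, -⟩ | ⟨h, -, -⟩
      · exact conclude Jα (F2 _ _ hp).1 (F2 _ _ hp).2 hd''
      · exact absurd hv (not_le.2 h)
      · exact absurd hw (not_le.2 h)
    rcases hv.eq_or_lt with rfl | hvlt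
    · have hd'' := F1 _ hd he2
      rcases hh.2.2.2.2 with ⟨h, -, -⟩ | ⟨-, -, hp⟩ | ⟨-, h, -⟩
      · exact absurd hu (not_le.2 h)
      · exact conclude (F2 _ _ hp).1 Jα (F2 _ _ hp).2 hd''
      · exact absurd hw (not_le.2 h)
    rcases hw.eq_or_lt with rfl | hwlt
    · have hd'' := F1 _ hd he3
      rcases hh.2.2.2.2 with ⟨-, h, -⟩ | ⟨-, h, -⟩ | ⟨-, -, hp⟩
      · exact absurd hu (not_le.2 h)
      · exact absurd hv (not_le.2 h)
      · exact conclude (F2 _ _ hp).1 (F2 _ _ hp).2 Jα hd''
    exact not_bad c (hu' hult) (hv' hvlt) (hw' hwlt) (hd' hdlt) ⟨hh, he1, he2, he3⟩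
  have hjev : ∀ o, j o = (ev B (⟨α, hvalid⟩ : GU c) o).1 := by
    intro o; rcases o with _ | b <;> rfl
  refine ⟨⟨α, hvalid⟩, ?_, ?_, ?_, ?_⟩
  · intro h
    exact absurd (hβ _ h) (not_lt.2 hα)
  · intro o
    rw [← hjs, hjev]; rfl
  · intro o o'
    rw [← hR, hjev, hjev]; rfl
  · intro o o' o''
    rw [← hH, hjev, hjev, hjev]; rfl

end Build

end Pool.Agent.WeakOrth
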