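import Pool.Agent.WeakOrth.Nip

open FirstOrder FirstOrder.Language Cardinal

namespace Pool.Agent.WeakOrth

universe u v w

variable {L : FirstOrder.Language.{u, v}} {U : Type w} [L.Structure U] {α β γ : Type}
  {κ : Cardinal.{w}}

omit [L.Structure U] in
theorem Over.inf {A : Set U} {φ ψ : L.Formula (U ⊕ α)} (h : Over A φ) (h' : Over A ψ) :
    Over A (φ ⊓ ψ) := by
  intro m hm
  simp only [min, BoundedFormula.not, BoundedFormula.freeVarFinset, Finset.union_empty,
    Finset.mem_union] at hm
  rcases hm with h1 | h1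
  · exact h m h1
  · exact h' m h1

omit [L.Structure U] in
theorem Over.not {A : Set U} {φ : L.Formula (U ⊕ α)} (h : Over A φ) : Over A φ.not := by
  intro m hm
  exact h m (by simpa [Formula.not] using hm)

/-- A finite family of formulas is decided simultaneously. -/
theorem exists_holds_family {r : GlobalType L U α} {φ : L.Formula (U ⊕ α)} (hφ : φ ∈ r)
    {ι : Type*} [Finite ι] (θ : ι → L.Formula (U ⊕ α)) :
    ∃ x, Holds φ x ∧ ∀ t, (Holds (θ t) x ↔ θ t ∈ r) := by
  classical
  have := Fintype.ofFinite ι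
  obtain ⟨x, hx⟩ := r.finitely_satisfiable
    (insert φ (Finset.univ.image (fun t => if θ t ∈ r then θ t else (θ t).not))) (by
      intro χ hχ
      simp only [Finset.coe_insert, Finset.coe_image, Finset.coe_univ, Set.image_univ,
        Set.mem_insert_iff, Set.mem_range] at hχ
      rcases hχ with rfl | ⟨t, rfl⟩
      · exact hφ
      · split_ifs with h
        · exact h
        · exact GlobalType.not_mem_iff.2 h)
  refine ⟨x, hx φ (by simp), fun t => ?_⟩
  have ht := hx _ (Finset.mem_insert_of_mem (Finset.mem_image_of_mem _ (Finset.mem_univ t)))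
  split_ifs at ht with h
  · exact ⟨fun _ => h, fun _ => ht⟩
  · exact ⟨fun h' => absurd h' (holds_not.1 ht), fun h' => absurd h' h⟩

/-- The restriction of a global type along a map of variables. -/
def GlobalType.comap (f : α → β) (r : GlobalType L U β) : GlobalType L U α where
  carrier := {φ | φ.relabel (Sum.map id f) ∈ r}
  finitely_satisfiable := by
    classical
    intro F hF
    obtain ⟨x, hx⟩ := r.finitely_satisfiable (F.image (fun φ => φ.relabel (Sum.map id f))) (by
      intro χ hχ
      simp only [Finset.coe_image, Set.mem_image] at hχ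
      obtain ⟨φ, hφ, rfl⟩ := hχ
      exact hF hφ)
    refine ⟨x ∘ f, fun φ hφ => ?_⟩
    have := hx _ (Finset.mem_image_of_mem _ hφ)
    unfold Holds at this ⊢
    rw [Formula.realize_relabel] at this
    have e : (Sum.elim id x ∘ Sum.map id f : U ⊕ α → U) = Sum.elim id (x ∘ f) := by
      funext i; rcases i with i | i <;> rfl
    rwa [e] at this
  complete := by
    intro φ
    rcases r.complete (φ.relabel (Sum.map id f)) with h | h
    · exact Or.inl h
    · right
      refine GlobalType.mem_of_forall (fun x hx => ?_) h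
      rw [holds_not] at hx
      unfold Holds at *
      rw [Formula.realize_relabel] at *
      simpa using hx

theorem holds_relabel_vars {f : α → β} {φ : L.Formula (U ⊕ α)} {x : β → U} :
    Holds (φ.relabel (Sum.map id f)) x ↔ Holds φ (x ∘ f) := by
  unfold Holds
  rw [Formula.realize_relabel]
  have e : (Sum.elim id x ∘ Sum.map id f : U ⊕ α → U) = Sum.elim id (x ∘ f) := by
    funext i; rcases i with i | i <;> rfl
  rw [e]

omit [L.Structure U] in
theorem over_relabel_vars {A : Set U} {f : α → β} {φ : L.Formula (U ⊕ α)} (h : Over A φ) :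
    Over A (φ.relabel (Sum.map id f) : L.Formula (U ⊕ β)) :=
  over_relabel' _ _ h (by
    intro x hx m hm
    simp only [Sum.map_inl, id, Sum.inl.injEq] at hm
    exact hm ▸ hx) (by
    intro x m hm
    simp at hm)

/-- Existential quantification of some of the variables of a formula with parameters. -/
theorem exists_ex [Finite α] {A : Set U} {φ : L.Formula (U ⊕ Option α)} (hφ : Over A φ) :
    ∃ η : L.Formula (U ⊕ Unit), Over A η ∧ ∀ b : Unit → U,
      (Holds η b ↔ ∃ y : α → U, Holds φ (fun o => o.elim (b ()) y)) := by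
  obtain ⟨χ, hχ⟩ := exists_formula_tuple (V := A) (fun a => a.1) (B := A) (by simp) hφ
  let g : A ⊕ Option α → (A ⊕ Unit) ⊕ α := Sum.elim (fun a => Sum.inl (Sum.inl a))
    (fun o => o.elim (Sum.inl (Sum.inr ())) (fun i => Sum.inr i))
  refine ⟨(Formula.iExs α (χ.relabel g)).relabel (Sum.map (fun a : A => a.1) id),
    over_relabel_coe _, fun b => ?_⟩
  unfold Holds
  rw [Formula.realize_relabel, Formula.realize_iExs]
  refine exists_congr fun y => ?_
  rw [Formula.realize_relabel]
  have e : (Sum.elim (Sum.elim id b ∘ Sum.map (fun a : A => a.1) id) y ∘ g : A ⊕ Option α → U)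
      = Sum.elim (fun a => a.1) (fun o => o.elim (b ()) y) := by
    funext i
    rcases i with i | _ | i <;> rfl
  rw [e]
  exact hχ _

/-- A finite part of `r|A` is implied by one formula of `r|A`. -/
theorem exists_conj_mem {r : GlobalType L U α} {A : Set U} (F : Finset (L.Formula (U ⊕ α)))
    (hF : ∀ φ ∈ F, φ ∈ r ∧ Over A φ) :
    ∃ φ ∈ r, Over A φ ∧ ∀ a, Holds φ a → ∀ ψ ∈ F, Holds ψ a := by
  classical
  induction F using Finset.induction_on with
  | empty =>
    refine ⟨⊤, top_mem r, ?_, by simp⟩
    intro m hm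
    simp at hm
  | insert ψ F hψF ih =>
    obtain ⟨φ, hφ, hφA, h⟩ := ih fun φ hφ => hF φ (Finset.mem_insert_of_mem hφ)
    have hψ := hF ψ (Finset.mem_insert_self _ _)
    refine ⟨φ ⊓ ψ, GlobalType.inf_mem hφ hψ.1, hφA.inf hψ.2, fun a ha χ hχ => ?_⟩
    rw [holds_inf] at ha
    rcases Finset.mem_insert.1 hχ with rfl | hχ
    · exact ha.2
    · exact h a ha.1 χ hχ

theorem sat_of_equiv {α β : Type} (e : α ≃ β)
    (ih : ∀ (r : GlobalType L U α) (A : Set U), #A < κ → ∃ a, r.RealizesOver A a) :
    ∀ (r : GlobalType L U β) (A : Set U), #A < κ → ∃ a, r.RealizesOver A a := by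
  intro r A hA
  obtain ⟨a, ha⟩ := ih (r.comap e) A hA
  refine ⟨a ∘ e.symm, fun φ hφ hφo => ?_⟩
  have h1 : (φ.relabel (Sum.map id e.symm) : L.Formula (U ⊕ α)) ∈ r.comap e := by
    change (φ.relabel (Sum.map id e.symm) : L.Formula (U ⊕ α)).relabel (Sum.map id e) ∈ r
    refine GlobalType.mem_of_forall (fun x hx => ?_) hφ
    rw [holds_relabel_vars, holds_relabel_vars]
    have : ((x ∘ e) ∘ e.symm : β → U) = x := by
      funext i; simp
    rwa [this]
  have h2 := ha _ h1 (over_relabel_vars hφo)
  rwa [holds_relabel_vars] at h2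

theorem sat_empty {α : Type} [IsEmpty α] :
    ∀ (r : GlobalType L U α) (A : Set U), #A < κ → ∃ a, r.RealizesOver A a := by
  intro r A _
  refine ⟨isEmptyElim, fun φ hφ _ => ?_⟩
  obtain ⟨a, ha⟩ := exists_holds hφ
  rwa [Subsingleton.elim a isEmptyElim] at ha

theorem sat_option {α : Type} [Finite α] (h0 : ℵ₀ < κ)
    (h1 : ∀ (r : GlobalType L U Unit) (A : Set U), #A < κ → ∃ a, r.RealizesOver A a)
    (ih : ∀ (r : GlobalType L U α) (A : Set U), #A < κ → ∃ a, r.RealizesOver A a) :
    ∀ (r : GlobalType L U (Option α)) (A : Set U), #A < κ → ∃ a, r.RealizesOver A a := by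
  classical
  intro r A hA
  obtain ⟨b, hb⟩ := h1 (r.comap (fun _ : Unit => none)) A hA
  let g : U ⊕ Option α → U ⊕ α := Sum.elim Sum.inl (fun o => o.elim (Sum.inl (b ())) Sum.inr)
  have hg : ∀ (φ : L.Formula (U ⊕ Option α)) (y : α → U),
      Holds (φ.relabel g) y ↔ Holds φ (fun o => o.elim (b ()) y) := by
    intro φ y
    unfold Holds
    rw [Formula.realize_relabel]
    have e : (Sum.elim id y ∘ g : U ⊕ Option α → U) =
        Sum.elim id (fun o => o.elim (b ()) y) := by
      funext i; rcases i with i | _ | i <;> rfl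
    rw [e]
  obtain ⟨r', hr'⟩ := exists_globalType
    ((fun φ : L.Formula (U ⊕ Option α) => (φ.relabel g : L.Formula (U ⊕ α))) ''
      {φ | φ ∈ r ∧ Over A φ}) (by
    intro F hF
    obtain ⟨F', hF'S, rfl⟩ := Finset.subset_set_image_iff.1 hF
    obtain ⟨φ, hφ, hφA, himp⟩ := exists_conj_mem (r := r) (A := A) F' (fun ψ hψ => hF'S hψ)
    obtain ⟨η, hη, hη'⟩ := exists_ex hφA
    have h2 : η ∈ r.comap (fun _ : Unit => (none : Option α)) := by
      change η.relabel (Sum.map id (fun _ : Unit => (none : Option α))) ∈ r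
      refine GlobalType.mem_of_forall (fun x hx => ?_) hφ
      rw [holds_relabel_vars, hη']
      refine ⟨fun i => x (some i), ?_⟩
      have e : (fun o : Option α => o.elim ((x ∘ fun _ : Unit => (none : Option α)) ())
          (fun i => x (some i))) = x := by
        funext o; rcases o with _ | i <;> rfl
      rwa [e]
    obtain ⟨y, hy⟩ := (hη' b).1 (hb η h2 hη)
    refine ⟨y, fun χ hχ => ?_⟩
    obtain ⟨ψ, hψ, rfl⟩ := Finset.mem_image.1 hχ
    rw [hg]
    exact himp _ hy ψ hψ)
  have hA' : #(A ∪ Set.range b : Set U) < κ :=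
    (mk_union_le _ _).trans_lt (add_lt_of_lt h0.le hA
      ((lt_aleph0_iff_set_finite.2 (Set.finite_range b)).trans h0))
  obtain ⟨y, hy⟩ := ih r' (A ∪ Set.range b) hA'
  refine ⟨fun o => o.elim (b ()) y, fun φ hφ hφo => ?_⟩
  rw [← hg]
  refine hy _ (hr' _ ⟨φ, ⟨hφ, hφo⟩, rfl⟩) ?_
  refine over_relabel' _ _ hφo ?_ ?_
  · intro x hx m hm
    simp only [g, Sum.elim_inl, Sum.inl.injEq] at hm
    exact Or.inl (hm ▸ hx)
  · intro x m hm
    rcases x with _ | x
    · simp only [g, Sum.elim_inr, Option.elim_none, Sum.inl.injEq] at hm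
      exact Or.inr ⟨(), hm⟩
    · simp [g] at hm

/-- Saturation for one variable implies saturation for finitely many variables. -/
theorem saturated_of_one (h0 : ℵ₀ < κ)
    (h1 : ∀ (r : GlobalType L U Unit) (A : Set U), #A < κ → ∃ a, r.RealizesOver A a)
    (α : Type) [Finite α] :
    ∀ (r : GlobalType L U α) (A : Set U), #A < κ → ∃ a, r.RealizesOver A a := by
  induction α using Finite.induction_empty_option with
  | of_equiv e ih => exact sat_of_equiv e ih
  | h_empty => exact sat_empty
  | h_option ih => exact sat_option h0 h1 ih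

end Pool.Agent.WeakOrth
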